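import Pool.Agent.Work.MP_0d53be_an.Pow

/-!
The statements for Banach algebras.
-/

set_option autoImplicit false

namespace Pool.Agent.Work.MP_0d53be_an

open MeasureTheory Set Filter Topology

variable {A : Type*} [NonUnitalNormedRing A] [NormedSpace ℂ A] [SMulCommClass ℂ A A]
  [IsScalarTower ℂ A A]

/-- The element `a (z + a) ^ n` of `A`, computed in the unitization of `A`. -/
noncomputable def orb (a : A) (z : ℂ) (n : ℕ) : A :=
  ((a : Unitization ℂ A) * (algebraMap ℂ (Unitization ℂ A) z + (a : Unitization ℂ A)) ^ n).snd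

/-- The power `a ^ n`, `n ≥ 1`, computed in the unitization of `A`. -/
noncomputable def apow (a : A) (n : ℕ) : A := ((a : Unitization ℂ A) ^ n).snd

/-- Multiplication by `a`. -/
noncomputable def mulL (a : A) : A →L[ℂ] A := ContinuousLinearMap.mul ℂ A a

theorem mulL_apply (a x : A) : mulL a x = a * x := rfl

theorem step_unit (a : A) (z : ℂ) (x : A) :
    (algebraMap ℂ (Unitization ℂ A) z + (a : Unitization ℂ A)) * (x : Unitization ℂ A) =
      ((z • x + a * x : A) : Unitization ℂ A) := by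
  rw [add_mul, Unitization.algebraMap_eq_inl, Unitization.inl_mul_inr, Unitization.inr_add,
    Unitization.inr_mul]

theorem pow_unit (a : A) (z : ℂ) (x : A) (n : ℕ) :
    (algebraMap ℂ (Unitization ℂ A) z + (a : Unitization ℂ A)) ^ n * (x : Unitization ℂ A) =
      ((((z • (1 : A →L[ℂ] A) + mulL a) ^ n) x : A) : Unitization ℂ A) := by
  induction n with
  | zero => simp
  | succ n ih =>
    rw [pow_succ', mul_assoc, ih, step_unit, pow_succ']
    rfl

theorem orb_eq (a : A) (z : ℂ) (n : ℕ) :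
    orb a z n = ((z • (1 : A →L[ℂ] A) + mulL a) ^ n) a := by
  have hc : Commute (a : Unitization ℂ A)
      (algebraMap ℂ (Unitization ℂ A) z + (a : Unitization ℂ A)) :=
    (Algebra.commute_algebraMap_right z _).add_right (Commute.refl _)
  unfold orb
  rw [(hc.pow_right n).eq, pow_unit, Unitization.snd_inr]

theorem apow_succ (a : A) (n : ℕ) :
    ((a : Unitization ℂ A) ^ (n + 1)) = ((apow a (n + 1) : A) : Unitization ℂ A) := by
  have h : ∃ x : A, (a : Unitization ℂ A) ^ (n + 1) = (x : Unitization ℂ A) := by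
    induction n with
    | zero => exact ⟨a, by simp⟩
    | succ n ih =>
      obtain ⟨x, hx⟩ := ih
      refine ⟨x * a, ?_⟩
      rw [pow_succ, hx, Unitization.inr_mul]
  obtain ⟨x, hx⟩ := h
  unfold apow
  rw [hx, Unitization.snd_inr]

theorem apow_mul (a : A) (n : ℕ) : apow a (n + 2) = apow a (n + 1) * a := by
  have h1 := apow_succ a (n + 1)
  rw [pow_succ, apow_succ a n, ← Unitization.inr_mul] at h1
  exact (Unitization.inr_injective h1).symm

theorem apow_one (a : A) : apow a 1 = a := by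
  unfold apow
  rw [pow_one, Unitization.snd_inr]

theorem mulL_pow (a x : A) (n : ℕ) : (mulL a ^ (n + 1)) x = apow a (n + 1) * x := by
  induction n generalizing x with
  | zero =>
    rw [pow_one, apow_one]
    rfl
  | succ n ih =>
    rw [pow_succ, apow_mul, mul_assoc]
    change (mulL a ^ (n + 1)) (mulL a x) = _
    rw [ih, mulL_apply]

theorem mulL_norm (a : A) (n : ℕ) : ‖mulL a ^ (n + 1)‖ ≤ ‖apow a (n + 1)‖ := by
  refine ContinuousLinearMap.opNorm_le_bound _ (norm_nonneg _) (fun x => ?_)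
  rw [mulL_pow]
  exact norm_mul_le _ _

theorem mulL_le {a : A} {s : ℕ → ℝ} (h : ∀ n : ℕ, 1 ≤ n → ‖apow a n‖ ≤ s n ^ n) (n : ℕ) :
    ‖mulL a ^ n‖ ≤ s n ^ n := by
  rcases Nat.eq_zero_or_pos n with h0 | h0
  · subst h0
    rw [pow_zero, pow_zero]
    exact ContinuousLinearMap.norm_id_le
  · obtain ⟨m, rfl⟩ : ∃ m, n = m + 1 := ⟨n - 1, by omega⟩
    exact (mulL_norm a m).trans (h (m + 1) h0)

theorem set_eq (a : A) (t : ℝ) :
    {x : A | ∃ n : ℕ, 1 ≤ n ∧ x = orb a (Complex.exp (t * Complex.I)) n} =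
      {y : A | ∃ n : ℕ, 1 ≤ n ∧ y = (((cis t) • (1 : A →L[ℂ] A) + mulL a) ^ n) a} := by
  ext x
  simp only [mem_ofPred_eq, orb_eq]
  rfl

theorem mulL_self (a : A) (n : ℕ) : (mulL a ^ n) a = apow a (n + 1) := by
  cases n with
  | zero =>
    rw [pow_zero, zero_add, apow_one]
    rfl
  | succ n => rw [mulL_pow, ← apow_mul]

theorem QN_mulL {a : A} (h : Tendsto (fun n : ℕ => ‖apow a n‖ ^ (1 / (n : ℝ))) atTop (𝓝 0)) :
    QN (mulL a) := by
  have key : ∀ n : ℕ, 1 ≤ n → ‖apow a n‖ ≤ (‖apow a n‖ ^ (1 / (n : ℝ))) ^ n := fun n hn => by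
    have hn' : (n : ℝ) ≠ 0 := by
      have : n ≠ 0 := by omega
      exact_mod_cast this
    rw [← Real.rpow_natCast, ← Real.rpow_mul (norm_nonneg _), one_div_mul_cancel hn',
      Real.rpow_one]
  have hM : ∀ n : ℕ, ‖mulL a ^ n‖ ≤ (‖apow a n‖ ^ (1 / (n : ℝ))) ^ n :=
    mulL_le (s := fun n : ℕ => ‖apow a n‖ ^ (1 / (n : ℝ))) key
  exact QN_of (M := mulL a) (s := fun n : ℕ => ‖apow a n‖ ^ (1 / (n : ℝ)))
    (fun n => by positivity) hM h

/-- **Null set theorem.** -/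
theorem alg_null (a : A) (h : Tendsto (fun n : ℕ => ‖apow a n‖ ^ (1 / (n : ℝ))) atTop (𝓝 0))
    (φ : A →L[ℂ] ℂ) (hφ : φ ≠ 0) (s : ℕ → ℝ) (hs : Antitone s) (h0 : ∀ n, 0 ≤ s n)
    (ha : ∀ n : ℕ, 1 ≤ n → ‖φ (apow a n)‖ ≤ s n ^ n)
    (hsum : Summable (fun n : ℕ => s n / n)) :
    ∀ᵐ t : ℝ, ¬ Dense {x : A | ∃ n : ℕ, 1 ≤ n ∧ x = orb a (Complex.exp (t * Complex.I)) n} := by
  have hM : ∀ n : ℕ, ‖φ ((mulL a ^ n) a)‖ ≤ s 0 * s n ^ n := by
    intro n
    rw [mulL_self]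
    refine (ha (n + 1) (Nat.succ_pos n)).trans ?_
    rw [pow_succ, mul_comm]
    exact mul_le_mul (hs (Nat.zero_le _)) (pow_le_pow_left₀ (h0 _) (hs (Nat.le_succ n)) n)
      (pow_nonneg (h0 _) n) (h0 0)
  have h := operator_main (M := mulL a) (QN_mulL h) hφ hs h0 hM hsum
  filter_upwards [h] with t ht
  rw [set_eq]
  exact ht

/-- **Dimension theorem.** -/
theorem alg_dim (a : A) (h : Tendsto (fun n : ℕ => ‖apow a n‖ ^ (1 / (n : ℝ))) atTop (𝓝 0))
    (φ : A →L[ℂ] ℂ) (hφ : φ ≠ 0) (C σ : ℝ) (hσ : 0 < σ)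
    (ha : ∀ n : ℕ, 1 ≤ n → ‖φ (apow a n)‖ ≤ (C / (n : ℝ) ^ σ) ^ n) :
    dimH {t : ℝ | Dense {x : A | ∃ n : ℕ, 1 ≤ n ∧ x = orb a (Complex.exp (t * Complex.I)) n}} ≤
      ENNReal.ofReal (1 / (1 + σ)) := by
  have hM : ∀ n : ℕ, ‖φ ((mulL a ^ n) a)‖ ≤ |C| * (|C| / ((n : ℝ) + 1) ^ σ) ^ n := by
    intro n
    rw [mulL_self]
    refine (ha (n + 1) (Nat.succ_pos n)).trans ?_
    have h3 : (1 : ℝ) ≤ ((n : ℝ) + 1) ^ σ := by
      refine Real.one_le_rpow ?_ hσ.le
      have : (0 : ℝ) ≤ n := Nat.cast_nonneg n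
      linarith
    have h4 : (0 : ℝ) < ((n : ℝ) + 1) ^ σ := by linarith
    have h1 : (C / ((n + 1 : ℕ) : ℝ) ^ σ) ^ (n + 1) ≤ (|C| / ((n : ℝ) + 1) ^ σ) ^ (n + 1) := by
      push_cast
      refine (le_abs_self _).trans ?_
      rw [abs_pow, abs_div, abs_of_pos h4]
    refine h1.trans ?_
    rw [pow_succ, mul_comm]
    refine mul_le_mul_of_nonneg_right ?_ (by positivity)
    rw [div_le_iff₀ h4]
    nlinarith [abs_nonneg C]
  have h := operator_dim (M := mulL a) (QN_mulL h) hφ (C := |C|) (D := |C|) (abs_nonneg C) hσ hM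
  simp_rw [set_eq]
  exact h

theorem Nr_reflect {X : Type*} [NormedAddCommGroup X] [NormedSpace ℂ X] (M : X →L[ℂ] X) (v : X)
    (ε : ℝ) (n : ℕ) : volume.real ({t : ℝ | -t ∈ Nr M v ε n} ∩ Ioc 0 (2 * Real.pi)) =
      volume.real (Nr M v ε n ∩ Ioc 0 (2 * Real.pi)) := by
  have hm := (Nr_open M v ε n).measurableSet
  have e1 : {t : ℝ | -t ∈ Nr M v ε n} ∩ Ioc 0 (2 * Real.pi) =
      (fun t => 2 * Real.pi - t) ⁻¹' (Nr M v ε n ∩ Ico 0 (2 * Real.pi)) := by
    ext t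
    simp only [mem_inter_iff, mem_ofPred_eq, mem_Ioc, mem_preimage, mem_Ico]
    rw [← Nr_add M v ε n (-t), show -t + 2 * Real.pi = 2 * Real.pi - t by ring]
    constructor
    · rintro ⟨h1, h2, h3⟩
      exact ⟨h1, by linarith, by linarith⟩
    · rintro ⟨h1, h2, h3⟩
      exact ⟨h1, by linarith, by linarith⟩
  have e2 : volume ((fun t => 2 * Real.pi - t) ⁻¹' (Nr M v ε n ∩ Ico 0 (2 * Real.pi))) =
      volume (Nr M v ε n ∩ Ico 0 (2 * Real.pi)) :=
    ((volume : Measure ℝ).measurePreserving_sub_left (2 * Real.pi)).measure_preimage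
      (hm.inter measurableSet_Ico).nullMeasurableSet
  have e3 : volume (Nr M v ε n ∩ Ico 0 (2 * Real.pi)) =
      volume (Nr M v ε n ∩ Ioc 0 (2 * Real.pi)) := by
    refine measure_congr ?_
    exact (ae_eq_refl _).inter Ico_ae_eq_Ioc
  rw [measureReal_def, measureReal_def, e1, e2, e3]

/-- **The unconditional theorem.** -/
theorem alg_average (a : A) (h2 : a * a ≠ 0)
    (h : Tendsto (fun n : ℕ => ‖apow a n‖ ^ (1 / (n : ℝ))) atTop (𝓝 0)) :
    ∃ ε : ℝ, 0 < ε ∧ Tendsto (fun N : ℕ => (∑ n ∈ Finset.range N, (n : ℝ) *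
      volume.real {t : ℝ | t ∈ Ioc 0 (2 * Real.pi) ∧
        ‖orb a (Complex.exp (t * Complex.I)) n - a‖ < ε}) / N) atTop (𝓝 0) := by
  obtain ⟨ε, hε, hlim⟩ := average (QN_mulL h) (v := a) h2
  refine ⟨ε, hε, ?_⟩
  refine squeeze_zero (fun N => ?_) (fun N => ?_) hlim
  · exact div_nonneg (Finset.sum_nonneg (fun n _ =>
      mul_nonneg (Nat.cast_nonneg n) measureReal_nonneg)) (Nat.cast_nonneg N)
  · refine div_le_div_of_nonneg_right ?_ (Nat.cast_nonneg N)
    refine Finset.sum_le_sum (fun n _ => mul_le_mul_of_nonneg_left ?_ (Nat.cast_nonneg n))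
    rw [← Nr_reflect]
    refine measureReal_mono ?_ ((measure_mono inter_subset_right).trans_lt
      measure_Ioc_lt_top).ne
    rintro t ⟨ht1, ht2⟩
    refine ⟨?_, ht1⟩
    have hz : (cis t) ^ n ≠ 0 := pow_ne_zero n (cis_ne t)
    refine ⟨((cis t) ^ n)⁻¹, ?_, ?_⟩
    · rw [norm_inv, norm_pow, cis_norm, one_pow, inv_one]
    · rw [orb_eq] at ht2
      change ‖(((cis t) • (1 : A →L[ℂ] A) + mulL a) ^ n) a - a‖ < ε at ht2
      rw [orbit_eq] at ht2
      have e : ((1 + cis (-t) • mulL a) ^ n) a - ((cis t) ^ n)⁻¹ • a =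
          ((cis t) ^ n)⁻¹ • ((cis t) ^ n • (((1 + cis (-t) • mulL a) ^ n) a) - a) := by
        rw [smul_sub, smul_smul, inv_mul_cancel₀ hz, one_smul]
      rw [e, norm_smul, norm_inv, norm_pow, cis_norm, one_pow, inv_one, one_mul]
      exact ht2

end Pool.Agent.Work.MP_0d53be_an
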