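import Pool.Agent.Work.MP_0d53be_an.Main

/-!
The unconditional bound: `∑ n ≤ N, n |S n| = o(N)`.
-/

set_option autoImplicit false

namespace Pool.Agent.Work.MP_0d53be_an

open MeasureTheory Set Filter Topology

variable {X : Type*} [NormedAddCommGroup X] [NormedSpace ℂ X]

theorem log_ES_small [Nontrivial X] {M : X →L[ℂ] X} (hM : QN M) {δ : ℝ} (hδ : 0 < δ) :
    ∃ C : ℝ, ∀ N : ℕ, Real.log (ES (fun i => ‖M ^ i‖) N) ≤ C + 2 * δ * N := by
  obtain ⟨C, hC⟩ := hM (1 / δ) (by positivity)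
  have hC1 : 1 ≤ C := by
    have := hC 0
    simpa using this
  refine ⟨Real.log C, fun N => ?_⟩
  have h1 : ES (fun i => ‖M ^ i‖) N ≤ C * Real.exp (2 * δ * N) := by
    have h2 : ES (fun i => ‖M ^ i‖) N ≤ ∑ i ∈ Finset.range (N + 1), C * ((2 * δ) ^ i * 1 ^ (N - i) * N.choose i) := by
      unfold ES
      refine Finset.sum_le_sum (fun i _ => ?_)
      have h3 : ‖M ^ i‖ ≤ C * δ ^ i := by
        have := hC i
        rw [div_pow, one_pow, div_mul_eq_mul_div, one_mul, div_le_iff₀ (by positivity)] at this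
        exact this
      calc (N.choose i : ℝ) * 2 ^ i * ‖M ^ i‖ ≤ (N.choose i : ℝ) * 2 ^ i * (C * δ ^ i) := by gcongr
        _ = C * ((2 * δ) ^ i * 1 ^ (N - i) * N.choose i) := by
          rw [one_pow, mul_pow]
          ring
    rw [← Finset.mul_sum, ← add_pow] at h2
    refine h2.trans ?_
    refine mul_le_mul_of_nonneg_left ?_ (by linarith)
    have h4 : 2 * δ + 1 ≤ Real.exp (2 * δ) := Real.add_one_le_exp _
    calc (2 * δ + 1) ^ N ≤ Real.exp (2 * δ) ^ N := pow_le_pow_left₀ (by positivity) h4 N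
      _ = Real.exp (2 * δ * N) := by
        rw [← Real.exp_nat_mul]
        congr 1
        ring
  have h5 := one_le_ES (m := fun i => ‖M ^ i‖) (by simp) (fun i => norm_nonneg _) N
  refine (Real.log_le_log (by linarith) h1).trans ?_
  rw [Real.log_mul (by linarith) (Real.exp_pos _).ne', Real.log_exp]

/-- **The unconditional theorem for operators.** -/
theorem average {M : X →L[ℂ] X} (hM : QN M) {v : X} (hv : M v ≠ 0) :
    ∃ ε : ℝ, 0 < ε ∧ Tendsto (fun N : ℕ => (∑ n ∈ Finset.range N,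
      n * volume.real (Nr M v ε n ∩ Ioc 0 (2 * Real.pi))) / N) atTop (𝓝 0) := by
  have : Nontrivial X := ⟨⟨M v, 0, hv⟩⟩
  obtain ⟨ε, hε, hcnt⟩ := count_norm hM hv
  obtain ⟨K, hK, h⟩ := master hcnt
  refine ⟨ε, hε, ?_⟩
  rw [Metric.tendsto_atTop]
  intro δ hδ
  obtain ⟨C, hC⟩ := log_ES_small hM (δ := δ / (4 * K + 4)) (by positivity)
  obtain ⟨N₀, hN₀⟩ := exists_nat_gt (K * (1 + |C|) * (4 / δ) + 1)
  refine ⟨N₀, fun N hN => ?_⟩
  have hN1 : K * (1 + |C|) * (4 / δ) + 1 < N := lt_of_lt_of_le hN₀ (by exact_mod_cast hN)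
  have hpos : 0 ≤ K * (1 + |C|) * (4 / δ) := by positivity
  have hNpos : (0 : ℝ) < N := by linarith
  have hnn : 0 ≤ ∑ n ∈ Finset.range N, n * volume.real (Nr M v ε n ∩ Ioc 0 (2 * Real.pi)) :=
    Finset.sum_nonneg (fun n _ => mul_nonneg (Nat.cast_nonneg n) measureReal_nonneg)
  rw [Real.dist_eq, sub_zero, abs_of_nonneg (div_nonneg hnn hNpos.le), div_lt_iff₀ hNpos]
  refine lt_of_le_of_lt (h N) ?_
  have h1 := hC N
  have h2 : K * (1 + Real.log (ES (fun i => ‖M ^ i‖) N)) ≤ K * (1 + |C|) + K * (2 * (δ / (4 * K + 4)) * N) := by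
    have := le_abs_self C
    nlinarith
  have h3 : K * (2 * (δ / (4 * K + 4)) * N) ≤ δ / 2 * N := by
    have : K * (2 * (δ / (4 * K + 4))) ≤ δ / 2 := by
      rw [show K * (2 * (δ / (4 * K + 4))) = (K * 2 * δ) / (4 * K + 4) by ring,
        div_le_iff₀ (by positivity)]
      nlinarith
    calc K * (2 * (δ / (4 * K + 4)) * N) = (K * (2 * (δ / (4 * K + 4)))) * N := by ring
      _ ≤ δ / 2 * N := by gcongr
  have h4 : K * (1 + |C|) < δ / 4 * N := by
    have h5 : K * (1 + |C|) * (4 / δ) < N := by linarith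
    rw [mul_div_assoc', div_lt_iff₀ hδ] at h5
    linarith
  nlinarith

end Pool.Agent.Work.MP_0d53be_an
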