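import Pool.Agent.Work.MP_0d53be_an.Model

/-!
The counting theorem for quasi-nilpotent operators on a normed space.
-/

set_option autoImplicit false

namespace Pool.Agent.Work.MP_0d53be_an

open MeasureTheory Set Filter Topology

variable {X : Type*} [NormedAddCommGroup X] [NormedSpace ℂ X]

/-- Quasi-nilpotency: `‖M ^ j‖ ^ (1 / j) → 0`. -/
def QN (M : X →L[ℂ] X) : Prop := ∀ r : ℝ, 0 < r → ∃ C : ℝ, ∀ j : ℕ, r ^ j * ‖M ^ j‖ ≤ C

theorem QN.summable {M : X →L[ℂ] X} (h : QN M) :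
    Summable (fun j : ℕ => (16 ^ j * ‖M ^ j‖) ^ 2) := by
  obtain ⟨C, hC⟩ := h 32 (by norm_num)
  have hs : Summable (fun j : ℕ => C ^ 2 * (1 / 4 : ℝ) ^ j) :=
    (summable_geometric_of_lt_one (by norm_num) (by norm_num)).mul_left _
  refine Summable.of_nonneg_of_le (fun j => by positivity) (fun j => ?_) hs
  have h1 := hC j
  have h2 : (16 : ℝ) ^ j * ‖M ^ j‖ ≤ C * (1 / 2) ^ j := by
    have e : (16 : ℝ) ^ j * ‖M ^ j‖ = (32 ^ j * ‖M ^ j‖) * (1 / 2) ^ j := by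
      rw [mul_right_comm, ← mul_pow]
      norm_num
    rw [e]
    gcongr
  calc ((16 : ℝ) ^ j * ‖M ^ j‖) ^ 2 ≤ (C * (1 / 2) ^ j) ^ 2 := by gcongr
    _ = C ^ 2 * (1 / 4 : ℝ) ^ j := by
      rw [mul_pow, ← pow_mul, mul_comm j 2, pow_mul]
      norm_num

/-- The growth function of a sequence `m`. -/
noncomputable def ES (m : ℕ → ℝ) (N : ℕ) : ℝ :=
  ∑ i ∈ Finset.range (N + 1), (N.choose i : ℝ) * 2 ^ i * m i

theorem one_le_ES {m : ℕ → ℝ} (h1 : m 0 = 1) (h0 : ∀ i, 0 ≤ m i) (N : ℕ) : 1 ≤ ES m N := by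
  unfold ES
  have h : (N.choose 0 : ℝ) * 2 ^ 0 * m 0 ≤
      ∑ i ∈ Finset.range (N + 1), (N.choose i : ℝ) * 2 ^ i * m i :=
    Finset.single_le_sum (f := fun i => (N.choose i : ℝ) * 2 ^ i * m i)
      (fun i _ => mul_nonneg (by positivity) (h0 i)) (Finset.mem_range.2 (Nat.succ_pos N))
  simpa [h1] using h

/-- The orbit is mapped to the orbit. -/
theorem th_orbit {M : X →L[ℂ] X} {Θ : X →L[ℂ] Hil} (h : ∀ x, Θ (M x) = shift (Θ x)) (v : X)
    (n : ℕ) (x : ℂ) : Θ (((1 + x • M) ^ n) v) = Fn shift (Θ v) n x := by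
  induction n with
  | zero => simp [Fn]
  | succ n ih =>
    rw [pow_succ']
    change Θ (((1 + x • M) ^ n) v + x • M (((1 + x • M) ^ n) v)) = _
    rw [map_add, map_smul, h, ih]
    rfl

theorem Fn_pow (T : Hil →L[ℂ] Hil) (y : Hil) (n : ℕ) (x : ℂ) :
    Fn T y n x = ((1 + x • T) ^ n) y := by
  induction n with
  | zero => simp [Fn]
  | succ n ih =>
    rw [pow_succ']
    change Fn T y n x + x • T (Fn T y n x) =
      ((1 + x • T) ^ n) y + x • T (((1 + x • T) ^ n) y)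
    rw [ih]

theorem Fn_bound {T : Hil →L[ℂ] Hil} {y : Hil} {m : ℕ → ℝ} {D : ℝ}
    (hm : ∀ i : ℕ, ‖(T ^ i) y‖ ≤ D * m i) (N : ℕ) {x : ℂ} (hx : ‖x‖ ≤ 2) :
    ‖Fn T y N x‖ ≤ D * ES m N := by
  rw [Fn_pow]
  have hc : Commute (x • T) (1 : Hil →L[ℂ] Hil) := Commute.one_right _
  rw [add_comm, hc.add_pow]
  rw [sum_apply]
  refine (norm_sum_le _ _).trans ?_
  unfold ES
  rw [Finset.mul_sum]
  refine Finset.sum_le_sum (fun i _ => ?_)
  rw [one_pow, mul_one, smul_pow]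
  have e : (x ^ i • T ^ i) * ((N.choose i : ℕ) : Hil →L[ℂ] Hil) =
      ((N.choose i : ℂ) * x ^ i) • T ^ i := by
    rw [← nsmul_eq_mul', ← Nat.cast_smul_eq_nsmul ℂ, smul_smul]
  rw [e, smul_apply, norm_smul, norm_mul, norm_pow]
  have : ‖((N.choose i : ℕ) : ℂ)‖ = (N.choose i : ℝ) := by simp
  rw [this]
  calc (N.choose i : ℝ) * ‖x‖ ^ i * ‖(T ^ i) y‖ ≤ (N.choose i : ℝ) * 2 ^ i * (D * m i) := by
        gcongr
        exact hm i
    _ = D * ((N.choose i : ℝ) * 2 ^ i * m i) := by ring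

/-- The model vector is not an eigenvector. -/
theorem not_eigen {M : X →L[ℂ] X} (hM : QN M) {v : X} {φ : X →L[ℂ] ℂ} {Θ : X →L[ℂ] Hil}
    (h1 : ∀ x, Θ (M x) = shift (Θ x)) (y1 : Θ v 1 = 16 * φ (M v)) (hφ : φ (M v) ≠ 0) :
    ∀ c : ℂ, shift (Θ v) ≠ c • Θ v := by
  set y := Θ v with hy
  have y0 : y ≠ 0 := by
    intro h
    rw [h] at y1
    have : (16 : ℂ) * φ (M v) = 0 := y1.symm
    exact hφ (by simpa using this)
  have ny : 0 < ‖y‖ := norm_pos_iff.2 y0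
  have hpow : ∀ j : ℕ, Θ ((M ^ j) v) = (shift ^ j) y := by
    intro j
    induction j with
    | zero => rfl
    | succ j ih =>
      rw [pow_succ', pow_succ']
      change Θ (M ((M ^ j) v)) = shift ((shift ^ j) y)
      rw [h1, ih]
  intro c hc
  rcases eq_or_ne c 0 with h0 | h0
  · rw [h0, zero_smul] at hc
    have h3 : shift y 0 = 0 := by rw [hc]; rfl
    rw [shift_apply, zero_add, y1] at h3
    exact hφ (by simpa using h3)
  · have h4 : ∀ j : ℕ, (shift ^ j) y = c ^ j • y := by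
      intro j
      induction j with
      | zero => simp
      | succ j ih =>
        rw [pow_succ']
        change shift ((shift ^ j) y) = _
        rw [ih, map_smul, hc, smul_smul, pow_succ]
    have hc0 : 0 < ‖c‖ := norm_pos_iff.2 h0
    obtain ⟨C, hC⟩ := hM (2 / ‖c‖) (by positivity)
    have h5 : ∀ j : ℕ, (2 : ℝ) ^ j * ‖y‖ ≤ ‖Θ‖ * ‖v‖ * C := by
      intro j
      have h6 : ‖c‖ ^ j * ‖y‖ ≤ ‖Θ‖ * (‖M ^ j‖ * ‖v‖) := by
        have : ‖c‖ ^ j * ‖y‖ = ‖Θ ((M ^ j) v)‖ := by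
          rw [hpow, h4, norm_smul, norm_pow]
        rw [this]
        refine (Θ.le_opNorm _).trans ?_
        gcongr
        exact (M ^ j).le_opNorm v
      have h7 : (2 : ℝ) ^ j * ‖y‖ = (2 / ‖c‖) ^ j * (‖c‖ ^ j * ‖y‖) := by
        rw [div_pow]
        field_simp
      rw [h7]
      calc (2 / ‖c‖) ^ j * (‖c‖ ^ j * ‖y‖) ≤ (2 / ‖c‖) ^ j * (‖Θ‖ * (‖M ^ j‖ * ‖v‖)) := by
            gcongr
        _ = ‖Θ‖ * ‖v‖ * ((2 / ‖c‖) ^ j * ‖M ^ j‖) := by ring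
        _ ≤ ‖Θ‖ * ‖v‖ * C := by
            gcongr
            exact hC j
    have h8 : Tendsto (fun j : ℕ => (2 : ℝ) ^ j * ‖y‖) atTop atTop :=
      (tendsto_pow_atTop_atTop_of_one_lt one_lt_two).atTop_mul_const ny
    obtain ⟨j, hj⟩ := (h8.eventually (eventually_gt_atTop (‖Θ‖ * ‖v‖ * C))).exists
    exact absurd (h5 j) (not_le.2 hj)

/-- The near returns at time `n`. -/
def Nr (M : X →L[ℂ] X) (v : X) (ε : ℝ) (n : ℕ) : Set ℝ :=
  {t | ∃ l : ℂ, ‖l‖ = 1 ∧ ‖((1 + cis t • M) ^ n) v - l • v‖ < ε}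

/-- The counting property: thickened near returns are rare. -/
def Cnt (M : X →L[ℂ] X) (v : X) (ε : ℝ) (m : ℕ → ℝ) : Prop :=
  ∃ c : ℝ, 0 < c ∧ ∃ K : ℝ, 0 < K ∧ ∀ S : ℕ → Set ℝ, (∀ n, MeasurableSet (S n)) →
      (∀ n, ∀ t ∈ S n, ∃ t' ∈ Nr M v ε n, n * |t - t'| ≤ c) →
      ∀ N : ℕ, ∑ n ∈ Finset.range N, n * volume.real (S n ∩ Ioc 0 (2 * Real.pi)) ≤
          K * (1 + Real.log (ES m N))

/-- **The counting theorem.** -/
theorem countG {M : X →L[ℂ] X} (hM : QN M) {v : X} {φ : X →L[ℂ] ℂ} (hφ : φ (M v) ≠ 0)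
    {Θ : X →L[ℂ] Hil} (h1 : ∀ x, Θ (M x) = shift (Θ x))
    (h2 : ∀ x j, Θ x j = (16 : ℂ) ^ j * φ ((M ^ j) x)) {m : ℕ → ℝ} {D : ℝ}
    (hm : ∀ i : ℕ, ‖(shift ^ i) (Θ v)‖ ≤ D * m i) (m1 : m 0 = 1) (m0 : ∀ i, 0 ≤ m i) :
    ∃ ε : ℝ, 0 < ε ∧ Cnt M v ε m := by
  set y := Θ v with hy
  have y1 : y 1 = 16 * φ (M v) := by
    rw [hy, h2]
    simp
  have y0 : y ≠ 0 := by
    intro h
    rw [h] at y1
    have : (16 : ℂ) * φ (M v) = 0 := y1.symm
    exact hφ (by simpa using this)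
  have ny : 0 < ‖y‖ := norm_pos_iff.2 y0
  have he : ∀ c : ℂ, shift y ≠ c • y := not_eigen hM h1 y1 hφ
  obtain ⟨η, hη, K, hK, hcount⟩ := count shift_norm y0 he
  obtain ⟨c, hc, hmove⟩ := near_move shift_norm y0 hη
  have hD : ‖y‖ ≤ D := by
    have := hm 0
    rw [m1, mul_one] at this
    exact this
  have hD0 : 0 < D := lt_of_lt_of_le ny hD
  set B := Real.log D - Real.log ‖y‖ with hB
  have hB0 : 0 ≤ B := sub_nonneg.2 (Real.log_le_log ny hD)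
  refine ⟨η / 2 / (‖Θ‖ + 1), by positivity, c, hc, K * (1 + B), by positivity, ?_⟩
  intro S hS hnear N
  have hnear' : ∀ n, ∀ t ∈ S n, ∃ l : ℂ, ‖l‖ = 1 ∧ ‖Fn shift y n (cis t) - l • y‖ ≤ η := by
    intro n t ht
    obtain ⟨t', ⟨l, hl, h⟩, hd⟩ := hnear n t ht
    refine ⟨l, hl, hmove n t' t l hl hd ?_⟩
    rw [← th_orbit h1, hy, ← map_smul, ← map_sub]
    calc ‖Θ (((1 + cis t' • M) ^ n) v - l • v)‖ ≤ ‖Θ‖ * (η / 2 / (‖Θ‖ + 1)) :=
          (Θ.le_opNorm _).trans (by gcongr)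
      _ ≤ η / 2 := by
          rw [mul_div_assoc', div_le_iff₀ (by positivity)]
          nlinarith [norm_nonneg Θ]
  have hE := one_le_ES m1 m0 N
  have hL : ∀ x : ℂ, ‖x‖ = 2 → Real.log ‖Fn shift y N x‖ ≤
      Real.log D + Real.log (ES m N) := by
    intro x hx
    rw [← Real.log_mul hD0.ne' (by linarith)]
    refine Real.log_le_log (norm_pos_iff.2 (Fn_ne shift_norm y0 N hx.le)) ?_
    exact Fn_bound hm N hx.le
  refine (hcount S hS hnear' N _ hL).trans ?_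
  have hlog : 0 ≤ Real.log (ES m N) := Real.log_nonneg hE
  have e1 : Real.log D + Real.log (ES m N) - Real.log ‖y‖ =
      B + Real.log (ES m N) := by rw [hB]; ring
  rw [e1, mul_assoc]
  refine mul_le_mul_of_nonneg_left ?_ hK.le
  nlinarith

theorem th_pow {M : X →L[ℂ] X} {Θ : X →L[ℂ] Hil} (h1 : ∀ x, Θ (M x) = shift (Θ x)) (v : X)
    (j : ℕ) : (shift ^ j) (Θ v) = Θ ((M ^ j) v) := by
  induction j with
  | zero => rfl
  | succ j ih =>
    rw [pow_succ', pow_succ']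
    change shift ((shift ^ j) (Θ v)) = Θ (M ((M ^ j) v))
    rw [h1, ih]

/-- The counting theorem with the operator norms. -/
theorem count_norm {M : X →L[ℂ] X} (hM : QN M) {v : X} (hv : M v ≠ 0) :
    ∃ ε : ℝ, 0 < ε ∧ Cnt M v ε (fun i => ‖M ^ i‖) := by
  obtain ⟨φ, hφ⟩ := SeparatingDual.exists_ne_zero (R := ℂ) hv
  obtain ⟨Θ, h1, h2⟩ := model M hM.summable φ
  have : Nontrivial X := ⟨⟨M v, 0, hv⟩⟩
  refine countG hM hφ h1 h2 (D := ‖Θ‖ * ‖v‖) (fun i => ?_) (by simp) (fun i => norm_nonneg _)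
  rw [th_pow h1]
  calc ‖Θ ((M ^ i) v)‖ ≤ ‖Θ‖ * (‖M ^ i‖ * ‖v‖) :=
        (Θ.le_opNorm _).trans (by gcongr; exact (M ^ i).le_opNorm v)
    _ = ‖Θ‖ * ‖v‖ * ‖M ^ i‖ := by ring

/-- The counting theorem with the moments of a functional. -/
theorem count_weak {M : X →L[ℂ] X} (hM : QN M) {v : X} {φ : X →L[ℂ] ℂ} (hφ : φ (M v) ≠ 0)
    {s : ℕ → ℝ} {C : ℝ} (hs : Antitone s) (h0 : ∀ n, 0 ≤ s n) (ht : Tendsto s atTop (𝓝 0))
    (hC : ∀ n, ‖φ ((M ^ n) v)‖ ≤ C * s n ^ n) :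
    ∃ ε : ℝ, 0 < ε ∧ Cnt M v ε (fun i => s i ^ i) := by
  obtain ⟨Θ, h1, h2⟩ := model M hM.summable φ
  have C0 : 0 ≤ C := by
    have := hC 0
    simp only [pow_zero, mul_one] at this
    exact (norm_nonneg _).trans this
  -- the sum
  have hsum : Summable (fun j : ℕ => ((16 * s j) ^ j) ^ 2) := by
    have hg : Summable (fun j : ℕ => ((1 : ℝ) / 4) ^ j) :=
      summable_geometric_of_lt_one (by norm_num) (by norm_num)
    refine summable_of_isBigO_nat hg ?_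
    refine Asymptotics.IsBigO.of_bound 1 ?_
    filter_upwards [ht.eventually (gt_mem_nhds (show (0 : ℝ) < 1 / 32 by norm_num))] with j hj
    have h3 : 0 ≤ 16 * s j := by have := h0 j; positivity
    rw [one_mul, Real.norm_of_nonneg (by positivity), Real.norm_of_nonneg (by positivity),
      ← pow_mul, mul_comm j 2, pow_mul]
    refine pow_le_pow_left₀ (by positivity) ?_ j
    calc (16 * s j) ^ 2 ≤ (1 / 2 : ℝ) ^ 2 := pow_le_pow_left₀ h3 (by linarith) 2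
      _ = 1 / 4 := by norm_num
  set Tt : ℝ := ∑' j : ℕ, ((16 * s j) ^ j) ^ 2 with hTt
  refine countG hM hφ h1 h2 (D := C * Real.sqrt Tt) (fun i => ?_) (by simp)
    (fun i => pow_nonneg (h0 i) i)
  have hb : ‖(shift ^ i) (Θ v)‖ ^ 2 ≤ (C * Real.sqrt Tt * s i ^ i) ^ 2 := by
    rw [th_pow h1, hil_sq]
    have e1 : (C * Real.sqrt Tt * s i ^ i) ^ 2 = ∑' j : ℕ, (C * s i ^ i) ^ 2 *
        ((16 * s j) ^ j) ^ 2 := by
      rw [tsum_mul_left, ← hTt, mul_pow, mul_pow, Real.sq_sqrt (tsum_nonneg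
        (fun j => by positivity))]
      ring
    rw [e1]
    refine (hil_sum _).tsum_le_tsum (fun j => ?_) (hsum.mul_left _)
    rw [← mul_pow]
    refine pow_le_pow_left₀ (norm_nonneg _) ?_ 2
    rw [h2, norm_mul, norm_pow]
    have : ‖(16 : ℂ)‖ = 16 := by norm_num
    rw [this]
    have e2 : (M ^ j) ((M ^ i) v) = (M ^ (j + i)) v := by
      rw [pow_add]
      rfl
    rw [e2]
    have h4 : s (j + i) ^ (j + i) ≤ s j ^ j * s i ^ i := by
      rw [pow_add]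
      exact mul_le_mul (pow_le_pow_left₀ (h0 _) (hs (Nat.le_add_right j i)) j)
        (pow_le_pow_left₀ (h0 _) (hs (Nat.le_add_left i j)) i) (pow_nonneg (h0 _) i)
        (pow_nonneg (h0 _) j)
    calc (16 : ℝ) ^ j * ‖φ ((M ^ (j + i)) v)‖ ≤ 16 ^ j * (C * (s j ^ j * s i ^ i)) := by
          gcongr
          exact (hC _).trans (by gcongr)
      _ = C * s i ^ i * (16 * s j) ^ j := by rw [mul_pow]; ring
  exact le_of_sq_le_sq hb (by have := h0 i; positivity)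

end Pool.Agent.Work.MP_0d53be_an
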