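import Pool.Agent.Work.MP_0d53be_an.Avg

/-!
Hausdorff measure of the set of directions with infinitely many near returns.
-/

set_option autoImplicit false

namespace Pool.Agent.Work.MP_0d53be_an

open MeasureTheory Set Filter Topology

variable {X : Type*} [NormedAddCommGroup X] [NormedSpace ℂ X]

/-- The cell number `k` of the division of the circle in `L` cells. -/
def cell (L k : ℕ) : Set ℝ := Ioc (2 * Real.pi / L * k) (2 * Real.pi / L * (k + 1))

theorem cell_mem {L : ℕ} (hL : 0 < L) {t : ℝ} (ht : t ∈ Ioc 0 (2 * Real.pi)) :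
    ∃ k < L, t ∈ cell L k := by
  have hL' : (0 : ℝ) < L := by exact_mod_cast hL
  have hpi : (0 : ℝ) < 2 * Real.pi := by positivity
  set u : ℝ := t * L / (2 * Real.pi) with hu
  have hu0 : 0 < u := div_pos (mul_pos ht.1 hL') hpi
  have hu1 : u ≤ L := by
    rw [hu, div_le_iff₀ hpi]
    nlinarith [ht.2]
  have hc : 0 < ⌈u⌉₊ := Nat.ceil_pos.2 hu0
  refine ⟨⌈u⌉₊ - 1, ?_, ?_⟩
  · have : ⌈u⌉₊ ≤ L := Nat.ceil_le.2 hu1
    omega
  · have h1 : ((⌈u⌉₊ - 1 : ℕ) : ℝ) = (⌈u⌉₊ : ℝ) - 1 := by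
      rw [Nat.cast_sub hc, Nat.cast_one]
    have h2 : (⌈u⌉₊ : ℝ) < u + 1 := Nat.ceil_lt_add_one hu0.le
    have h3 : u ≤ (⌈u⌉₊ : ℝ) := Nat.le_ceil u
    have h4 : t = 2 * Real.pi / L * u := by
      rw [hu]
      field_simp
    have h5 : 0 < 2 * Real.pi / (L : ℝ) := by positivity
    unfold cell
    rw [h1]
    constructor
    · rw [h4]
      exact mul_lt_mul_of_pos_left (by linarith) h5
    · rw [h4]
      exact mul_le_mul_of_nonneg_left (by linarith) h5.le

theorem cell_sub {L : ℕ} {k : ℕ} (hk : k < L) : cell L k ⊆ Ioc 0 (2 * Real.pi) := by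
  have hL' : (0 : ℝ) < L := by exact_mod_cast (Nat.zero_lt_of_lt hk)
  have h5 : 0 < 2 * Real.pi / (L : ℝ) := by positivity
  intro t ht
  refine ⟨lt_of_le_of_lt (by positivity) ht.1, ht.2.trans ?_⟩
  have h1 : ((k : ℝ) + 1) ≤ L := by exact_mod_cast hk
  calc 2 * Real.pi / L * (k + 1) ≤ 2 * Real.pi / L * L := by gcongr
    _ = 2 * Real.pi := by field_simp

theorem cell_disj (L : ℕ) {k k' : ℕ} (h : k < k') : Disjoint (cell L k) (cell L k') := by
  rw [Set.disjoint_left]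
  intro t h1 h2
  have h5 : 0 ≤ 2 * Real.pi / (L : ℝ) := by positivity
  have h3 : ((k : ℝ) + 1) ≤ k' := by exact_mod_cast h
  have h4 : 2 * Real.pi / (L : ℝ) * (k + 1) ≤ 2 * Real.pi / L * k' := by gcongr
  exact absurd (h1.2.trans h4) (not_le.2 h2.1)

theorem cell_vol (L k : ℕ) : volume.real (cell L k) = 2 * Real.pi / L := by
  unfold cell
  have h5 : 0 ≤ 2 * Real.pi / (L : ℝ) := by positivity
  rw [measureReal_def, Real.volume_Ioc, ENNReal.toReal_ofReal (by nlinarith)]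
  ring

theorem cell_diam (L k : ℕ) : Metric.ediam (cell L k) ≤ ENNReal.ofReal (2 * Real.pi / L) := by
  have h5 : 0 ≤ 2 * Real.pi / (L : ℝ) := by positivity
  have h : cell L k ⊆ Icc (2 * Real.pi / L * k) (2 * Real.pi / L * (k + 1)) := Ioc_subset_Icc_self
  refine (Metric.ediam_mono h).trans ?_
  rw [Real.ediam_Icc]
  refine ENNReal.ofReal_le_ofReal (le_of_eq ?_)
  ring

open scoped Classical in
/-- The cells which contain a near return. -/
noncomputable def Bad (M : X →L[ℂ] X) (v : X) (ε : ℝ) (L : ℕ → ℕ) (n : ℕ) : Finset ℕ :=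
  (Finset.range (L n)).filter (fun k => (cell (L n) k ∩ Nr M v ε n).Nonempty)

theorem mem_Bad {M : X →L[ℂ] X} {v : X} {ε : ℝ} {L : ℕ → ℕ} {n k : ℕ} :
    k ∈ Bad M v ε L n ↔ k < L n ∧ (cell (L n) k ∩ Nr M v ε n).Nonempty := by
  classical
  unfold Bad
  simp only [Finset.mem_filter, Finset.mem_range]

/-- The number of bad cells. -/
theorem cells {M : X →L[ℂ] X} {v : X} {ε : ℝ} {m : ℕ → ℝ} (hcnt : Cnt M v ε m) :
    ∃ c : ℝ, 0 < c ∧ ∃ L : ℕ → ℕ, (∀ n, 0 < L n) ∧
      (∀ n, 1 ≤ n → 2 * Real.pi / L n ≤ c / n) ∧ ∃ K : ℝ, 0 < K ∧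
      ∀ N : ℕ, ∑ n ∈ Finset.Ico 1 N, ((Bad M v ε L n).card : ℝ) ≤
          K * (1 + Real.log (ES m N)) := by
  obtain ⟨c, hc, K, hK, hcount⟩ := hcnt
  have hpi : (0 : ℝ) < 2 * Real.pi := by positivity
  set L : ℕ → ℕ := fun n => ⌈2 * Real.pi * n / c⌉₊ + 1 with hL
  have L0 : ∀ n, 0 < L n := fun n => Nat.succ_pos _
  have L1 : ∀ n, 1 ≤ n → 2 * Real.pi / L n ≤ c / n := by
    intro n hn
    have hn' : (0 : ℝ) < n := by exact_mod_cast hn
    have hLn : (0 : ℝ) < L n := by exact_mod_cast L0 n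
    rw [div_le_div_iff₀ hLn hn']
    have h1 : 2 * Real.pi * n / c ≤ ⌈2 * Real.pi * n / c⌉₊ := Nat.le_ceil _
    have h2 : (L n : ℝ) = ⌈2 * Real.pi * n / c⌉₊ + 1 := by
      rw [hL]
      push_cast
      rfl
    have h3 : 2 * Real.pi * n / c ≤ L n := by rw [h2]; linarith
    rw [div_le_iff₀ hc] at h3
    linarith
  have L2 : ∀ n, 1 ≤ n → 2 * Real.pi / (2 * Real.pi / c + 2) ≤ n * (2 * Real.pi / L n) := by
    intro n hn
    have hn' : (1 : ℝ) ≤ n := by exact_mod_cast hn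
    have hLn : (0 : ℝ) < L n := by exact_mod_cast L0 n
    have h1 : (⌈2 * Real.pi * n / c⌉₊ : ℝ) < 2 * Real.pi * n / c + 1 :=
      Nat.ceil_lt_add_one (by positivity)
    have h2 : (L n : ℝ) = ⌈2 * Real.pi * n / c⌉₊ + 1 := by
      rw [hL]
      push_cast
      rfl
    have h3 : (L n : ℝ) ≤ n * (2 * Real.pi / c + 2) := by
      rw [h2]
      have : (n : ℝ) * (2 * Real.pi / c + 2) = 2 * Real.pi * n / c + 2 * n := by ring
      rw [this]
      linarith
    rw [mul_div_assoc', div_le_div_iff₀ (by positivity) hLn]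
    nlinarith
  set c' : ℝ := 2 * Real.pi / (2 * Real.pi / c + 2) with hc'
  have hc'0 : 0 < c' := by positivity
  refine ⟨c, hc, L, L0, L1, K / c', by positivity, fun N => ?_⟩
  set S : ℕ → Set ℝ := fun n => if n = 0 then ∅ else ⋃ k ∈ Bad M v ε L n, cell (L n) k with hS
  have hSm : ∀ n, MeasurableSet (S n) := by
    intro n
    rw [hS]
    dsimp only
    split_ifs
    · exact MeasurableSet.empty
    · exact Finset.measurableSet_biUnion _ (fun k _ => measurableSet_Ioc)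
  have hSn : ∀ n, ∀ t ∈ S n, ∃ t' ∈ Nr M v ε n, n * |t - t'| ≤ c := by
    intro n t ht
    rcases Nat.eq_zero_or_pos n with h0 | h0
    · rw [hS] at ht
      dsimp only at ht
      rw [if_pos h0] at ht
      exact absurd ht (notMem_empty _)
    · rw [hS] at ht
      dsimp only at ht
      rw [if_neg (by omega)] at ht
      simp only [mem_iUnion] at ht
      obtain ⟨k, hk, htk⟩ := ht
      obtain ⟨t', ht'1, ht'2⟩ := (mem_Bad.1 hk).2
      refine ⟨t', ht'2, ?_⟩
      have hn' : (0 : ℝ) < n := by exact_mod_cast h0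
      have h1 : |t - t'| ≤ 2 * Real.pi / L n := by
        rw [abs_le]
        have a1 := htk.1
        have a2 := htk.2
        have b1 := ht'1.1
        have b2 := ht'1.2
        constructor <;> nlinarith
      have h2 := h1.trans (L1 n h0)
      rw [le_div_iff₀ hn'] at h2
      linarith
  have h1 := hcount S hSm hSn N
  have h2 : ∀ n ∈ Finset.Ico 1 N, c' * ((Bad M v ε L n).card : ℝ) ≤
      n * volume.real (S n ∩ Ioc 0 (2 * Real.pi)) := by
    intro n hn
    have hn1 := (Finset.mem_Ico.1 hn).1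
    have e1 : S n ∩ Ioc 0 (2 * Real.pi) = ⋃ k ∈ Bad M v ε L n, cell (L n) k := by
      rw [hS]
      dsimp only
      rw [if_neg (by omega), inter_eq_left]
      refine iUnion₂_subset (fun k hk => cell_sub ?_)
      exact (mem_Bad.1 hk).1
    have e2 : volume.real (⋃ k ∈ Bad M v ε L n, cell (L n) k) =
        ((Bad M v ε L n).card : ℝ) * (2 * Real.pi / L n) := by
      have hd : Set.PairwiseDisjoint (↑(Bad M v ε L n) : Set ℕ) (cell (L n)) := by
        intro k _ k' _ hkk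
        rcases lt_or_gt_of_ne hkk with h | h
        · exact cell_disj _ h
        · exact (cell_disj _ h).symm
      rw [measureReal_biUnion_finset hd (fun k _ => measurableSet_Ioc)
        (fun k _ => measure_Ioc_lt_top.ne)]
      simp_rw [cell_vol]
      rw [Finset.sum_const, nsmul_eq_mul]
    rw [e1, e2]
    calc c' * ((Bad M v ε L n).card : ℝ) ≤ (n * (2 * Real.pi / L n)) * (Bad M v ε L n).card := by
          gcongr
          exact L2 n hn1
      _ = n * ((Bad M v ε L n).card * (2 * Real.pi / L n)) := by ring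
  have h3 : c' * ∑ n ∈ Finset.Ico 1 N, ((Bad M v ε L n).card : ℝ) ≤
      K * (1 + Real.log (ES m N)) := by
    rw [Finset.mul_sum]
    refine (Finset.sum_le_sum h2).trans (le_trans ?_ h1)
    refine Finset.sum_le_sum_of_subset_of_nonneg ?_ (fun n _ _ => ?_)
    · intro n hn
      exact Finset.mem_range.2 (Finset.mem_Ico.1 hn).2
    · exact mul_nonneg (Nat.cast_nonneg n) measureReal_nonneg
  rw [div_mul_eq_mul_div, le_div_iff₀ hc'0]
  linarith

/-- **Hausdorff measure.** -/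
theorem haus {M : X →L[ℂ] X} {v : X} {ε : ℝ} {m : ℕ → ℝ} (hcnt : Cnt M v ε m)
    (hm1 : m 0 = 1) (hm0 : ∀ n, 0 ≤ m n) {d : ℝ} (hd : 0 < d)
    (hsum : Summable (fun j : ℕ => (1 + Real.log (ES m (4 ^ (j + 1)))) / ((4 : ℝ) ^ j) ^ d)) :
      Measure.hausdorffMeasure d ({t | ∃ᶠ n in atTop, t ∈ Nr M v ε n} ∩ Ioc 0 (2 * Real.pi)) =
        (0 : ENNReal) := by
  obtain ⟨c, hc, L, hL0, hL1, K, hK, hcells⟩ := cells hcnt
  set f : ℕ → ℝ := fun n => ((Bad M v ε L n).card : ℝ) * (2 * Real.pi / L n) ^ d with hf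
  have hpi : (0 : ℝ) < 2 * Real.pi := by positivity
  have f0 : ∀ n, 0 ≤ f n := fun n => by
    have : (0 : ℝ) ≤ 2 * Real.pi / L n := by positivity
    positivity
  -- block sums
  have hblock : ∀ i : ℕ, ∑ n ∈ Finset.Ico (4 ^ i) (4 ^ (i + 1)), f n ≤
      c ^ d * K * ((1 + Real.log (ES m (4 ^ (i + 1)))) / ((4 : ℝ) ^ i) ^ d) := by
    intro i
    have h4 : (1 : ℕ) ≤ 4 ^ i := Nat.one_le_pow _ _ (by norm_num)
    have h4' : (0 : ℝ) < 4 ^ i := by positivity
    have h1 : ∀ n ∈ Finset.Ico (4 ^ i) (4 ^ (i + 1)),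
        f n ≤ ((Bad M v ε L n).card : ℝ) * (c ^ d / ((4 : ℝ) ^ i) ^ d) := by
      intro n hn
      have hn1 := (Finset.mem_Ico.1 hn).1
      have hn2 : (4 : ℝ) ^ i ≤ n := by exact_mod_cast hn1
      refine mul_le_mul_of_nonneg_left ?_ (Nat.cast_nonneg _)
      rw [← Real.div_rpow hc.le h4'.le]
      refine Real.rpow_le_rpow (by positivity) ?_ hd.le
      refine (hL1 n (h4.trans hn1)).trans ?_
      gcongr
    refine (Finset.sum_le_sum h1).trans ?_
    rw [← Finset.sum_mul]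
    have h2 : ∑ n ∈ Finset.Ico (4 ^ i) (4 ^ (i + 1)), ((Bad M v ε L n).card : ℝ) ≤
        K * (1 + Real.log (ES m (4 ^ (i + 1)))) := by
      refine le_trans ?_ (hcells (4 ^ (i + 1)))
      refine Finset.sum_le_sum_of_subset_of_nonneg ?_ (fun n _ _ => Nat.cast_nonneg _)
      exact Finset.Ico_subset_Ico_left h4
    calc (∑ n ∈ Finset.Ico (4 ^ i) (4 ^ (i + 1)), ((Bad M v ε L n).card : ℝ)) *
          (c ^ d / ((4 : ℝ) ^ i) ^ d)
        ≤ (K * (1 + Real.log (ES m (4 ^ (i + 1))))) * (c ^ d / ((4 : ℝ) ^ i) ^ d) := by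
          refine mul_le_mul_of_nonneg_right h2 ?_
          positivity
      _ = c ^ d * K * ((1 + Real.log (ES m (4 ^ (i + 1)))) / ((4 : ℝ) ^ i) ^ d) := by ring
  have hterm : ∀ i : ℕ, 0 ≤ (1 + Real.log (ES m (4 ^ (i + 1)))) / ((4 : ℝ) ^ i) ^ d := by
    intro i
    have := Real.log_nonneg (one_le_ES hm1 hm0 (4 ^ (i + 1)))
    exact div_nonneg (by linarith) (Real.rpow_nonneg (by positivity) d)
  set Tt : ℝ := ∑' i : ℕ, (1 + Real.log (ES m (4 ^ (i + 1)))) / ((4 : ℝ) ^ i) ^ d with hTt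
  have hpart : ∀ i : ℕ, ∑ n ∈ Finset.range (4 ^ i), f n ≤ f 0 + c ^ d * K *
      ∑ j ∈ Finset.range i, (1 + Real.log (ES m (4 ^ (j + 1)))) / ((4 : ℝ) ^ j) ^ d := by
    intro i
    induction i with
    | zero => simp
    | succ i ih =>
      rw [← Finset.sum_range_add_sum_Ico f (Nat.pow_le_pow_right (by norm_num) (Nat.le_succ i)),
        Finset.sum_range_succ, mul_add]
      have := hblock i
      linarith
  have hfs : Summable f := by
    refine summable_of_sum_range_le (c := f 0 + c ^ d * K * Tt) f0 (fun n => ?_)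
    have h1 : ∑ i ∈ Finset.range n, f i ≤ ∑ i ∈ Finset.range (4 ^ n), f i :=
      Finset.sum_le_sum_of_subset_of_nonneg
        (Finset.range_mono (Nat.lt_pow_self (by norm_num)).le) (fun i _ _ => f0 i)
    refine h1.trans ((hpart n).trans ?_)
    have h2 := hsum.sum_le_tsum (Finset.range n) (fun j _ => hterm j)
    have h3 : 0 ≤ c ^ d * K := by positivity
    have h4 := mul_le_mul_of_nonneg_left h2 h3
    linarith
  -- coverings
  have key := Measure.hausdorffMeasure_le_liminf_tsum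
    (ι := fun N : ℕ => (Σ n : ℕ, {k // k ∈ Bad M v ε L (n + (N + 1))})) d
    ({t | ∃ᶠ n in atTop, t ∈ Nr M v ε n} ∩ Ioc 0 (2 * Real.pi)) (l := atTop)
    (fun N : ℕ => ENNReal.ofReal (c / ((N : ℝ) + 1)))
    (by
      rw [← ENNReal.ofReal_zero]
      refine (ENNReal.continuous_ofReal.tendsto 0).comp ?_
      exact tendsto_const_div_atTop_nhds_zero_nat c |>.comp (tendsto_add_atTop_nat 1) |>.congr
        (fun n => by simp))
    (fun N p => cell (L (p.1 + (N + 1))) p.2.1)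
    (Eventually.of_forall (fun N p => by
      refine (cell_diam _ _).trans (ENNReal.ofReal_le_ofReal ?_)
      refine (hL1 _ (by omega)).trans ?_
      gcongr
      push_cast
      have : (0 : ℝ) ≤ (p.1 : ℝ) := Nat.cast_nonneg _
      linarith))
    (Eventually.of_forall (fun N => by
      rintro t ⟨ht1, ht2⟩
      obtain ⟨n, hn1, hn2⟩ := (frequently_atTop.1 ht1) (N + 1)
      obtain ⟨k, hk1, hk2⟩ := cell_mem (hL0 n) ht2
      obtain ⟨j, rfl⟩ : ∃ j, n = j + (N + 1) := ⟨n - (N + 1), by omega⟩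
      refine mem_iUnion.2 ⟨⟨j, ⟨k, ?_⟩⟩, hk2⟩
      exact mem_Bad.2 ⟨hk1, ⟨t, hk2, hn2⟩⟩))
  have hlim : Tendsto (fun N : ℕ => ∑' p : (Σ n : ℕ, {k // k ∈ Bad M v ε L (n + (N + 1))}),
      Metric.ediam (cell (L (p.1 + (N + 1))) p.2.1) ^ d) atTop (𝓝 0) := by
    have h1 : Tendsto (fun N : ℕ => ∑' n : ℕ, ENNReal.ofReal (f (n + (N + 1)))) atTop (𝓝 0) := by
      have h2 := ENNReal.tendsto_sum_nat_add (fun n => ENNReal.ofReal (f n))
        hfs.tsum_ofReal_ne_top
      exact h2.comp (tendsto_add_atTop_nat 1)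
    refine tendsto_of_tendsto_of_tendsto_of_le_of_le tendsto_const_nhds h1 (fun N => bot_le)
      (fun N => ?_)
    rw [ENNReal.tsum_sigma']
    refine ENNReal.tsum_le_tsum (fun n => ?_)
    rw [tsum_fintype]
    have h3 : ∀ k : {k // k ∈ Bad M v ε L (n + (N + 1))},
        Metric.ediam (cell (L (n + (N + 1))) k.1) ^ d ≤
          ENNReal.ofReal ((2 * Real.pi / L (n + (N + 1))) ^ d) := by
      intro k
      rw [← ENNReal.ofReal_rpow_of_nonneg (by positivity) hd.le]
      exact ENNReal.rpow_le_rpow (cell_diam _ _) hd.le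
    refine (Finset.sum_le_sum (fun k _ => h3 k)).trans (le_of_eq ?_)
    rw [Finset.sum_const, nsmul_eq_mul, hf]
    dsimp only
    rw [ENNReal.ofReal_mul (Nat.cast_nonneg _), ENNReal.ofReal_natCast, Finset.card_univ,
      Fintype.card_coe]
  rw [hlim.liminf_eq] at key
  exact le_antisymm key bot_le

end Pool.Agent.Work.MP_0d53be_an
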