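import Pool.Agent.Work.MP_0d53be_an.Cnt

/-!
Summation over blocks.
-/

set_option autoImplicit false

namespace Pool.Agent.Work.MP_0d53be_an

open MeasureTheory Set Filter Topology

variable {m : ℕ → ℝ}

theorem ES_le {s : ℕ → ℝ} (hs : Antitone s) (h0 : ∀ n, 0 ≤ s n)
    (hm0 : ∀ n, 0 ≤ m n) (hM : ∀ n, m n ≤ s n ^ n) (N K : ℕ) :
    ES m N ≤ (K + 1) * (1 + 2 * N * s 0) ^ K + Real.exp (2 * N * s K) := by
  have hb : (0 : ℝ) ≤ 2 * N * s 0 := mul_nonneg (by positivity) (h0 0)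
  have term : ∀ i ∈ Finset.range (N + 1), (N.choose i : ℝ) * 2 ^ i * m i ≤
      (if i ≤ K then (1 + 2 * N * s 0) ^ K else 0) + (2 * s K) ^ i * 1 ^ (N - i) * N.choose i := by
    intro i _
    rcases le_or_gt i K with hi | hi
    · rw [if_pos hi]
      have h1 : (N.choose i : ℝ) * 2 ^ i * m i ≤ (1 + 2 * N * s 0) ^ K := by
        calc (N.choose i : ℝ) * 2 ^ i * m i ≤ (N : ℝ) ^ i * 2 ^ i * s 0 ^ i := by
              have c1 : (N.choose i : ℝ) ≤ (N : ℝ) ^ i := by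
                exact_mod_cast Nat.choose_le_pow N i
              have c2 : m i ≤ s 0 ^ i :=
                (hM i).trans (pow_le_pow_left₀ (h0 i) (hs (Nat.zero_le i)) i)
              exact mul_le_mul (mul_le_mul_of_nonneg_right c1 (by positivity)) c2 (hm0 i)
                (by positivity)
          _ = (2 * N * s 0) ^ i := by rw [mul_pow, mul_pow]; ring
          _ ≤ (1 + 2 * N * s 0) ^ i := by
              gcongr
              linarith
          _ ≤ (1 + 2 * N * s 0) ^ K := pow_le_pow_right₀ (by linarith) hi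
      have h2 : 0 ≤ (2 * s K) ^ i * 1 ^ (N - i) * (N.choose i : ℝ) := by
        have := h0 K
        positivity
      linarith
    · rw [if_neg (by omega), zero_add, one_pow, mul_one]
      have c2 : m i ≤ s K ^ i := (hM i).trans (pow_le_pow_left₀ (h0 i) (hs hi.le) i)
      calc (N.choose i : ℝ) * 2 ^ i * m i ≤ (N.choose i : ℝ) * 2 ^ i * s K ^ i := by gcongr
        _ = (2 * s K) ^ i * N.choose i := by rw [mul_pow]; ring
  unfold ES
  refine (Finset.sum_le_sum term).trans ?_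
  rw [Finset.sum_add_distrib, ← add_pow]
  have h1 : ∑ i ∈ Finset.range (N + 1), (if i ≤ K then (1 + 2 * N * s 0) ^ K else 0) ≤
      (K + 1) * (1 + 2 * N * s 0) ^ K := by
    rw [← Finset.sum_filter]
    rw [Finset.sum_const, nsmul_eq_mul]
    refine mul_le_mul_of_nonneg_right ?_ (by positivity)
    have : (Finset.filter (fun i => i ≤ K) (Finset.range (N + 1))).card ≤ K + 1 := by
      calc (Finset.filter (fun i => i ≤ K) (Finset.range (N + 1))).card
          ≤ (Finset.range (K + 1)).card := Finset.card_le_card (by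
            intro i hi
            rw [Finset.mem_filter] at hi
            rw [Finset.mem_range]
            omega)
        _ = K + 1 := Finset.card_range _
    exact_mod_cast this
  have h2 : (2 * s K + 1) ^ N ≤ Real.exp (2 * N * s K) := by
    have h3 : 2 * s K + 1 ≤ Real.exp (2 * s K) := Real.add_one_le_exp _
    calc (2 * s K + 1) ^ N ≤ Real.exp (2 * s K) ^ N :=
          pow_le_pow_left₀ (by have := h0 K; linarith) h3 N
      _ = Real.exp (2 * N * s K) := by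
          rw [← Real.exp_nat_mul]
          congr 1
          ring
  exact add_le_add h1 h2

theorem log_ES_le {s : ℕ → ℝ} (hs : Antitone s)
    (h0 : ∀ n, 0 ≤ s n) (hm1 : m 0 = 1) (hm0 : ∀ n, 0 ≤ m n)
    (hM : ∀ n, m n ≤ s n ^ n) (N K : ℕ) :
    Real.log (ES m N) ≤ 1 + K + K * Real.log (1 + 2 * N * s 0) + 2 * N * s K := by
  have hb : (0 : ℝ) ≤ 2 * N * s 0 := mul_nonneg (by positivity) (h0 0)
  have hb2 : (0 : ℝ) ≤ 2 * N * s K := mul_nonneg (by positivity) (h0 K)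
  have hE := ES_le hs h0 hm0 hM N K
  have hE1 := one_le_ES hm1 hm0 N
  set a : ℝ := (K + 1) * (1 + 2 * N * s 0) ^ K with ha
  set b : ℝ := Real.exp (2 * N * s K) with hb'
  have h1 : 1 ≤ (1 + 2 * N * s 0) ^ K := one_le_pow₀ (by linarith)
  have ha1 : 1 ≤ a := by
    have : (1 : ℝ) ≤ K + 1 := by
      have := (Nat.cast_nonneg K : (0 : ℝ) ≤ K)
      linarith
    calc (1 : ℝ) = 1 * 1 := by ring
      _ ≤ a := by rw [ha]; gcongr
  have hb1 : 1 ≤ b := Real.one_le_exp hb2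
  have h2 : a + b ≤ 2 * (a * b) := by nlinarith
  have h3 : Real.log (ES m N) ≤ Real.log (2 * (a * b)) :=
    Real.log_le_log (by linarith) (hE.trans h2)
  refine h3.trans ?_
  rw [Real.log_mul (by norm_num) (by positivity), Real.log_mul (by positivity) (by positivity),
    ha, Real.log_mul (by positivity) (by positivity), Real.log_pow, hb', Real.log_exp]
  have h4 : Real.log 2 ≤ 1 := by
    have := Real.log_two_lt_d9
    linarith
  have h5 : Real.log ((K : ℝ) + 1) ≤ K := by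
    have := Real.log_le_sub_one_of_pos (show (0 : ℝ) < K + 1 by positivity)
    linarith
  linarith

theorem log_block {s : ℕ → ℝ} (hs : Antitone s)
    (h0 : ∀ n, 0 ≤ s n) (hm1 : m 0 = 1) (hm0 : ∀ n, 0 ≤ m n)
    (hM : ∀ n, m n ≤ s n ^ n) (j N K : ℕ)
    (hN : (N : ℝ) = 4 * 4 ^ j) (hK : (K : ℝ) = 2 ^ j) :
    1 + Real.log (ES m N) ≤ (4 + 2 * s 0) * 2 ^ j + 2 * (j * 2 ^ j) + 2 + 8 * s K * 4 ^ j := by
  have h1 := log_ES_le hs h0 hm1 hm0 hM N K
  rw [hN, hK] at h1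
  have hs0 := h0 0
  have hl : Real.log (1 + 2 * (4 * (4 : ℝ) ^ j) * s 0) ≤ 2 * (j + 1) + (1 + 2 * s 0) := by
    have h5 : 1 + 2 * (4 * (4 : ℝ) ^ j) * s 0 ≤ (4 * (4 : ℝ) ^ j) * (1 + 2 * s 0) := by
      have : (1 : ℝ) ≤ 4 ^ j := one_le_pow₀ (by norm_num)
      linarith
    have h6 : 0 < 1 + 2 * s 0 := by linarith
    have h7 : (0 : ℝ) < 1 + 2 * (4 * (4 : ℝ) ^ j) * s 0 := by positivity
    refine (Real.log_le_log h7 h5).trans ?_
    rw [Real.log_mul (by positivity) h6.ne', Real.log_mul (by norm_num) (by positivity),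
      Real.log_pow]
    have h8 : Real.log 4 ≤ 2 := by
      have : (4 : ℝ) = 2 ^ 2 := by norm_num
      rw [this, Real.log_pow]
      have := Real.log_two_lt_d9
      push_cast
      linarith
    have h9 : Real.log (1 + 2 * s 0) ≤ 1 + 2 * s 0 :=
      (Real.log_le_sub_one_of_pos h6).trans (by linarith)
    have h13 : (j : ℝ) * Real.log 4 ≤ j * 2 :=
      mul_le_mul_of_nonneg_left h8 (by positivity)
    linarith
  have h10 : (2 : ℝ) ^ j * Real.log (1 + 2 * (4 * (4 : ℝ) ^ j) * s 0) ≤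
      2 ^ j * (2 * (j + 1) + (1 + 2 * s 0)) := mul_le_mul_of_nonneg_left hl (by positivity)
  have h14 : (2 : ℝ) ^ j * (2 * (j + 1) + (1 + 2 * s 0)) =
      (3 + 2 * s 0) * 2 ^ j + 2 * (j * 2 ^ j) := by ring
  rw [h14] at h10
  have h15 : (4 + 2 * s 0) * (2 : ℝ) ^ j = (3 + 2 * s 0) * 2 ^ j + 2 ^ j := by ring
  have h11 : 2 * (4 * (4 : ℝ) ^ j) * s K = 8 * s K * 4 ^ j := by ring
  rw [h11] at h1
  rw [h15]
  linarith

theorem block_summable {s : ℕ → ℝ} (hs : Antitone s)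
    (h0 : ∀ n, 0 ≤ s n) (hm1 : m 0 = 1) (hm0 : ∀ n, 0 ≤ m n)
    (hM : ∀ n, m n ≤ s n ^ n) (hsum : Summable (fun j : ℕ => s (2 ^ j))) :
    Summable (fun j : ℕ => (1 + Real.log (ES m (4 ^ (j + 1)))) / 4 ^ j) := by
  set c : ℝ := 4 + 2 * s 0 with hc
  have hc0 : 0 ≤ c := by have := h0 0; positivity
  have hA : Summable (fun j : ℕ => c * (1 / 2 : ℝ) ^ j) :=
    (summable_geometric_of_lt_one (by norm_num) (by norm_num)).mul_left c
  have hB' : Summable (fun j : ℕ => (j : ℝ) ^ 1 * (1 / 2 : ℝ) ^ j) :=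
    summable_pow_mul_geometric_of_norm_lt_one (R := ℝ) 1 (r := 1 / 2) (by norm_num)
  have hB : Summable (fun j : ℕ => 2 * ((j : ℝ) ^ 1 * (1 / 2 : ℝ) ^ j)) := hB'.mul_left 2
  have hC : Summable (fun j : ℕ => 2 * (1 / 4 : ℝ) ^ j) :=
    (summable_geometric_of_lt_one (by norm_num) (by norm_num)).mul_left 2
  have hD : Summable (fun j : ℕ => 8 * s (2 ^ j)) := hsum.mul_left 8
  have hT : Summable (fun j : ℕ => c * (1 / 2 : ℝ) ^ j + 2 * ((j : ℝ) ^ 1 * (1 / 2 : ℝ) ^ j) +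
      2 * (1 / 4 : ℝ) ^ j + 8 * s (2 ^ j)) := ((hA.add hB).add hC).add hD
  have key : ∀ j : ℕ, (1 + Real.log (ES m (4 ^ (j + 1)))) / 4 ^ j ≤
      c * (1 / 2 : ℝ) ^ j + 2 * ((j : ℝ) ^ 1 * (1 / 2 : ℝ) ^ j) + 2 * (1 / 4 : ℝ) ^ j +
        8 * s (2 ^ j) := by
    intro j
    have hN : ((4 ^ (j + 1) : ℕ) : ℝ) = 4 * 4 ^ j := by
      rw [Nat.cast_pow, pow_succ]
      push_cast
      ring
    have hK : ((2 ^ j : ℕ) : ℝ) = 2 ^ j := by
      rw [Nat.cast_pow]
      push_cast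
      rfl
    have h1 := log_block hs h0 hm1 hm0 hM j _ _ hN hK
    generalize 1 + Real.log (ES m (4 ^ (j + 1))) = z at h1 ⊢
    generalize s (2 ^ j) = y at h1 ⊢
    have h4 : (0 : ℝ) < 4 ^ j := by positivity
    rw [div_le_iff₀ h4]
    have e1 : (1 / 4 : ℝ) ^ j * 4 ^ j = 1 := by rw [← mul_pow]; norm_num
    have e2 : (1 / 2 : ℝ) ^ j * 4 ^ j = 2 ^ j := by rw [← mul_pow]; norm_num
    have e3 : (c * (1 / 2) ^ j + 2 * ((j : ℝ) ^ 1 * (1 / 2) ^ j) + 2 * (1 / 4) ^ j +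
        8 * y) * 4 ^ j = c * 2 ^ j + 2 * (j * 2 ^ j) + 2 + 8 * y * 4 ^ j := by
      linear_combination (c + 2 * j) * e2 + 2 * e1
    rw [e3]
    exact h1
  have nn : ∀ j : ℕ, 0 ≤ (1 + Real.log (ES m (4 ^ (j + 1)))) / 4 ^ j := by
    intro j
    have := Real.log_nonneg (one_le_ES hm1 hm0 (4 ^ (j + 1)))
    exact div_nonneg (by linarith) (pow_nonneg (by norm_num) j)
  exact Summable.of_nonneg_of_le nn key hT

theorem condensed {s : ℕ → ℝ} (hs : Antitone s) (h0 : ∀ n, 0 ≤ s n)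
    (hsum : Summable (fun n : ℕ => s n / n)) : Summable (fun m : ℕ => s (2 ^ m)) := by
  have h := (summable_condensed_iff_of_nonneg (f := fun n : ℕ => s n / n)
    (fun n => div_nonneg (h0 n) (Nat.cast_nonneg n)) (fun m n hm hmn => by
      have hm' : (0 : ℝ) < m := by exact_mod_cast hm
      have hmn' : (m : ℝ) ≤ n := by exact_mod_cast hmn
      exact div_le_div₀ (h0 m) (hs hmn) hm' hmn')).2 hsum
  refine h.congr (fun m => ?_)
  have : (2 : ℝ) ^ m ≠ 0 := by positivity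
  push_cast
  field_simp

theorem tendsto_zero {s : ℕ → ℝ} (hs : Antitone s) (h0 : ∀ n, 0 ≤ s n)
    (hsum : Summable (fun m : ℕ => s (2 ^ m))) : Tendsto s atTop (𝓝 0) := by
  have h1 := hsum.tendsto_atTop_zero
  rw [Metric.tendsto_atTop] at h1 ⊢
  intro ε hε
  obtain ⟨m, hm⟩ := h1 ε hε
  refine ⟨2 ^ m, fun n hn => ?_⟩
  have h2 := hm m le_rfl
  rw [Real.dist_eq, sub_zero, abs_of_nonneg (h0 _)] at h2 ⊢
  exact lt_of_le_of_lt (hs hn) h2

theorem QN_of {X : Type*} [NormedAddCommGroup X] [NormedSpace ℂ X] {M : X →L[ℂ] X} {s : ℕ → ℝ} (h0 : ∀ n, 0 ≤ s n)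
    (hM : ∀ n, ‖M ^ n‖ ≤ s n ^ n) (ht : Tendsto s atTop (𝓝 0)) : QN M := by
  intro r hr
  obtain ⟨J, hJ⟩ := (ht.eventually (gt_mem_nhds (show (0 : ℝ) < 1 / r by positivity))).exists_forall_of_atTop
  refine ⟨1 + ∑ j ∈ Finset.range J, r ^ j * ‖M ^ j‖, fun j => ?_⟩
  rcases lt_or_ge j J with h | h
  · have := Finset.single_le_sum (f := fun j => r ^ j * ‖M ^ j‖)
      (fun i _ => by positivity) (Finset.mem_range.2 h)
    linarith
  · have h1 : r ^ j * ‖M ^ j‖ ≤ 1 := by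
      calc r ^ j * ‖M ^ j‖ ≤ r ^ j * s j ^ j := by gcongr; exact hM j
        _ = (r * s j) ^ j := (mul_pow _ _ _).symm
        _ ≤ 1 := by
          refine pow_le_one₀ (mul_nonneg hr.le (h0 j)) ?_
          have := (hJ j h).le
          rw [le_div_iff₀ hr] at this
          linarith
    have h2 : 0 ≤ ∑ j ∈ Finset.range J, r ^ j * ‖M ^ j‖ :=
      Finset.sum_nonneg (fun i _ => by positivity)
    linarith

end Pool.Agent.Work.MP_0d53be_an
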