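import Pool.Agent.Work.MP_0d53be_an.Stokes

/-!
Positivity of the curvature for the family `(1 + τ w T) (1 + w T) ^ n y`.
-/

set_option autoImplicit false

namespace Pool.Agent.Work.MP_0d53be_an

open MeasureTheory Set Filter Topology

variable {H : Type*} [NormedAddCommGroup H] [InnerProductSpace ℂ H]

theorem Bf_smul_left (G A B : H) (z : ℂ) :
    Bf G (z • A) B = (starRingEnd ℂ) z * Bf G A B := by
  unfold Bf
  rw [inner_smul_left, inner_smul_left]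
  ring

theorem Bf_smul_right (G A B : H) (z : ℂ) : Bf G A (z • B) = z * Bf G A B := by
  unfold Bf
  rw [inner_smul_right, inner_smul_right]
  ring

theorem Bf_add_left (G A A' B : H) : Bf G (A + A') B = Bf G A B + Bf G A' B := by
  unfold Bf
  rw [inner_add_left, inner_add_left]
  ring

theorem Bf_add_right (G A B B' : H) : Bf G A (B + B') = Bf G A B + Bf G A B' := by
  unfold Bf
  rw [inner_add_right, inner_add_right]
  ring

theorem Bf_self_left (G B : H) : Bf G G B = 0 := by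
  unfold Bf
  rw [nsq]
  ring

theorem Bf_self_right (G A : H) : Bf G A G = 0 := by
  unfold Bf
  rw [nsq]
  ring

theorem Bf_orth (G e : H) (h : inner ℂ G e = 0) : Bf G e e = ((‖e‖ ^ 2 * ‖G‖ ^ 2 : ℝ) : ℂ) := by
  unfold Bf
  rw [h, ← nsq]
  push_cast
  ring

theorem Bf_norm_le (G A B : H) : ‖Bf G A B‖ ≤ 2 * (‖A‖ * ‖B‖ * ‖G‖ ^ 2) := by
  unfold Bf
  refine (norm_sub_le _ _).trans ?_
  have h1 : ‖inner ℂ A B * ((‖G‖ : ℝ) : ℂ) ^ 2‖ ≤ ‖A‖ * ‖B‖ * ‖G‖ ^ 2 := by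
    rw [norm_mul, norm_pow, Complex.norm_real, norm_norm]
    gcongr
    exact norm_inner_le_norm A B
  have h2 : ‖inner ℂ A G * inner ℂ G B‖ ≤ ‖A‖ * ‖B‖ * ‖G‖ ^ 2 := by
    rw [norm_mul]
    calc ‖inner ℂ A G‖ * ‖inner ℂ G B‖ ≤ (‖A‖ * ‖G‖) * (‖G‖ * ‖B‖) := by
          gcongr
          · exact norm_inner_le_norm A G
          · exact norm_inner_le_norm G B
      _ = ‖A‖ * ‖B‖ * ‖G‖ ^ 2 := by ring
  linarith

theorem Bf_self_im (G A : H) : (Bf G A A).im = 0 := by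
  unfold Bf
  rw [← nsq A, ← inner_conj_symm A G, ← Complex.normSq_eq_conj_mul_self]
  have : (((‖A‖ : ℝ) : ℂ) ^ 2 * ((‖G‖ : ℝ) : ℂ) ^ 2) = ((‖A‖ ^ 2 * ‖G‖ ^ 2 : ℝ) : ℂ) := by
    push_cast
    ring
  rw [this, Complex.sub_im, Complex.ofReal_im, Complex.ofReal_im, sub_zero]

theorem Bf_self_re (G A : H) : 0 ≤ (Bf G A A).re := by
  unfold Bf
  rw [← nsq A, ← inner_conj_symm A G, ← Complex.normSq_eq_conj_mul_self]
  have : (((‖A‖ : ℝ) : ℂ) ^ 2 * ((‖G‖ : ℝ) : ℂ) ^ 2) = ((‖A‖ ^ 2 * ‖G‖ ^ 2 : ℝ) : ℂ) := by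
    push_cast
    ring
  rw [this, Complex.sub_re, Complex.ofReal_re, Complex.ofReal_re, Complex.normSq_eq_norm_sq]
  have h := norm_inner_le_norm (𝕜 := ℂ) G A
  have h2 : ‖inner ℂ G A‖ ^ 2 ≤ (‖G‖ * ‖A‖) ^ 2 := by gcongr
  nlinarith

variable {T : H →L[ℂ] H}

/-- The part of `T G` orthogonal to `G`. -/
noncomputable def ev (T : H →L[ℂ] H) (G : H) : H := T G - (inner ℂ G (T G) / (‖G‖ : ℂ) ^ 2) • G

theorem inner_ev (T : H →L[ℂ] H) (G : H) : inner ℂ G (ev T G) = 0 := by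
  unfold ev
  rw [inner_sub_right, inner_smul_right, ← nsq]
  rcases eq_or_ne G 0 with h | h
  · simp [h]
  · have : ((‖G‖ : ℝ) : ℂ) ^ 2 ≠ 0 := pow_ne_zero 2 (by exact_mod_cast norm_ne_zero_iff.2 h)
    rw [div_mul_cancel₀ _ this, sub_self]

theorem norm_coef (hT : ‖T‖ ≤ 1 / 16) (G : H) :
    ‖inner ℂ G (T G) / (‖G‖ : ℂ) ^ 2‖ ≤ 1 / 16 := by
  rcases eq_or_ne G 0 with h | h
  · simp [h]
  · have h0 : 0 < ‖G‖ := norm_pos_iff.2 h
    rw [norm_div, norm_pow, Complex.norm_real, norm_norm, div_le_iff₀ (by positivity)]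
    calc ‖inner ℂ G (T G)‖ ≤ ‖G‖ * ‖T G‖ := norm_inner_le_norm _ _
      _ ≤ ‖G‖ * (‖T‖ * ‖G‖) := by gcongr; exact T.le_opNorm G
      _ ≤ ‖G‖ * (1 / 16 * ‖G‖) := by gcongr
      _ = 1 / 16 * ‖G‖ ^ 2 := by ring

/-- The shifted vector. -/
theorem shift_aux (hT : ‖T‖ ≤ 1 / 16) {G U : H} {p : ℂ} (hp : ‖p‖ ≤ 1) (hG : G = U + p • T U)
    (c : ℂ) :
    ‖(T U - c • U) - (T G - c • G)‖ ≤ 1 / 15 * ‖T G - c • G‖ ∧
      (T U - c • U) + c • G = (1 + p * c) • T U := by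
  constructor
  · set a := T U - c • U with ha
    have e : T G - c • G = a + p • T a := by
      rw [hG, ha]
      simp only [map_add, map_sub, map_smul, smul_add, smul_sub]
      rw [smul_comm c p]
      abel
    have h1 : ‖p • T a‖ ≤ 1 / 16 * ‖a‖ := by
      rw [norm_smul]
      calc ‖p‖ * ‖T a‖ ≤ 1 * (‖T‖ * ‖a‖) := by gcongr; exact T.le_opNorm a
        _ ≤ 1 / 16 * ‖a‖ := by rw [one_mul]; gcongr
    have h2 : ‖a‖ ≤ ‖T G - c • G‖ + ‖p • T a‖ := by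
      have : a = (T G - c • G) - p • T a := by rw [e]; abel
      calc ‖a‖ = ‖(T G - c • G) - p • T a‖ := by rw [← this]
        _ ≤ _ := norm_sub_le _ _
    have h3 : a - (T G - c • G) = -(p • T a) := by rw [e]; abel
    rw [h3, norm_neg]
    linarith
  · rw [hG]
    simp only [smul_add, add_smul, one_smul, mul_smul]
    rw [smul_comm p c]
    abel

/-- **Positivity.** -/
theorem key_pos (hT : ‖T‖ ≤ 1 / 16) {G U V : H} {p q : ℂ} (hp : ‖p‖ ≤ 1) (hq : ‖q‖ ≤ 1)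
    (hU : G = U + p • T U) (hV : G = V + q • T V) :
    1 / 2 * (‖ev T G‖ ^ 2 * ‖G‖ ^ 2) ≤ (Bf G (T U) (T V)).re := by
  set c := inner ℂ G (T G) / (‖G‖ : ℂ) ^ 2 with hcdef
  have hc : ‖c‖ ≤ 1 / 16 := norm_coef hT G
  obtain ⟨a1, a2⟩ := shift_aux hT hp hU c
  obtain ⟨b1, b2⟩ := shift_aux hT hq hV c
  have he : T G - c • G = ev T G := rfl
  rw [he] at a1 b1
  set e := ev T G with hedef
  set a := T U - c • U with hadef
  set b := T V - c • V with hbdef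
  set E := ‖e‖ ^ 2 * ‖G‖ ^ 2 with hE
  have hE0 : 0 ≤ E := by positivity
  have hY : ‖Bf G a b - (E : ℂ)‖ ≤ 62 / 225 * E := by
    have e1 : a = e + (a - e) := by abel
    have e2 : b = e + (b - e) := by abel
    have e3 : Bf G a b - (E : ℂ) = Bf G e (b - e) + Bf G (a - e) e + Bf G (a - e) (b - e) := by
      have : Bf G e e = (E : ℂ) := Bf_orth G e (inner_ev T G)
      rw [← this]
      conv_lhs => rw [e1, e2]
      rw [Bf_add_left, Bf_add_right, Bf_add_right]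
      ring
    rw [e3]
    have n0 : 0 ≤ ‖e‖ := norm_nonneg e
    have n1 : ‖Bf G e (b - e)‖ ≤ 2 * (‖e‖ * (1 / 15 * ‖e‖) * ‖G‖ ^ 2) :=
      (Bf_norm_le _ _ _).trans (by gcongr)
    have n2 : ‖Bf G (a - e) e‖ ≤ 2 * ((1 / 15 * ‖e‖) * ‖e‖ * ‖G‖ ^ 2) :=
      (Bf_norm_le _ _ _).trans (by gcongr)
    have n3 : ‖Bf G (a - e) (b - e)‖ ≤ 2 * ((1 / 15 * ‖e‖) * (1 / 15 * ‖e‖) * ‖G‖ ^ 2) :=
      (Bf_norm_le _ _ _).trans (by gcongr)
    calc ‖Bf G e (b - e) + Bf G (a - e) e + Bf G (a - e) (b - e)‖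
        ≤ ‖Bf G e (b - e)‖ + ‖Bf G (a - e) e‖ + ‖Bf G (a - e) (b - e)‖ := norm_add₃_le
      _ ≤ 2 * (‖e‖ * (1 / 15 * ‖e‖) * ‖G‖ ^ 2) + 2 * ((1 / 15 * ‖e‖) * ‖e‖ * ‖G‖ ^ 2) +
          2 * ((1 / 15 * ‖e‖) * (1 / 15 * ‖e‖) * ‖G‖ ^ 2) := by linarith
      _ = 62 / 225 * E := by rw [hE]; ring
  -- the relation between the two forms
  set X := Bf G (T U) (T V) with hX
  have hrel : (starRingEnd ℂ) (1 + p * c) * (1 + q * c) * X = Bf G a b := by
    have e1 : Bf G ((1 + p * c) • T U) ((1 + q * c) • T V) =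
        (starRingEnd ℂ) (1 + p * c) * ((1 + q * c) * X) := by
      rw [Bf_smul_left, Bf_smul_right]
    have e2 : Bf G (a + c • G) (b + c • G) = Bf G a b := by
      rw [Bf_add_left, Bf_add_right, Bf_smul_left, Bf_smul_right, Bf_self_left, Bf_self_right]
      ring
    rw [← a2, ← b2, e2] at e1
    rw [mul_assoc, ← e1]
  set δ := (starRingEnd ℂ) (1 + p * c) * (1 + q * c) - 1 with hδ
  have hδn : ‖δ‖ ≤ 33 / 256 := by
    have e1 : δ = (starRingEnd ℂ) (p * c) + q * c + (starRingEnd ℂ) (p * c) * (q * c) := by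
      rw [hδ, map_add, map_one]
      ring
    have m1 : ‖(starRingEnd ℂ) (p * c)‖ ≤ 1 / 16 := by
      rw [RCLike.norm_conj, norm_mul]
      calc ‖p‖ * ‖c‖ ≤ 1 * (1 / 16) := by gcongr
        _ = 1 / 16 := by norm_num
    have m2 : ‖q * c‖ ≤ 1 / 16 := by
      rw [norm_mul]
      calc ‖q‖ * ‖c‖ ≤ 1 * (1 / 16) := by gcongr
        _ = 1 / 16 := by norm_num
    rw [e1]
    calc _ ≤ ‖(starRingEnd ℂ) (p * c)‖ + ‖q * c‖ + ‖(starRingEnd ℂ) (p * c) * (q * c)‖ :=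
          norm_add₃_le
      _ ≤ 1 / 16 + 1 / 16 + 1 / 16 * (1 / 16) := by
          have m3 : ‖(starRingEnd ℂ) (p * c) * (q * c)‖ ≤ 1 / 16 * (1 / 16) := by
            rw [norm_mul]
            gcongr
          linarith
      _ = 33 / 256 := by norm_num
  have h1 : (1 + δ) * (X - E) = (Bf G a b - E) - δ * E := by
    rw [← hrel, hδ]
    ring
  have h2 : ‖X - E‖ ≤ 1 / 2 * E := by
    have h3 : (1 - 33 / 256) * ‖X - (E : ℂ)‖ ≤ ‖(1 + δ) * (X - (E : ℂ))‖ := by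
      rw [norm_mul]
      have : 1 - 33 / 256 ≤ ‖1 + δ‖ := by
        have := norm_sub_norm_le (1 : ℂ) (-δ)
        rw [norm_neg, sub_neg_eq_add, norm_one] at this
        linarith
      gcongr
    have h4 : ‖(1 + δ) * (X - (E : ℂ))‖ ≤ 62 / 225 * E + 33 / 256 * E := by
      rw [h1]
      refine (norm_sub_le _ _).trans ?_
      have : ‖δ * (E : ℂ)‖ ≤ 33 / 256 * E := by
        rw [norm_mul, Complex.norm_real, Real.norm_of_nonneg hE0]
        gcongr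
      linarith
    linarith
  have h5 := Complex.abs_re_le_norm (X - (E : ℂ))
  rw [Complex.sub_re, Complex.ofReal_re] at h5
  have := (abs_le.1 h5).1
  linarith

/-- Positivity, in the form in which it is used. -/
theorem im_pos (hT : ‖T‖ ≤ 1 / 16) {G U V : H} {τ : ℝ} {w : ℂ} (h0 : 0 ≤ τ) (h1 : τ ≤ 1)
    (hw : ‖w‖ = 1) (hU : G = U + (τ * w) • T U) (hV : G = V + w • T V) (n : ℕ) :
    n * (‖ev T G‖ ^ 2 * ‖G‖ ^ 2) ≤
      2 * (Bf G (w • T U) (Complex.I • ((n : ℂ) • w • T V + (τ : ℂ) • w • T U))).im := by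
  have hp : ‖(τ * w : ℂ)‖ ≤ 1 := by
    rw [norm_mul, hw, Complex.norm_real, Real.norm_of_nonneg h0]
    linarith
  have key := key_pos hT hp hw.le hU hV
  have e1 : Bf G (w • T U) (Complex.I • ((n : ℂ) • w • T V + (τ : ℂ) • w • T U)) =
      Complex.I * ((n : ℂ) * Bf G (T U) (T V) + (τ : ℂ) * Bf G (T U) (T U)) := by
    rw [Bf_smul_left, Bf_smul_right, Bf_add_right, Bf_smul_right, Bf_smul_right, Bf_smul_right,
      Bf_smul_right]
    have : (starRingEnd ℂ) w * w = 1 := by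
      rw [← Complex.normSq_eq_conj_mul_self, Complex.normSq_eq_norm_sq, hw]
      norm_num
    linear_combination (Complex.I * ((n : ℂ) * Bf G (T U) (T V) +
      (τ : ℂ) * Bf G (T U) (T U))) * this
  rw [e1, Complex.I_mul_im, Complex.add_re, Complex.re_ofReal_mul]
  have e2 : ((n : ℂ) * Bf G (T U) (T V)).re = n * (Bf G (T U) (T V)).re := by
    have : ((n : ℕ) : ℂ) = ((n : ℝ) : ℂ) := by push_cast; rfl
    rw [this, Complex.re_ofReal_mul]
  rw [e2]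
  have k2 := Bf_self_re G (T U)
  have k3 : 0 ≤ τ * (Bf G (T U) (T U)).re := mul_nonneg h0 k2
  have k4 : (n : ℝ) * (1 / 2 * (‖ev T G‖ ^ 2 * ‖G‖ ^ 2)) ≤ n * (Bf G (T U) (T V)).re :=
    mul_le_mul_of_nonneg_left key (Nat.cast_nonneg n)
  linarith

end Pool.Agent.Work.MP_0d53be_an
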