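import Pool.Agent.Work.MP_0d53be_an.Pos

/-!
Jensen's inequality: the total curvature of a holomorphic curve is at most its growth.
-/

set_option autoImplicit false

namespace Pool.Agent.Work.MP_0d53be_an

open MeasureTheory Set Filter Topology

variable {H : Type*} [NormedAddCommGroup H] [InnerProductSpace ℂ H]

/-- The point of the circle with argument `t`. -/
noncomputable def cis (t : ℝ) : ℂ := Complex.exp (t * Complex.I)

theorem cis_norm (t : ℝ) : ‖cis t‖ = 1 := Complex.norm_exp_ofReal_mul_I t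

theorem cis_ne (t : ℝ) : cis t ≠ 0 := Complex.exp_ne_zero _

theorem cis_cont : Continuous cis := by
  unfold cis
  fun_prop

theorem cis_zero : cis 0 = 1 := by simp [cis]

theorem cis_two_pi : cis (2 * Real.pi) = 1 := by
  unfold cis
  push_cast
  exact Complex.exp_two_pi_mul_I

theorem hasDerivAt_cis (t : ℝ) : HasDerivAt cis (Complex.I * cis t) t := by
  have h1 : HasDerivAt (fun t : ℝ => (t : ℂ) * Complex.I) Complex.I t := by
    simpa using (Complex.ofRealCLM.hasDerivAt (x := t)).mul_const Complex.I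
  have h2 := h1.cexp
  exact h2.congr_deriv (by unfold cis; ring)

section

variable {F F' F'' : ℂ → H}

theorem dr (hF : ∀ x, HasDerivAt F (F' x) x) (r t : ℝ) :
    HasDerivAt (fun r : ℝ => F (r * cis t)) (cis t • F' (r * cis t)) r := by
  have h1 : HasDerivAt (fun r : ℝ => (r : ℂ) * cis t) (cis t) r := by
    simpa using (Complex.ofRealCLM.hasDerivAt (x := r)).mul_const (cis t)
  exact HasDerivAt.scomp r (hF _) h1

theorem dt (hF : ∀ x, HasDerivAt F (F' x) x) (r t : ℝ) :
    HasDerivAt (fun t : ℝ => F (r * cis t)) ((Complex.I * r * cis t) • F' (r * cis t)) t := by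
  have h1 : HasDerivAt (fun t : ℝ => (r : ℂ) * cis t) (Complex.I * r * cis t) t := by
    have := (hasDerivAt_cis t).const_mul (r : ℂ)
    exact this.congr_deriv (by ring)
  exact HasDerivAt.scomp t (hF _) h1

theorem grow (hF : ∀ x, HasDerivAt F (F' x) x) (hF' : ∀ x, HasDerivAt F' (F'' x) x)
    (hc : Continuous F'') (h0 : ∀ x, ‖x‖ ≤ 2 → F x ≠ 0) {L : ℝ}
    (hL : ∀ x, ‖x‖ = 2 → Real.log ‖F x‖ ≤ L) :
    0 ≤ (∫ t in (0 : ℝ)..2 * Real.pi, alp (F (cis t)) ((Complex.I * cis t) • F' (cis t))) ∧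
    (∫ t in (0 : ℝ)..2 * Real.pi, alp (F (cis t)) ((Complex.I * cis t) • F' (cis t))) ≤
      4 * Real.pi * (L - Real.log ‖F 0‖) := by
  have cF : Continuous F := continuous_iff_continuousAt.2 fun x => (hF x).continuousAt
  have cF' : Continuous F' := continuous_iff_continuousAt.2 fun x => (hF' x).continuousAt
  set G : ℝ → ℝ → H := fun r t => F (r * cis t) with hG
  set A : ℝ → ℝ → H := fun r t => cis t • F' (r * cis t) with hA
  set B : ℝ → ℝ → H := fun r t => (Complex.I * r * cis t) • F' (r * cis t) with hB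
  set C : ℝ → ℝ → H := fun r t =>
    cis t • ((Complex.I * r * cis t) • F'' (r * cis t)) + (Complex.I * cis t) • F' (r * cis t)
    with hC
  have cc : Continuous (fun p : ℝ × ℝ => (p.1 : ℂ) * cis p.2) :=
    (Complex.continuous_ofReal.comp continuous_fst).mul (cis_cont.comp continuous_snd)
  have cc2 : Continuous (fun p : ℝ × ℝ => cis p.2) := cis_cont.comp continuous_snd
  have cI : Continuous (fun p : ℝ × ℝ => Complex.I * p.1 * cis p.2) :=
    (continuous_const.mul (Complex.continuous_ofReal.comp continuous_fst)).mul cc2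
  have kG : Continuous (fun p : ℝ × ℝ => G p.1 p.2) := cF.comp cc
  have kA : Continuous (fun p : ℝ × ℝ => A p.1 p.2) := cc2.smul (cF'.comp cc)
  have kB : Continuous (fun p : ℝ × ℝ => B p.1 p.2) := cI.smul (cF'.comp cc)
  have kC : Continuous (fun p : ℝ × ℝ => C p.1 p.2) :=
    (cc2.smul (cI.smul (hc.comp cc))).add ((continuous_const.mul cc2).smul (cF'.comp cc))
  have hG0 : ∀ s ∈ Icc (0 : ℝ) 2, ∀ t, G s t ≠ 0 := by
    intro s hs t
    refine h0 _ ?_
    rw [norm_mul, cis_norm, mul_one, Complex.norm_real, Real.norm_of_nonneg hs.1]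
    exact hs.2
  have dG : ∀ s t, HasDerivAt (fun s => G s t) (A s t) s := fun s t => dr hF s t
  have dG' : ∀ s t, HasDerivAt (fun t => G s t) (B s t) t := fun s t => dt hF s t
  have dA : ∀ s t, HasDerivAt (fun t => A s t) (C s t) t := fun s t =>
    (hasDerivAt_cis t).smul (dt hF' s t)
  have dB : ∀ s t, HasDerivAt (fun s => B s t) (C s t) s := by
    intro s t
    have h1 : HasDerivAt (fun r : ℝ => Complex.I * (r : ℂ) * cis t) (Complex.I * cis t) s := by
      have := ((Complex.ofRealCLM.hasDerivAt (x := s)).const_mul Complex.I).mul_const (cis t)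
      simpa using this
    have h2 := h1.smul (dr hF' s t)
    refine h2.congr_deriv ?_
    simp only [hC, smul_smul]
    congr 2
    ring
  have pG : ∀ s, G s (2 * Real.pi) = G s 0 := fun s => by
    simp only [hG, cis_two_pi, cis_zero]
  have pA : ∀ s, A s (2 * Real.pi) = A s 0 := fun s => by
    simp only [hA, cis_two_pi, cis_zero]
  set Φ : ℝ → ℝ := fun r => ∫ t in (0 : ℝ)..2 * Real.pi, alp (G r t) (B r t) with hΦ
  have hBA : ∀ r t, B r t = (Complex.I * r) • A r t := by
    intro r t
    simp only [hB, hA, smul_smul]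
  have mono : ∀ r₁ r₂ : ℝ, 0 ≤ r₁ → r₁ ≤ r₂ → r₂ ≤ 2 → Φ r₁ ≤ Φ r₂ := by
    intro r₁ r₂ h1 h2 h3
    have := stokes h2 kG kA kB kC (fun s hs t => hG0 s ⟨h1.trans hs.1, hs.2.trans h3⟩ t)
      dG dG' dA dB pG pA
    have h4 : 0 ≤ ∫ s in r₁..r₂, ∫ t in (0 : ℝ)..2 * Real.pi,
      2 * (Bf (G s t) (A s t) (B s t)).im / (‖G s t‖ ^ 2) ^ 2 := by
      refine intervalIntegral.integral_nonneg h2 (fun s hs => ?_)
      refine intervalIntegral.integral_nonneg (by positivity) (fun t _ => ?_)
      refine div_nonneg (mul_nonneg (by norm_num) ?_) (by positivity)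
      rw [hBA, Bf_smul_right, mul_assoc, Complex.I_mul_im, Complex.re_ofReal_mul]
      exact mul_nonneg (h1.trans hs.1) (Bf_self_re _ _)
    change 0 ≤ _ at h4
    rw [← this] at h4
    simp only [hΦ]
    linarith
  have Φ0 : Φ 0 = 0 := by
    simp only [hΦ]
    have : ∀ t, alp (G 0 t) (B 0 t) = 0 := by
      intro t
      simp only [hB, alp]
      simp
    simp [this]
  have Φ1 : Φ 1 = ∫ t in (0 : ℝ)..2 * Real.pi, alp (F (cis t)) ((Complex.I * cis t) • F' (cis t)) := by
    simp only [hΦ, hG, hB, Complex.ofReal_one, one_mul, mul_one]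
  rw [← Φ1]
  have Φ1n : 0 ≤ Φ 1 := by
    rw [← Φ0]
    exact mono 0 1 le_rfl zero_le_one one_le_two
  refine ⟨Φ1n, ?_⟩
  -- the logarithmic derivative
  set q : ℝ → ℝ → ℝ := fun r t => (inner ℂ (G r t) (A r t)).re / ‖G r t‖ ^ 2 with hq
  have hrq : ∀ r t, alp (G r t) (B r t) = r * q r t := by
    intro r t
    simp only [alp, hq]
    rw [hBA, inner_smul_right, mul_assoc, Complex.I_mul_im, Complex.re_ofReal_mul]
    ring
  have cq : ContinuousOn (fun p : ℝ × ℝ => q p.1 p.2) (Icc 0 2 ×ˢ univ) := by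
    refine ContinuousOn.div (Continuous.continuousOn ?_) (Continuous.continuousOn ?_) ?_
    · exact Complex.continuous_re.comp (kG.inner kA)
    · exact kG.norm.pow 2
    · exact fun p hp => pow_ne_zero 2 (norm_ne_zero_iff.2 (hG0 p.1 hp.1 p.2))
  have dlog : ∀ r ∈ Icc (0 : ℝ) 2, ∀ t, HasDerivAt (fun r => Real.log ‖G r t‖) (q r t) r := by
    intro r hr t
    have h1 := hasDerivAt_nsq (dG r t)
    have h2 := (h1.log (pow_ne_zero 2 (norm_ne_zero_iff.2 (hG0 r hr t)))).div_const 2
    have e1 : (fun r => Real.log ‖G r t‖) = fun r => Real.log (‖G r t‖ ^ 2) / 2 := by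
      funext r
      rw [Real.log_pow]
      push_cast
      ring
    rw [e1]
    refine h2.congr_deriv ?_
    simp only [hq]
    ring
  have hpi : (0 : ℝ) ≤ 2 * Real.pi := by positivity
  have ftc : ∀ t, Real.log ‖G 2 t‖ - Real.log ‖G 0 t‖ = ∫ r in (0 : ℝ)..2, q r t := by
    intro t
    rw [intervalIntegral.integral_eq_sub_of_hasDerivAt (f := fun r => Real.log ‖G r t‖)]
    · intro r hr
      rw [uIcc_of_le zero_le_two] at hr
      exact dlog r hr t
    · refine ContinuousOn.intervalIntegrable ?_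
      rw [uIcc_of_le zero_le_two]
      exact cq.comp (f := fun s => (s, t)) (Continuous.continuousOn (by fun_prop))
        (fun s hs => ⟨hs, mem_univ _⟩)
  have hup : ∫ t in (0 : ℝ)..2 * Real.pi, (∫ r in (0 : ℝ)..2, q r t) ≤
      2 * Real.pi * (L - Real.log ‖F 0‖) := by
    have e1 : ∀ t, (∫ r in (0 : ℝ)..2, q r t) ≤ L - Real.log ‖F 0‖ := by
      intro t
      rw [← ftc t]
      have e2 : G 0 t = F 0 := by simp [hG]
      rw [e2]
      have := hL ((2 : ℝ) * cis t) (by
        rw [norm_mul, cis_norm, mul_one, Complex.norm_real]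
        norm_num)
      have e3 : G 2 t = F ((2 : ℝ) * cis t) := rfl
      rw [e3]
      linarith
    have ci : IntervalIntegrable (fun t => ∫ r in (0 : ℝ)..2, q r t) volume 0 (2 * Real.pi) := by
      have : (fun t => ∫ r in (0 : ℝ)..2, q r t) =
          fun t => Real.log ‖G 2 t‖ - Real.log ‖G 0 t‖ := by
        funext t
        exact (ftc t).symm
      rw [this]
      refine Continuous.intervalIntegrable ?_ _ _
      refine Continuous.sub ?_ ?_
      · refine Continuous.log ?_ ?_
        · exact (kG.comp (Continuous.prodMk_right (2 : ℝ))).norm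
        · exact fun t => norm_ne_zero_iff.2 (hG0 2 ⟨zero_le_two, le_rfl⟩ t)
      · refine Continuous.log ?_ ?_
        · exact (kG.comp (Continuous.prodMk_right (0 : ℝ))).norm
        · exact fun t => norm_ne_zero_iff.2 (hG0 0 ⟨le_rfl, zero_le_two⟩ t)
    calc ∫ t in (0 : ℝ)..2 * Real.pi, (∫ r in (0 : ℝ)..2, q r t)
        ≤ ∫ t in (0 : ℝ)..2 * Real.pi, (L - Real.log ‖F 0‖) :=
          intervalIntegral.integral_mono_on hpi ci intervalIntegrable_const (fun t _ => e1 t)
      _ = 2 * Real.pi * (L - Real.log ‖F 0‖) := by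
          rw [intervalIntegral.integral_const, smul_eq_mul, sub_zero]
  -- Fubini
  have hi2 : IntegrableOn (fun p : ℝ × ℝ => q p.1 p.2) (Ioc 0 2 ×ˢ Ioc 0 (2 * Real.pi))
      (volume.prod volume) := by
    have hc' : ContinuousOn (fun p : ℝ × ℝ => q p.1 p.2) (Icc 0 2 ×ˢ Icc 0 (2 * Real.pi)) :=
      cq.mono (prod_mono le_rfl (subset_univ _))
    have := hc'.integrableOn_compact (isCompact_Icc.prod isCompact_Icc)
      (μ := (volume : Measure (ℝ × ℝ)))
    exact this.mono_set (prod_mono Ioc_subset_Icc_self Ioc_subset_Icc_self)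
  have hi3 : Integrable (fun p : ℝ × ℝ => q p.1 p.2)
      ((volume.restrict (Ioc 0 2)).prod (volume.restrict (Ioc 0 (2 * Real.pi)))) := by
    rw [Measure.prod_restrict]
    exact hi2
  have hi4 : IntervalIntegrable (fun r => ∫ t in (0 : ℝ)..2 * Real.pi, q r t) volume 0 2 := by
    rw [intervalIntegrable_iff_integrableOn_Ioc_of_le zero_le_two]
    have := hi3.integral_prod_left
    exact this.congr (ae_of_all _ (fun r => (intervalIntegral.integral_of_le hpi).symm))
  have swap : ∫ t in (0 : ℝ)..2 * Real.pi, (∫ r in (0 : ℝ)..2, q r t) =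
      ∫ r in (0 : ℝ)..2, (∫ t in (0 : ℝ)..2 * Real.pi, q r t) := by
    rw [intervalIntegral_intervalIntegral_swap]
    have hc' : ContinuousOn (fun p : ℝ × ℝ => q p.2 p.1) (Icc 0 (2 * Real.pi) ×ˢ Icc 0 2) := by
      refine cq.comp (f := fun p : ℝ × ℝ => (p.2, p.1)) (Continuous.continuousOn (by fun_prop)) ?_
      exact fun p hp => ⟨hp.2, mem_univ _⟩
    have hi := hc'.integrableOn_compact (isCompact_Icc.prod isCompact_Icc) (μ := volume)
    refine IntegrableOn.mono_set hi ?_
    rw [uIoc_of_le hpi, uIoc_of_le zero_le_two]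
    exact prod_mono Ioc_subset_Icc_self Ioc_subset_Icc_self
  have hQ : ∀ r, r * (∫ t in (0 : ℝ)..2 * Real.pi, q r t) = Φ r := by
    intro r
    rw [← intervalIntegral.integral_const_mul]
    simp only [hΦ, hrq]
  have hlow : Φ 1 / 2 ≤ ∫ r in (0 : ℝ)..2, (∫ t in (0 : ℝ)..2 * Real.pi, q r t) := by
    have i1 : IntervalIntegrable (fun r => ∫ t in (0 : ℝ)..2 * Real.pi, q r t) volume 0 1 :=
      hi4.mono_set (by rw [uIcc_of_le zero_le_one, uIcc_of_le zero_le_two]; exact
        Icc_subset_Icc_right one_le_two)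
    have i2 : IntervalIntegrable (fun r => ∫ t in (0 : ℝ)..2 * Real.pi, q r t) volume 1 2 :=
      hi4.mono_set (by rw [uIcc_of_le one_le_two, uIcc_of_le zero_le_two]; exact
        Icc_subset_Icc_left zero_le_one)
    rw [← intervalIntegral.integral_add_adjacent_intervals i1 i2]
    have j1 : 0 ≤ ∫ r in (0 : ℝ)..1, (∫ t in (0 : ℝ)..2 * Real.pi, q r t) := by
      rw [intervalIntegral.integral_of_le zero_le_one]
      refine setIntegral_nonneg measurableSet_Ioc (fun r hr => ?_)
      have h1 := hQ r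
      have h2 : 0 ≤ Φ r := by
        rw [← Φ0]
        exact mono 0 r le_rfl hr.1.le (hr.2.trans one_le_two)
      rw [← h1] at h2
      exact nonneg_of_mul_nonneg_right h2 hr.1
    have j2 : Φ 1 / 2 ≤ ∫ r in (1 : ℝ)..2, (∫ t in (0 : ℝ)..2 * Real.pi, q r t) := by
      have h3 : ∫ r in (1 : ℝ)..2, (Φ 1 / 2) = Φ 1 / 2 := by
        rw [intervalIntegral.integral_const, smul_eq_mul]
        norm_num
      rw [← h3]
      refine intervalIntegral.integral_mono_on one_le_two intervalIntegrable_const i2 ?_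
      intro r hr
      have h1 := hQ r
      have h2 : Φ 1 ≤ Φ r := mono 1 r zero_le_one hr.1 hr.2
      rw [← h1] at h2
      have h5 : 0 < r := lt_of_lt_of_le one_pos hr.1
      by_contra hcon
      push Not at hcon
      have h6 : r * (∫ t in (0 : ℝ)..2 * Real.pi, q r t) < r * (Φ 1 / 2) :=
        mul_lt_mul_of_pos_left hcon h5
      have h7 : r * (Φ 1 / 2) ≤ 2 * (Φ 1 / 2) :=
        mul_le_mul_of_nonneg_right hr.2 (by positivity)
      linarith
    linarith
  rw [← swap] at hlow
  have := hlow.trans hup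
  linarith

end

end Pool.Agent.Work.MP_0d53be_an
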