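import Pool.Agent.Work.MP_0d53be_an.Sum

/-!
Almost no direction has a dense orbit.
-/

set_option autoImplicit false

namespace Pool.Agent.Work.MP_0d53be_an

open MeasureTheory Set Filter Topology

variable {X : Type*} [NormedAddCommGroup X] [NormedSpace ℂ X]

theorem Nr_open (M : X →L[ℂ] X) (v : X) (ε : ℝ) (n : ℕ) : IsOpen (Nr M v ε n) := by
  have : Nr M v ε n = ⋃ l : ℂ, ⋃ _ : ‖l‖ = 1, {t | ‖((1 + cis t • M) ^ n) v - l • v‖ < ε} := by
    ext t
    simp [Nr]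
  rw [this]
  refine isOpen_iUnion (fun l => isOpen_iUnion (fun _ => ?_))
  refine isOpen_lt ?_ continuous_const
  have h1 : Continuous (fun t : ℝ => (1 + cis t • M) ^ n) :=
    (continuous_const.add (cis_cont.smul continuous_const)).pow n
  exact ((h1.clm_apply continuous_const).sub continuous_const).norm

theorem cis_add (t : ℝ) : cis (t + 2 * Real.pi) = cis t := by
  unfold cis
  push_cast
  rw [add_mul, Complex.exp_add, Complex.exp_two_pi_mul_I, mul_one]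

theorem cis_neg (t : ℝ) : cis (-t) = (cis t)⁻¹ := by
  unfold cis
  rw [← Complex.exp_neg]
  congr 1
  push_cast
  ring

theorem Nr_add (M : X →L[ℂ] X) (v : X) (ε : ℝ) (n : ℕ) (t : ℝ) :
    t + 2 * Real.pi ∈ Nr M v ε n ↔ t ∈ Nr M v ε n := by
  simp only [Nr, mem_ofPred_eq, cis_add]

/-- The master inequality. -/
theorem master {M : X →L[ℂ] X} {v : X} {ε : ℝ} {m : ℕ → ℝ} (h : Cnt M v ε m) :
    ∃ K : ℝ, 0 < K ∧ ∀ N : ℕ,
      ∑ n ∈ Finset.range N, n * volume.real (Nr M v ε n ∩ Ioc 0 (2 * Real.pi)) ≤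
          K * (1 + Real.log (ES m N)) := by
  obtain ⟨c, hc, K, hK, h⟩ := h
  refine ⟨K, hK, fun N => h _ (fun n => (Nr_open M v ε n).measurableSet) ?_ N⟩
  intro n t ht
  exact ⟨t, ht, by simpa using hc.le⟩

/-- A periodic set which is null on a period is null. -/
theorem null_of_periodic {B : Set ℝ} (hB : ∀ t, t + 2 * Real.pi ∈ B ↔ t ∈ B)
    (h : volume (B ∩ Ioc 0 (2 * Real.pi)) = 0) : volume B = 0 := by
  have hpi : 0 < 2 * Real.pi := by positivity
  have hk : ∀ (k : ℤ) (t : ℝ), t + k * (2 * Real.pi) ∈ B ↔ t ∈ B := by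
    intro k
    induction k using Int.induction_on with
    | zero => simp
    | succ k ih =>
      intro t
      rw [← ih t]
      push_cast
      rw [show t + ((k : ℝ) + 1) * (2 * Real.pi) = t + k * (2 * Real.pi) + 2 * Real.pi by ring]
      exact hB _
    | pred k ih =>
      intro t
      rw [← ih t, ← hB]
      push_cast
      rw [show t + (-(k : ℝ) - 1) * (2 * Real.pi) + 2 * Real.pi = t + -(k : ℝ) * (2 * Real.pi) by
        ring]
  have hcov : B ⊆ ⋃ k : ℤ, (fun t => t + (k : ℝ) * (2 * Real.pi)) ⁻¹' (B ∩ Ioc 0 (2 * Real.pi)) := by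
    intro t ht
    obtain ⟨k, hk', _⟩ := existsUnique_add_zsmul_mem_Ioc hpi t 0
    refine mem_iUnion.2 ⟨k, ?_⟩
    refine ⟨(hk k t).2 ht, ?_⟩
    simpa using hk'
  refine measure_mono_null hcov ?_
  rw [measure_iUnion_null_iff]
  intro k
  rw [measure_preimage_add_right]
  exact h

/-- Borel–Cantelli. -/
theorem ae_eventually {M : X →L[ℂ] X} {v : X} {ε : ℝ} {m : ℕ → ℝ} (hcnt : Cnt M v ε m)
    (hm1 : m 0 = 1) (hm0 : ∀ n, 0 ≤ m n) {s : ℕ → ℝ} (hs : Antitone s)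
    (h0 : ∀ n, 0 ≤ s n) (hM : ∀ n, m n ≤ s n ^ n) (hsum2 : Summable (fun j : ℕ => s (2 ^ j))) :
    ∀ᵐ t : ℝ, ∀ᶠ n in atTop, t ∉ Nr M v ε n := by
  obtain ⟨K, hK, hmaster⟩ := master hcnt
  set P : Set ℝ := Ioc 0 (2 * Real.pi) with hP
  set B : ℕ → Set ℝ := fun j => ⋃ n ∈ Finset.Ico (4 ^ j) (4 ^ (j + 1)), Nr M v ε n ∩ P with hBdef
  have hfin : ∀ n, volume (Nr M v ε n ∩ P) ≠ ⊤ := fun n =>
    ((measure_mono inter_subset_right).trans_lt measure_Ioc_lt_top).ne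
  have hB : ∀ j, volume (B j) ≤
      ENNReal.ofReal (K * ((1 + Real.log (ES m (4 ^ (j + 1)))) / 4 ^ j)) := by
    intro j
    have h1 : volume (B j) ≤ ∑ n ∈ Finset.Ico (4 ^ j) (4 ^ (j + 1)), volume (Nr M v ε n ∩ P) :=
      measure_biUnion_finset_le _ _
    refine h1.trans ?_
    have h2 : ∑ n ∈ Finset.Ico (4 ^ j) (4 ^ (j + 1)), volume (Nr M v ε n ∩ P) =
        ENNReal.ofReal (∑ n ∈ Finset.Ico (4 ^ j) (4 ^ (j + 1)), volume.real (Nr M v ε n ∩ P)) := by
      rw [ENNReal.ofReal_sum_of_nonneg (fun n _ => measureReal_nonneg)]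
      refine Finset.sum_congr rfl (fun n _ => ?_)
      rw [ofReal_measureReal (hfin n)]
    rw [h2]
    refine ENNReal.ofReal_le_ofReal ?_
    rw [mul_div_assoc', le_div_iff₀ (by positivity), mul_comm, Finset.mul_sum]
    refine le_trans ?_ (hmaster (4 ^ (j + 1)))
    calc ∑ n ∈ Finset.Ico (4 ^ j : ℕ) (4 ^ (j + 1) : ℕ),
          (4 : ℝ) ^ j * volume.real (Nr M v ε n ∩ P)
        ≤ ∑ n ∈ Finset.Ico (4 ^ j : ℕ) (4 ^ (j + 1) : ℕ),
            (n : ℝ) * volume.real (Nr M v ε n ∩ P) := by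
          refine Finset.sum_le_sum (fun n hn => ?_)
          refine mul_le_mul_of_nonneg_right ?_ measureReal_nonneg
          have := (Finset.mem_Ico.1 hn).1
          exact_mod_cast this
      _ ≤ ∑ n ∈ Finset.range (4 ^ (j + 1)), (n : ℝ) * volume.real (Nr M v ε n ∩ P) := by
          refine Finset.sum_le_sum_of_subset_of_nonneg ?_ (fun n _ _ => ?_)
          · intro n hn
            exact Finset.mem_range.2 (Finset.mem_Ico.1 hn).2
          · exact mul_nonneg (Nat.cast_nonneg n) measureReal_nonneg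
  have hBsum : ∑' j, volume (B j) ≠ ⊤ := by
    have h1 := ((block_summable hs h0 hm1 hm0 hM hsum2).mul_left K).tsum_ofReal_ne_top
    exact ne_top_of_le_ne_top h1 (ENNReal.tsum_le_tsum hB)
  have hae := ae_eventually_notMem hBsum
  -- the bad set
  set Bad : Set ℝ := {t | ¬ ∀ᶠ n in atTop, t ∉ Nr M v ε n} with hBad
  have hper : ∀ t, t + 2 * Real.pi ∈ Bad ↔ t ∈ Bad := by
    intro t
    simp only [hBad, mem_ofPred_eq, Nr_add]
  have hnull : volume (Bad ∩ P) = 0 := by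
    rw [ae_iff] at hae
    refine measure_mono_null ?_ hae
    intro t ht
    simp only [mem_ofPred_eq]
    intro hev
    apply ht.1
    obtain ⟨j₀, hj₀⟩ := eventually_atTop.1 hev
    filter_upwards [eventually_ge_atTop (4 ^ j₀)] with n hn hmem
    have hn0 : n ≠ 0 := by
      have : 0 < 4 ^ j₀ := by positivity
      omega
    refine hj₀ (Nat.log 4 n) ((Nat.le_log_iff_pow_le (by norm_num) hn0).2 hn) ?_
    simp only [hBdef, mem_iUnion]
    refine ⟨n, Finset.mem_Ico.2 ⟨Nat.pow_log_le_self 4 hn0, ?_⟩, hmem, ht.2⟩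
    exact Nat.lt_pow_succ_log_self (by norm_num) n
  exact null_of_periodic hper hnull

/-- The orbit of `z + M`. -/
theorem orbit_eq (M : X →L[ℂ] X) (v : X) (t : ℝ) (n : ℕ) :
    (((cis t) • (1 : X →L[ℂ] X) + M) ^ n) v = (cis t) ^ n • (((1 + cis (-t) • M) ^ n) v) := by
  have h : (cis t) • (1 : X →L[ℂ] X) + M = cis t • (1 + cis (-t) • M) := by
    rw [smul_add, smul_smul, cis_neg, mul_inv_cancel₀ (cis_ne t), one_smul]
  rw [h, smul_pow]
  rfl

theorem not_dense_of_eventually [Nontrivial X] {v : X} {x : ℕ → X} {ε : ℝ} (hε : 0 < ε)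
    (h : ∀ᶠ n in atTop, ε ≤ ‖x n - v‖) : ¬ Dense {y | ∃ n : ℕ, 1 ≤ n ∧ y = x n} := by
  intro hd
  obtain ⟨N, hN⟩ := eventually_atTop.1 h
  have hfin : (x '' (Set.Iio N)).Finite := (Set.finite_Iio N).image x
  have : (𝓝[≠] v).NeBot := inferInstance
  have hd2 : Dense ({y | ∃ n : ℕ, 1 ≤ n ∧ y = x n} \ (x '' (Set.Iio N))) :=
    hd.sdiff_finite hfin
  obtain ⟨y, hy1, hy2⟩ := hd2.exists_mem_open Metric.isOpen_ball ⟨v, Metric.mem_ball_self hε⟩
  obtain ⟨⟨n, _, rfl⟩, hn2⟩ := hy1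
  have hnN : N ≤ n := by
    by_contra hcon
    exact hn2 ⟨n, not_le.1 hcon, rfl⟩
  have := hN n hnN
  rw [Metric.mem_ball, dist_eq_norm] at hy2
  linarith

theorem not_dense_of_far [Nontrivial X] {M : X →L[ℂ] X} {v : X} {ε : ℝ} (hε : 0 < ε) {t : ℝ}
    (ht : ∀ᶠ n in atTop, -t ∉ Nr M v ε n) :
    ¬ Dense {y : X | ∃ n : ℕ, 1 ≤ n ∧ y = (((cis t) • (1 : X →L[ℂ] X) + M) ^ n) v} := by
  refine not_dense_of_eventually (v := v) hε ?_
  filter_upwards [ht] with n hn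
  by_contra hcon
  push Not at hcon
  apply hn
  refine ⟨((cis t) ^ n)⁻¹, ?_, ?_⟩
  · rw [norm_inv, norm_pow, cis_norm, one_pow, inv_one]
  · rw [orbit_eq] at hcon
    have hz : (cis t) ^ n ≠ 0 := pow_ne_zero n (cis_ne t)
    have e : ((1 + cis (-t) • M) ^ n) v - ((cis t) ^ n)⁻¹ • v =
        ((cis t) ^ n)⁻¹ • ((cis t) ^ n • (((1 + cis (-t) • M) ^ n) v) - v) := by
      rw [smul_sub, smul_smul, inv_mul_cancel₀ hz, one_smul]
    rw [e, norm_smul, norm_inv, norm_pow, cis_norm, one_pow, inv_one, one_mul]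
    exact hcon

/-- If a functional does not see the orbit, the orbit is not dense. -/
theorem not_dense_of_functional {M : X →L[ℂ] X} {v : X} {φ : X →L[ℂ] ℂ} (hφ : φ ≠ 0)
    (h : ∀ n : ℕ, φ ((M ^ (n + 1)) v) = 0) (t : ℝ) :
    ¬ Dense {y : X | ∃ n : ℕ, 1 ≤ n ∧ y = (((cis t) • (1 : X →L[ℂ] X) + M) ^ n) v} := by
  intro hd
  have h1 : ∀ n k : ℕ, φ ((M ^ k) ((((cis t) • (1 : X →L[ℂ] X) + M) ^ n) v)) =
      (cis t) ^ n * φ ((M ^ k) v) := by
    intro n
    induction n with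
    | zero => intro k; simp
    | succ n ih =>
      intro k
      rw [pow_succ']
      change φ ((M ^ k) (cis t • ((((cis t) • (1 : X →L[ℂ] X) + M) ^ n) v) +
        M ((((cis t) • (1 : X →L[ℂ] X) + M) ^ n) v))) = _
      rw [map_add, map_add, map_smul, map_smul, ih k]
      have e : (M ^ k) (M ((((cis t) • (1 : X →L[ℂ] X) + M) ^ n) v)) =
          (M ^ (k + 1)) ((((cis t) • (1 : X →L[ℂ] X) + M) ^ n) v) := by
        rw [pow_succ]
        rfl
      rw [e, ih (k + 1), h k, mul_zero, add_zero, smul_eq_mul, pow_succ']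
      ring
  have hsurj : Function.Surjective φ := by
    obtain ⟨x, hx⟩ : ∃ x, φ x ≠ 0 := by
      by_contra hcon
      push Not at hcon
      exact hφ (by ext x; simpa using hcon x)
    intro z
    refine ⟨(z / φ x) • x, ?_⟩
    rw [map_smul, smul_eq_mul, div_mul_cancel₀ _ hx]
  have hd2 : Dense (φ '' {y : X | ∃ n : ℕ, 1 ≤ n ∧
      y = (((cis t) • (1 : X →L[ℂ] X) + M) ^ n) v}) :=
    hsurj.denseRange.dense_image φ.continuous hd
  have hcl : φ '' {y : X | ∃ n : ℕ, 1 ≤ n ∧ y = (((cis t) • (1 : X →L[ℂ] X) + M) ^ n) v} ⊆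
      Metric.closedBall 0 ‖φ v‖ := by
    rintro _ ⟨y, ⟨n, _, rfl⟩, rfl⟩
    rw [mem_closedBall_zero_iff]
    have := h1 n 0
    rw [pow_zero] at this
    change φ ((((cis t) • (1 : X →L[ℂ] X) + M) ^ n) v) = (cis t) ^ n * φ v at this
    rw [this, norm_mul, norm_pow, cis_norm, one_pow, one_mul]
  obtain ⟨x, hx⟩ := NormedSpace.exists_lt_norm ℂ ℂ ‖φ v‖
  have h2 := (hd2.closure_eq ▸ (Metric.isClosed_closedBall.closure_subset_iff.2 hcl) :
    (univ : Set ℂ) ⊆ Metric.closedBall 0 ‖φ v‖) (mem_univ x)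
  rw [mem_closedBall_zero_iff] at h2
  linarith

/-- A functional which does see the orbit, with the counting property. -/
theorem weak_count {M : X →L[ℂ] X} (hQ : QN M) {v : X} {φ : X →L[ℂ] ℂ} {s : ℕ → ℝ} {C : ℝ}
    (hs : Antitone s) (h0 : ∀ n, 0 ≤ s n) (ht : Tendsto s atTop (𝓝 0))
    (hC : ∀ n, ‖φ ((M ^ n) v)‖ ≤ C * s n ^ n) {k : ℕ} (hk : φ ((M ^ (k + 1)) v) ≠ 0) :
    ∃ ε : ℝ, 0 < ε ∧ Cnt M v ε (fun i => s i ^ i) := by
  have C0 : 0 ≤ C := by
    have := hC 0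
    simp only [pow_zero, mul_one] at this
    exact (norm_nonneg _).trans this
  refine count_weak (φ := φ.comp (M ^ k)) hQ (s := s) (C := C * s 0 ^ k) ?_ hs h0 ht
    (fun n => ?_)
  · change φ ((M ^ k) (M v)) ≠ 0
    have e : (M ^ k) (M v) = (M ^ (k + 1)) v := by
      rw [pow_succ]
      rfl
    rw [e]
    exact hk
  · change ‖φ ((M ^ k) ((M ^ n) v))‖ ≤ _
    have e : (M ^ k) ((M ^ n) v) = (M ^ (n + k)) v := by
      rw [add_comm, pow_add]
      rfl
    rw [e]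
    refine (hC (n + k)).trans ?_
    have h4 : s (n + k) ^ (n + k) ≤ s n ^ n * s 0 ^ k := by
      rw [pow_add]
      exact mul_le_mul (pow_le_pow_left₀ (h0 _) (hs (Nat.le_add_right n k)) n)
        (pow_le_pow_left₀ (h0 _) (hs (Nat.zero_le _)) k) (pow_nonneg (h0 _) k)
        (pow_nonneg (h0 _) n)
    calc C * s (n + k) ^ (n + k) ≤ C * (s n ^ n * s 0 ^ k) := by gcongr
      _ = C * s 0 ^ k * s n ^ n := by ring

/-- **Main theorem for operators.** -/
theorem operator_main {M : X →L[ℂ] X} (hQ : QN M) {v : X} {φ : X →L[ℂ] ℂ} (hφ : φ ≠ 0)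
    {s : ℕ → ℝ} {C : ℝ} (hs : Antitone s) (h0 : ∀ n, 0 ≤ s n)
    (hC : ∀ n, ‖φ ((M ^ n) v)‖ ≤ C * s n ^ n) (hsum : Summable (fun n : ℕ => s n / n)) :
    ∀ᵐ t : ℝ, ¬ Dense {y : X | ∃ n : ℕ, 1 ≤ n ∧
      y = (((cis t) • (1 : X →L[ℂ] X) + M) ^ n) v} := by
  have : Nontrivial X := by
    by_contra hcon
    rw [not_nontrivial_iff_subsingleton] at hcon
    exact hφ (by ext x; rw [Subsingleton.elim x 0, map_zero]; rfl)
  by_cases hv : ∀ n : ℕ, φ ((M ^ (n + 1)) v) = 0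
  · exact ae_of_all _ (fun t => not_dense_of_functional hφ hv t)
  · push Not at hv
    obtain ⟨k, hk⟩ := hv
    have hsum2 := condensed hs h0 hsum
    obtain ⟨ε, hε, hcnt⟩ := weak_count hQ hs h0 (tendsto_zero hs h0 hsum2) hC hk
    have h := ae_eventually hcnt (by simp) (fun n => pow_nonneg (h0 n) n) hs h0
      (fun n => le_rfl) hsum2
    have h' : ∀ᵐ t : ℝ, ∀ᶠ n in atTop, -t ∉ Nr M v ε n := by
      have hq : Measure.QuasiMeasurePreserving (fun t : ℝ => -t) volume volume :=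
        (Measure.measurePreserving_neg (volume : Measure ℝ)).quasiMeasurePreserving
      exact hq.ae h
    filter_upwards [h'] with t ht
    exact not_dense_of_far hε ht

end Pool.Agent.Work.MP_0d53be_an
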