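import Pool.Agent.Work.MP_0d53be_an.Move

/-!
The model: a quasi-nilpotent operator maps to a small backward shift on `ℓ²`.
-/

set_option autoImplicit false

namespace Pool.Agent.Work.MP_0d53be_an

open MeasureTheory Set Filter Topology

/-- The Hilbert space `ℓ²`. -/
abbrev Hil : Type := lp (fun _ : ℕ => ℂ) 2

theorem hil_sq (f : Hil) : ‖f‖ ^ 2 = ∑' i, ‖f i‖ ^ 2 := by
  have h := lp.norm_rpow_eq_tsum (p := 2) (by norm_num) f
  simpa using h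

theorem hil_sum (f : Hil) : Summable (fun i => ‖f i‖ ^ 2) := by
  have h := (lp.memℓp f).summable (by norm_num)
  simpa using h

theorem memHil {g : ℕ → ℂ} (h : Summable (fun i => ‖g i‖ ^ 2)) : Memℓp g 2 := by
  refine memℓp_gen ?_
  simpa using h

/-- The backward shift, divided by sixteen. -/
noncomputable def shiftLin : Hil →ₗ[ℂ] Hil where
  toFun f := ⟨fun n => (1 / 16 : ℂ) * f (n + 1), memHil (by
    have h := ((summable_nat_add_iff 1).2 (hil_sum f)).mul_left ((1 / 16 : ℝ) ^ 2)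
    refine h.congr (fun n => ?_)
    rw [norm_mul, mul_pow]
    norm_num)⟩
  map_add' f g := by
    ext n
    change (1 / 16 : ℂ) * (f (n + 1) + g (n + 1)) = (1 / 16 : ℂ) * f (n + 1) +
      (1 / 16 : ℂ) * g (n + 1)
    ring
  map_smul' c f := by
    ext n
    change (1 / 16 : ℂ) * (c * f (n + 1)) = c * ((1 / 16 : ℂ) * f (n + 1))
    ring

theorem shiftLin_apply (f : Hil) (n : ℕ) : shiftLin f n = (1 / 16 : ℂ) * f (n + 1) := rfl

theorem shiftLin_bound (f : Hil) : ‖shiftLin f‖ ≤ 1 / 16 * ‖f‖ := by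
  have h : ‖shiftLin f‖ ^ 2 ≤ (1 / 16 * ‖f‖) ^ 2 := by
    rw [hil_sq, mul_pow, hil_sq]
    have e : ∀ i, ‖shiftLin f i‖ ^ 2 = (1 / 16 : ℝ) ^ 2 * ‖f (i + 1)‖ ^ 2 := by
      intro i
      rw [shiftLin_apply, norm_mul, mul_pow]
      norm_num
    simp_rw [e]
    rw [tsum_mul_left]
    have h1 := (hil_sum f).sum_add_tsum_nat_add 1
    have h2 : 0 ≤ ∑ i ∈ Finset.range 1, ‖f i‖ ^ 2 := Finset.sum_nonneg (fun i _ => by positivity)
    have h3 : ∑' i, ‖f (i + 1)‖ ^ 2 ≤ ∑' i, ‖f i‖ ^ 2 := by linarith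
    exact mul_le_mul_of_nonneg_left h3 (by positivity)
  exact le_of_sq_le_sq h (by positivity)

/-- The backward shift, divided by sixteen. -/
noncomputable def shift : Hil →L[ℂ] Hil :=
  shiftLin.mkContinuous (1 / 16) shiftLin_bound

theorem shift_norm : ‖shift‖ ≤ 1 / 16 := shiftLin.mkContinuous_norm_le (by norm_num) _

theorem shift_apply (f : Hil) (n : ℕ) : shift f n = (1 / 16 : ℂ) * f (n + 1) := rfl

variable {X : Type*} [NormedAddCommGroup X] [NormedSpace ℂ X]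

theorem model_sum {M : X →L[ℂ] X} (hM : Summable (fun j : ℕ => (16 ^ j * ‖M ^ j‖) ^ 2))
    (φ : X →L[ℂ] ℂ) (x : X) : Summable (fun j : ℕ => ‖(16 : ℂ) ^ j * φ ((M ^ j) x)‖ ^ 2) := by
  refine Summable.of_nonneg_of_le (fun j => by positivity) (fun j => ?_)
    (hM.mul_left ((‖φ‖ * ‖x‖) ^ 2))
  rw [← mul_pow]
  refine pow_le_pow_left₀ (norm_nonneg _) ?_ 2
  rw [norm_mul, norm_pow]
  have : ‖(16 : ℂ)‖ = 16 := by norm_num
  rw [this]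
  calc (16 : ℝ) ^ j * ‖φ ((M ^ j) x)‖ ≤ 16 ^ j * (‖φ‖ * (‖M ^ j‖ * ‖x‖)) := by
        gcongr
        exact (φ.le_opNorm _).trans (by gcongr; exact (M ^ j).le_opNorm x)
    _ = ‖φ‖ * ‖x‖ * (16 ^ j * ‖M ^ j‖) := by ring

/-- The map to the model. -/
noncomputable def thLin (M : X →L[ℂ] X) (hM : Summable (fun j : ℕ => (16 ^ j * ‖M ^ j‖) ^ 2))
    (φ : X →L[ℂ] ℂ) : X →ₗ[ℂ] Hil where
  toFun x := ⟨fun j => (16 : ℂ) ^ j * φ ((M ^ j) x), memHil (model_sum hM φ x)⟩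
  map_add' x y := by
    ext j
    change (16 : ℂ) ^ j * φ ((M ^ j) (x + y)) =
      (16 : ℂ) ^ j * φ ((M ^ j) x) + (16 : ℂ) ^ j * φ ((M ^ j) y)
    rw [map_add, map_add]
    ring
  map_smul' c x := by
    ext j
    change (16 : ℂ) ^ j * φ ((M ^ j) (c • x)) = c * ((16 : ℂ) ^ j * φ ((M ^ j) x))
    rw [map_smul, map_smul, smul_eq_mul]
    ring

theorem thLin_apply (M : X →L[ℂ] X) (hM : Summable (fun j : ℕ => (16 ^ j * ‖M ^ j‖) ^ 2))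
    (φ : X →L[ℂ] ℂ) (x : X) (j : ℕ) : thLin M hM φ x j = (16 : ℂ) ^ j * φ ((M ^ j) x) := rfl

theorem thLin_bound (M : X →L[ℂ] X) (hM : Summable (fun j : ℕ => (16 ^ j * ‖M ^ j‖) ^ 2))
    (φ : X →L[ℂ] ℂ) (x : X) :
    ‖thLin M hM φ x‖ ≤ (‖φ‖ * Real.sqrt (∑' j : ℕ, (16 ^ j * ‖M ^ j‖) ^ 2)) * ‖x‖ := by
  have h : ‖thLin M hM φ x‖ ^ 2 ≤
      ((‖φ‖ * Real.sqrt (∑' j : ℕ, (16 ^ j * ‖M ^ j‖) ^ 2)) * ‖x‖) ^ 2 := by
    rw [hil_sq]
    have e : ((‖φ‖ * Real.sqrt (∑' j : ℕ, (16 ^ j * ‖M ^ j‖) ^ 2)) * ‖x‖) ^ 2 =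
        ∑' j : ℕ, (‖φ‖ * ‖x‖) ^ 2 * (16 ^ j * ‖M ^ j‖) ^ 2 := by
      rw [tsum_mul_left, mul_pow, mul_pow, Real.sq_sqrt (tsum_nonneg (fun j => by positivity))]
      ring
    rw [e]
    refine (model_sum hM φ x).tsum_le_tsum (fun j => ?_) (hM.mul_left _)
    rw [← mul_pow]
    refine pow_le_pow_left₀ (norm_nonneg _) ?_ 2
    rw [thLin_apply, norm_mul, norm_pow]
    have : ‖(16 : ℂ)‖ = 16 := by norm_num
    rw [this]
    calc (16 : ℝ) ^ j * ‖φ ((M ^ j) x)‖ ≤ 16 ^ j * (‖φ‖ * (‖M ^ j‖ * ‖x‖)) := by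
          gcongr
          exact (φ.le_opNorm _).trans (by gcongr; exact (M ^ j).le_opNorm x)
      _ = ‖φ‖ * ‖x‖ * (16 ^ j * ‖M ^ j‖) := by ring
  exact le_of_sq_le_sq h (by positivity)

/-- **The model.** -/
theorem model (M : X →L[ℂ] X) (hM : Summable (fun j : ℕ => (16 ^ j * ‖M ^ j‖) ^ 2))
    (φ : X →L[ℂ] ℂ) : ∃ Θ : X →L[ℂ] Hil, (∀ x, Θ (M x) = shift (Θ x)) ∧
      ∀ x j, Θ x j = (16 : ℂ) ^ j * φ ((M ^ j) x) := by
  refine ⟨(thLin M hM φ).mkContinuous _ (thLin_bound M hM φ), fun x => ?_, fun x j => rfl⟩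
  ext j
  rw [shift_apply]
  change (16 : ℂ) ^ j * φ ((M ^ j) (M x)) = 1 / 16 * ((16 : ℂ) ^ (j + 1) * φ ((M ^ (j + 1)) x))
  rw [pow_succ M, pow_succ (16 : ℂ)]
  change (16 : ℂ) ^ j * φ ((M ^ j) (M x)) = 1 / 16 * ((16 : ℂ) ^ j * 16 * φ ((M ^ j) (M x)))
  ring

end Pool.Agent.Work.MP_0d53be_an
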