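import Pool.Agent.Work.MP_0d53be_an.Near

/-!
Near returns fill intervals of length `c / n` (Hilbert space model).
-/

set_option autoImplicit false

namespace Pool.Agent.Work.MP_0d53be_an

open MeasureTheory Set Filter Topology

section

variable {H : Type*} [NormedAddCommGroup H] [InnerProductSpace ℂ H]

theorem Dn_norm {T : H →L[ℂ] H} (hT : ‖T‖ ≤ 1 / 16) (y : H) (n : ℕ) {x : ℂ} (hx : ‖x‖ ≤ 2) :
    ‖Dn T y n x‖ ≤ n * ‖Fn T y n x‖ := by
  unfold Dn
  rw [norm_smul]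
  have h1 : ‖((n : ℕ) : ℂ)‖ = n := by simp
  rw [h1]
  rcases Nat.eq_zero_or_pos n with h0 | h0
  · subst h0
    simp
  · obtain ⟨m, rfl⟩ : ∃ m, n = m + 1 := ⟨n - 1, by omega⟩
    refine mul_le_mul_of_nonneg_left ?_ (by positivity)
    rw [Nat.add_sub_cancel]
    have h2 := one_add_lower hT (Fn T y m x) hx
    have h3 : ‖T (Fn T y m x)‖ ≤ 1 / 16 * ‖Fn T y m x‖ :=
      (T.le_opNorm _).trans (by gcongr)
    change ‖T (Fn T y m x)‖ ≤ ‖Fn T y m x + x • T (Fn T y m x)‖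
    have := norm_nonneg (Fn T y m x)
    linarith

theorem Fn_move {T : H →L[ℂ] H} (hT : ‖T‖ ≤ 1 / 16) {y : H} (hy : y ≠ 0) (n : ℕ) {t t' : ℝ}
    (h : n * |t' - t| ≤ 1 / 2) :
    ‖Fn T y n (cis t') - Fn T y n (cis t)‖ ≤ 2 * (n * |t' - t|) * ‖Fn T y n (cis t)‖ := by
  set g : ℝ → H := fun t => Fn T y n (cis t) with hg
  have dg : ∀ t, HasDerivAt g ((Complex.I * cis t) • Dn T y n (cis t)) t := fun t =>
    HasDerivAt.scomp t (Fn_deriv T y n (cis t)) (hasDerivAt_cis t)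
  have hc2 : ∀ t, ‖cis t‖ ≤ 2 := fun t => by rw [cis_norm]; norm_num
  have ng : ∀ t, g t ≠ 0 := fun t => Fn_ne hT hy n (hc2 t)
  have dn : ∀ t, ‖(Complex.I * cis t) • Dn T y n (cis t)‖ ≤ n * ‖g t‖ := by
    intro t
    rw [norm_smul, norm_mul, Complex.norm_I, cis_norm, one_mul, one_mul]
    exact Dn_norm hT y n (hc2 t)
  -- logarithmic derivative
  have dl : ∀ t, HasDerivAt (fun t => Real.log (‖g t‖ ^ 2))
      (2 * (inner ℂ (g t) ((Complex.I * cis t) • Dn T y n (cis t))).re / ‖g t‖ ^ 2) t := fun t =>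
    (hasDerivAt_nsq (dg t)).log (pow_ne_zero 2 (norm_ne_zero_iff.2 (ng t)))
  have bl : ∀ t, ‖2 * (inner ℂ (g t) ((Complex.I * cis t) • Dn T y n (cis t))).re /
      ‖g t‖ ^ 2‖ ≤ 2 * n := by
    intro t
    have h0 : 0 < ‖g t‖ := norm_pos_iff.2 (ng t)
    rw [norm_div, norm_mul, norm_pow, norm_norm, div_le_iff₀ (by positivity), Real.norm_two]
    have h1 : ‖(inner ℂ (g t) ((Complex.I * cis t) • Dn T y n (cis t))).re‖ ≤
        ‖g t‖ * (n * ‖g t‖) := by
      refine (Complex.abs_re_le_norm _).trans ?_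
      refine (norm_inner_le_norm _ _).trans ?_
      gcongr
      exact dn t
    nlinarith
  have key : ∀ r, |r - t| ≤ |t' - t| → ‖g r‖ ≤ 2 * ‖g t‖ := by
    intro r hr
    have h1 := convex_univ.norm_image_sub_le_of_norm_hasDerivWithin_le
      (f := fun t => Real.log (‖g t‖ ^ 2)) (C := 2 * n)
      (fun x _ => (dl x).hasDerivWithinAt) (fun x _ => bl x) (mem_univ t) (mem_univ r)
    rw [Real.norm_eq_abs, Real.norm_eq_abs, Real.log_pow, Real.log_pow] at h1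
    have h2 : Real.log ‖g r‖ - Real.log ‖g t‖ ≤ 1 / 2 := by
      have h3 := (abs_le.1 h1).2
      have h4 : 2 * (n : ℝ) * |r - t| ≤ 1 := by
        have : (n : ℝ) * |r - t| ≤ n * |t' - t| := by gcongr
        linarith
      push_cast at h3
      linarith
    have h5 : 0 < ‖g t‖ := norm_pos_iff.2 (ng t)
    have h6 : 0 < ‖g r‖ := norm_pos_iff.2 (ng r)
    have h7 : Real.log ‖g r‖ ≤ Real.log (2 * ‖g t‖) := by
      rw [Real.log_mul (by norm_num) h5.ne']
      have := Real.log_two_gt_d9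
      linarith
    exact (Real.log_le_log_iff h6 (by positivity)).1 h7
  have h2 := (convex_uIcc t t').norm_image_sub_le_of_norm_hasDerivWithin_le (f := g)
    (C := n * (2 * ‖g t‖)) (fun x _ => (dg x).hasDerivWithinAt) (fun x hx => by
      refine (dn x).trans ?_
      gcongr
      refine key x ?_
      exact abs_sub_left_of_mem_uIcc hx) left_mem_uIcc right_mem_uIcc
  rw [Real.norm_eq_abs] at h2
  calc ‖g t' - g t‖ ≤ n * (2 * ‖g t‖) * |t' - t| := h2
    _ = 2 * (n * |t' - t|) * ‖g t‖ := by ring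

theorem near_move {T : H →L[ℂ] H} (hT : ‖T‖ ≤ 1 / 16) {y : H} (hy : y ≠ 0) {η : ℝ} (hη : 0 < η) :
    ∃ c : ℝ, 0 < c ∧ ∀ n : ℕ, ∀ t t' : ℝ, ∀ l : ℂ, ‖l‖ = 1 → n * |t' - t| ≤ c →
      ‖Fn T y n (cis t) - l • y‖ ≤ η / 2 → ‖Fn T y n (cis t') - l • y‖ ≤ η := by
  have hy0 : 0 < ‖y‖ := norm_pos_iff.2 hy
  refine ⟨min (1 / 2) (η / (4 * (‖y‖ + η))), by positivity, ?_⟩
  intro n t t' l hl hc h
  have h1 := Fn_move hT hy n (hc.trans (min_le_left _ _))
  have h2 : ‖Fn T y n (cis t)‖ ≤ ‖y‖ + η := by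
    have : Fn T y n (cis t) = (Fn T y n (cis t) - l • y) + l • y := by abel
    calc ‖Fn T y n (cis t)‖ = ‖(Fn T y n (cis t) - l • y) + l • y‖ := by rw [← this]
      _ ≤ ‖Fn T y n (cis t) - l • y‖ + ‖l • y‖ := norm_add_le _ _
      _ ≤ η / 2 + ‖y‖ := by rw [norm_smul, hl, one_mul]; linarith
      _ ≤ ‖y‖ + η := by linarith
  have h3 : (n : ℝ) * |t' - t| ≤ η / (4 * (‖y‖ + η)) := hc.trans (min_le_right _ _)
  have h4 : ‖Fn T y n (cis t') - Fn T y n (cis t)‖ ≤ η / 2 := by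
    refine h1.trans ?_
    calc 2 * (n * |t' - t|) * ‖Fn T y n (cis t)‖
        ≤ 2 * (η / (4 * (‖y‖ + η))) * (‖y‖ + η) := by gcongr
      _ = η / 2 := by
        field_simp
        norm_num
  have h5 : Fn T y n (cis t') - l • y =
      (Fn T y n (cis t') - Fn T y n (cis t)) + (Fn T y n (cis t) - l • y) := by abel
  rw [h5]
  refine (norm_add_le _ _).trans ?_
  linarith

end

end Pool.Agent.Work.MP_0d53be_an
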