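import Pool.Agent.Work.MP_0d53be_an.Orb

/-!
Near returns carry curvature; the counting theorem in the Hilbert space model.
-/

set_option autoImplicit false

namespace Pool.Agent.Work.MP_0d53be_an

open MeasureTheory Set Filter Topology

variable {H : Type*} [NormedAddCommGroup H] [InnerProductSpace ℂ H]

/-- The distance from `T y` to the line of `y`. -/
theorem exists_gap {T : H →L[ℂ] H} {y : H} (he : ∀ c : ℂ, T y ≠ c • y) :
    ∃ d : ℝ, 0 < d ∧ ∀ c : ℂ, ‖c‖ ≤ 1 / 16 → d ≤ ‖T y - c • y‖ := by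
  have hc : Continuous (fun c : ℂ => ‖T y - c • y‖) := by fun_prop
  obtain ⟨c₀, _, h2⟩ := (isCompact_closedBall (0 : ℂ) (1 / 16)).exists_isMinOn
    ⟨0, by simp⟩ hc.continuousOn
  refine ⟨‖T y - c₀ • y‖, norm_pos_iff.2 (sub_ne_zero.2 (he c₀)), fun c hc' => ?_⟩
  exact h2 (by simpa using hc')

/-- Near returns carry curvature. -/
theorem near {T : H →L[ℂ] H} (hT : ‖T‖ ≤ 1 / 16) {y : H} (hy : y ≠ 0) {d : ℝ} (hd : 0 < d)
    (hgap : ∀ c : ℂ, ‖c‖ ≤ 1 / 16 → d ≤ ‖T y - c • y‖) {U : H} {l : ℂ} (hl : ‖l‖ = 1)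
    (hU : ‖U - l • y‖ ≤ min (d / 2) ‖y‖) {p : ℂ} (hp : ‖p‖ ≤ 1) :
    (d / (16 * ‖y‖)) ^ 2 * ‖U + p • T U‖ ^ 2 ≤ ‖ev T (U + p • T U)‖ ^ 2 := by
  have hy0 : 0 < ‖y‖ := norm_pos_iff.2 hy
  have u1 : ‖U - l • y‖ ≤ d / 2 := hU.trans (min_le_left _ _)
  have u2 : ‖U - l • y‖ ≤ ‖y‖ := hU.trans (min_le_right _ _)
  set G := U + p • T U with hG
  have nU : ‖U‖ ≤ 2 * ‖y‖ := by
    have : U = (U - l • y) + l • y := by abel
    calc ‖U‖ = ‖(U - l • y) + l • y‖ := by rw [← this]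
      _ ≤ ‖U - l • y‖ + ‖l • y‖ := norm_add_le _ _
      _ ≤ ‖y‖ + ‖y‖ := by rw [norm_smul, hl, one_mul]; linarith
      _ = 2 * ‖y‖ := by ring
  have nG : ‖G‖ ≤ 4 * ‖y‖ := by
    calc ‖G‖ ≤ ‖U‖ + ‖p • T U‖ := norm_add_le _ _
      _ ≤ ‖U‖ + 1 * (1 / 16 * ‖U‖) := by
          rw [norm_smul]
          gcongr
          exact (T.le_opNorm U).trans (by gcongr)
      _ ≤ 4 * ‖y‖ := by linarith
  have nev : d / 4 ≤ ‖ev T G‖ := by
    set c := inner ℂ G (T G) / (‖G‖ : ℂ) ^ 2 with hcdef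
    have hc : ‖c‖ ≤ 1 / 16 := norm_coef hT G
    have he : ev T G = T G - c • G := rfl
    obtain ⟨a1, _⟩ := shift_aux hT hp hG c
    rw [he]
    have b1 : T U - c • U = l • (T y - c • y) + (T (U - l • y) - c • (U - l • y)) := by
      simp only [map_sub, map_smul]
      module
    have b2 : ‖T (U - l • y) - c • (U - l • y)‖ ≤ 1 / 8 * (d / 2) := by
      calc ‖T (U - l • y) - c • (U - l • y)‖ ≤ ‖T (U - l • y)‖ + ‖c • (U - l • y)‖ :=
            norm_sub_le _ _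
        _ ≤ 1 / 16 * ‖U - l • y‖ + 1 / 16 * ‖U - l • y‖ := by
            rw [norm_smul]
            gcongr
            exact (T.le_opNorm _).trans (by gcongr)
        _ = 1 / 8 * ‖U - l • y‖ := by ring
        _ ≤ 1 / 8 * (d / 2) := by gcongr
    have b3 : d ≤ ‖l • (T y - c • y)‖ := by
      rw [norm_smul, hl, one_mul]
      exact hgap c hc
    have b4 : ‖l • (T y - c • y)‖ ≤ ‖T U - c • U‖ + ‖T (U - l • y) - c • (U - l • y)‖ := by
      have : l • (T y - c • y) = (T U - c • U) - (T (U - l • y) - c • (U - l • y)) := by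
        rw [b1]; abel
      rw [this]
      exact norm_sub_le _ _
    have b5 : ‖T U - c • U‖ ≤ ‖(T U - c • U) - (T G - c • G)‖ + ‖T G - c • G‖ := by
      have : T U - c • U = ((T U - c • U) - (T G - c • G)) + (T G - c • G) := by abel
      calc ‖T U - c • U‖ = ‖((T U - c • U) - (T G - c • G)) + (T G - c • G)‖ := by rw [← this]
        _ ≤ _ := norm_add_le _ _
    linarith
  have h1 : d / (16 * ‖y‖) * ‖G‖ ≤ ‖ev T G‖ := by
    refine le_trans ?_ nev
    rw [div_mul_eq_mul_div, div_le_iff₀ (by positivity)]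
    nlinarith
  calc (d / (16 * ‖y‖)) ^ 2 * ‖G‖ ^ 2 = (d / (16 * ‖y‖) * ‖G‖) ^ 2 := by ring
    _ ≤ ‖ev T G‖ ^ 2 := by gcongr

/-- **The counting theorem in the Hilbert space model.** -/
theorem count {T : H →L[ℂ] H} (hT : ‖T‖ ≤ 1 / 16) {y : H} (hy : y ≠ 0)
    (he : ∀ c : ℂ, T y ≠ c • y) : ∃ η : ℝ, 0 < η ∧ ∃ K : ℝ, 0 < K ∧
    ∀ S : ℕ → Set ℝ, (∀ n, MeasurableSet (S n)) →
      (∀ n, ∀ t ∈ S n, ∃ l : ℂ, ‖l‖ = 1 ∧ ‖Fn T y n (cis t) - l • y‖ ≤ η) →
      ∀ N : ℕ, ∀ L : ℝ, (∀ x : ℂ, ‖x‖ = 2 → Real.log ‖Fn T y N x‖ ≤ L) →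
        ∑ n ∈ Finset.range N, n * volume.real (S n ∩ Ioc 0 (2 * Real.pi)) ≤
          K * (L - Real.log ‖y‖) := by
  obtain ⟨d, hd, hgap⟩ := exists_gap he
  have hy0 : 0 < ‖y‖ := norm_pos_iff.2 hy
  refine ⟨min (d / 2) ‖y‖, lt_min (by positivity) hy0, 4 * Real.pi / (d / (16 * ‖y‖)) ^ 2,
    by positivity, ?_⟩
  intro S hS hnear N L hL
  set c₁ := (d / (16 * ‖y‖)) ^ 2 with hc₁
  have hc₁0 : 0 < c₁ := by positivity
  have nonneg : ∀ n, 0 ≤ In T y n := by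
    intro n
    -- a bound for the maximum on the circle of radius two
    have hb : ∃ L', ∀ x : ℂ, ‖x‖ = 2 → Real.log ‖Fn T y n x‖ ≤ L' := by
      have hc : ContinuousOn (fun x : ℂ => Real.log ‖Fn T y n x‖) (Metric.sphere 0 2) := by
        refine ContinuousOn.log (Fn_cont T y n).norm.continuousOn ?_
        intro x hx
        exact norm_ne_zero_iff.2 (Fn_ne hT hy n (by simpa using (mem_sphere_zero_iff_norm.1 hx).le))
      obtain ⟨L', hL'⟩ := ((isCompact_sphere (0 : ℂ) 2).image_of_continuousOn hc).bddAbove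
      exact ⟨L', fun x hx => hL' ⟨x, mem_sphere_zero_iff_norm.2 hx, rfl⟩⟩
    obtain ⟨L', hL'⟩ := hb
    exact (In_bounds hT hy n hL').1
  have step : ∀ m : ℕ, ((m + 1 : ℕ) : ℝ) * (c₁ * volume.real (S (m + 1) ∩ Ioc 0 (2 * Real.pi))) ≤
      In T y (m + 2) - In T y (m + 1) := by
    intro m
    push_cast
    refine In_step hT hy m (hS (m + 1)) ?_
    intro t ht s hs
    obtain ⟨l, hl, h⟩ := hnear (m + 1) t ht
    refine near hT hy hd hgap hl h ?_
    rw [norm_mul, cis_norm, mul_one, Complex.norm_real, Real.norm_of_nonneg hs.1]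
    exact hs.2
  have tel : ∀ N : ℕ, ∑ n ∈ Finset.range (N + 1),
      (n : ℝ) * (c₁ * volume.real (S n ∩ Ioc 0 (2 * Real.pi))) ≤ In T y (N + 1) - In T y 1 := by
    intro N
    induction N with
    | zero => simp
    | succ N ih =>
      rw [Finset.sum_range_succ]
      have := step N
      linarith
  rcases Nat.eq_zero_or_pos N with h0 | h0
  · subst h0
    simp only [Finset.range_zero, Finset.sum_empty]
    have h1 := hL 2 (by norm_num)
    have : 0 ≤ L - Real.log ‖y‖ := by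
      have : Fn T y 0 2 = y := rfl
      rw [this] at h1
      linarith
    positivity
  · obtain ⟨M, rfl⟩ : ∃ M, N = M + 1 := ⟨N - 1, by omega⟩
    have h1 := tel M
    have h2 := (In_bounds hT hy (M + 1) hL).2
    have h3 := nonneg 1
    have h4 : ∑ n ∈ Finset.range (M + 1),
        (n : ℝ) * (c₁ * volume.real (S n ∩ Ioc 0 (2 * Real.pi))) =
        c₁ * ∑ n ∈ Finset.range (M + 1), (n : ℝ) * volume.real (S n ∩ Ioc 0 (2 * Real.pi)) := by
      rw [Finset.mul_sum]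
      refine Finset.sum_congr rfl (fun n _ => ?_)
      ring
    rw [h4] at h1
    rw [div_mul_eq_mul_div, le_div_iff₀ hc₁0]
    linarith

end Pool.Agent.Work.MP_0d53be_an
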