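import Pool.Agent.Work.MP_0d53be_an.Grow

/-!
The curvature of the orbits `(1 + w T) ^ n y`.
-/

set_option autoImplicit false

namespace Pool.Agent.Work.MP_0d53be_an

open MeasureTheory Set Filter Topology

variable {H : Type*} [NormedAddCommGroup H] [InnerProductSpace ℂ H]

/-- `(1 + x T) ^ n y`. -/
noncomputable def Fn (T : H →L[ℂ] H) (y : H) : ℕ → ℂ → H
  | 0, _ => y
  | n + 1, x => Fn T y n x + x • T (Fn T y n x)

/-- The derivative of `Fn`. -/
noncomputable def Dn (T : H →L[ℂ] H) (y : H) (n : ℕ) (x : ℂ) : H := (n : ℂ) • T (Fn T y (n - 1) x)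

theorem Fn_deriv (T : H →L[ℂ] H) (y : H) (n : ℕ) (x : ℂ) :
    HasDerivAt (Fn T y n) (Dn T y n x) x := by
  induction n with
  | zero =>
    have : Dn T y 0 x = 0 := by simp [Dn]
    rw [this]
    exact hasDerivAt_const x y
  | succ n ih =>
    have h1 : HasDerivAt (fun x => T (Fn T y n x)) (T (Dn T y n x)) x :=
      T.hasFDerivAt.comp_hasDerivAt x ih
    have h2 := ih.add ((hasDerivAt_id x).smul h1)
    have h3 : HasDerivAt (Fn T y (n + 1))
      (Dn T y n x + (x • T (Dn T y n x) + (1 : ℂ) • T (Fn T y n x))) x := h2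
    refine h3.congr_deriv ?_
    cases n with
    | zero => simp [Dn]
    | succ m =>
      simp only [Dn, Nat.add_sub_cancel, Fn, map_add, map_smul]
      push_cast
      module

theorem Fn_cont (T : H →L[ℂ] H) (y : H) (n : ℕ) : Continuous (Fn T y n) :=
  continuous_iff_continuousAt.2 fun x => (Fn_deriv T y n x).continuousAt

theorem Dn_deriv (T : H →L[ℂ] H) (y : H) (n : ℕ) (x : ℂ) :
    HasDerivAt (Dn T y n) ((n : ℂ) • T (Dn T y (n - 1) x)) x := by
  have h1 : HasDerivAt (fun x => T (Fn T y (n - 1) x)) (T (Dn T y (n - 1) x)) x :=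
    T.hasFDerivAt.comp_hasDerivAt x (Fn_deriv T y (n - 1) x)
  exact h1.const_smul (n : ℂ)

theorem Dn_cont (T : H →L[ℂ] H) (y : H) (n : ℕ) : Continuous (Dn T y n) :=
  continuous_iff_continuousAt.2 fun x => (Dn_deriv T y n x).continuousAt

theorem one_add_lower {T : H →L[ℂ] H} (hT : ‖T‖ ≤ 1 / 16) (u : H) {x : ℂ} (hx : ‖x‖ ≤ 2) :
    7 / 8 * ‖u‖ ≤ ‖u + x • T u‖ := by
  have h1 : ‖x • T u‖ ≤ 1 / 8 * ‖u‖ := by
    rw [norm_smul]
    calc ‖x‖ * ‖T u‖ ≤ 2 * (‖T‖ * ‖u‖) := by gcongr; exact T.le_opNorm u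
      _ ≤ 2 * (1 / 16 * ‖u‖) := by gcongr
      _ = 1 / 8 * ‖u‖ := by ring
  have h2 : ‖u‖ ≤ ‖u + x • T u‖ + ‖x • T u‖ := by
    have : u = (u + x • T u) - x • T u := by abel
    calc ‖u‖ = ‖(u + x • T u) - x • T u‖ := by rw [← this]
      _ ≤ _ := norm_sub_le _ _
  linarith

theorem Fn_ne {T : H →L[ℂ] H} (hT : ‖T‖ ≤ 1 / 16) {y : H} (hy : y ≠ 0) (n : ℕ) {x : ℂ}
    (hx : ‖x‖ ≤ 2) : Fn T y n x ≠ 0 := by
  induction n with
  | zero => exact hy
  | succ n ih =>
    have h1 := one_add_lower hT (Fn T y n x) hx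
    have h2 : 0 < ‖Fn T y n x‖ := norm_pos_iff.2 ih
    rw [← norm_pos_iff]
    change 0 < ‖Fn T y n x + x • T (Fn T y n x)‖
    linarith

/-- The total curvature of the orbit at time `n`. -/
noncomputable def In (T : H →L[ℂ] H) (y : H) (n : ℕ) : ℝ :=
  ∫ t in (0 : ℝ)..2 * Real.pi, alp (Fn T y n (cis t)) ((Complex.I * cis t) • Dn T y n (cis t))

theorem In_bounds {T : H →L[ℂ] H} (hT : ‖T‖ ≤ 1 / 16) {y : H} (hy : y ≠ 0) (n : ℕ) {L : ℝ}
    (hL : ∀ x : ℂ, ‖x‖ = 2 → Real.log ‖Fn T y n x‖ ≤ L) :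
    0 ≤ In T y n ∧ In T y n ≤ 4 * Real.pi * (L - Real.log ‖y‖) := by
  have h := grow (F := Fn T y n) (F' := Dn T y n)
    (F'' := fun x => (n : ℂ) • T (Dn T y (n - 1) x)) (Fn_deriv T y n) (Dn_deriv T y n)
    (continuous_const.smul (T.continuous.comp (Dn_cont T y (n - 1))))
    (fun x hx => Fn_ne hT hy n hx) hL
  have e : Fn T y n 0 = y := by
    clear h hL
    induction n with
    | zero => rfl
    | succ n ih => simp [Fn, ih]
  rw [e] at h
  exact h

/-- The interpolating family. -/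
noncomputable def Gn (T : H →L[ℂ] H) (y : H) (m : ℕ) (s t : ℝ) : H :=
  Fn T y (m + 1) (cis t) + ((s : ℂ) * cis t) • T (Fn T y (m + 1) (cis t))

theorem Gn_eq (T : H →L[ℂ] H) (y : H) (m : ℕ) (s t : ℝ) :
    Gn T y m s t = (Fn T y m (cis t) + ((s : ℂ) * cis t) • T (Fn T y m (cis t))) +
      cis t • T (Fn T y m (cis t) + ((s : ℂ) * cis t) • T (Fn T y m (cis t))) := by
  unfold Gn
  simp only [Fn, map_add, map_smul]
  module

theorem Gn_ne {T : H →L[ℂ] H} (hT : ‖T‖ ≤ 1 / 16) {y : H} (hy : y ≠ 0) (m : ℕ) {s : ℝ}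
    (hs : s ∈ Icc (0 : ℝ) 1) (t : ℝ) : Gn T y m s t ≠ 0 := by
  have h1 : ‖((s : ℂ) * cis t)‖ ≤ 2 := by
    rw [norm_mul, cis_norm, mul_one, Complex.norm_real, Real.norm_of_nonneg hs.1]
    linarith [hs.2]
  have h2 := one_add_lower hT (Fn T y (m + 1) (cis t)) h1
  have h3 : 0 < ‖Fn T y (m + 1) (cis t)‖ :=
    norm_pos_iff.2 (Fn_ne hT hy (m + 1) (by rw [cis_norm]; norm_num))
  rw [← norm_pos_iff]
  unfold Gn
  linarith

/-- The increment of the curvature. -/
theorem In_step {T : H →L[ℂ] H} (hT : ‖T‖ ≤ 1 / 16) {y : H} (hy : y ≠ 0) (m : ℕ) {S : Set ℝ}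
    (hS : MeasurableSet S) {c₁ : ℝ}
    (hlow : ∀ t ∈ S, ∀ s ∈ Icc (0 : ℝ) 1, c₁ * ‖Gn T y m s t‖ ^ 2 ≤ ‖ev T (Gn T y m s t)‖ ^ 2) :
    (m + 1) * (c₁ * volume.real (S ∩ Ioc 0 (2 * Real.pi))) ≤ In T y (m + 2) - In T y (m + 1) := by
  set G : ℝ → ℝ → H := Gn T y m with hG
  set U : ℝ → H := fun t => Fn T y (m + 1) (cis t) with hU
  set W : ℝ → H := fun t => Fn T y m (cis t) with hW
  set A : ℝ → ℝ → H := fun _ t => cis t • T (U t) with hA
  set B : ℝ → ℝ → H := fun s t => Complex.I • (((m + 1 : ℕ) : ℂ) • cis t •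
    T (W t + ((s : ℂ) * cis t) • T (W t)) + (s : ℂ) • cis t • T (U t)) with hB
  set C : ℝ → ℝ → H := fun _ t => Complex.I • (((m + 1 : ℕ) : ℂ) • cis t •
    T (cis t • T (W t)) + cis t • T (U t)) with hC
  have cU : Continuous U := (Fn_cont T y (m + 1)).comp cis_cont
  have cW : Continuous W := (Fn_cont T y m).comp cis_cont
  have cc : Continuous (fun p : ℝ × ℝ => (p.1 : ℂ) * cis p.2) :=
    (Complex.continuous_ofReal.comp continuous_fst).mul (cis_cont.comp continuous_snd)
  have c1 : Continuous (fun p : ℝ × ℝ => (p.1 : ℂ)) :=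
    Complex.continuous_ofReal.comp continuous_fst
  have c2 : Continuous (fun p : ℝ × ℝ => cis p.2) := cis_cont.comp continuous_snd
  have cU2 : Continuous (fun p : ℝ × ℝ => U p.2) := cU.comp continuous_snd
  have cW2 : Continuous (fun p : ℝ × ℝ => W p.2) := cW.comp continuous_snd
  have cTU : Continuous (fun p : ℝ × ℝ => T (U p.2)) := T.continuous.comp cU2
  have cTW : Continuous (fun p : ℝ × ℝ => T (W p.2)) := T.continuous.comp cW2
  have kG : Continuous (fun p : ℝ × ℝ => G p.1 p.2) := cU2.add (cc.smul cTU)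
  have kA : Continuous (fun p : ℝ × ℝ => A p.1 p.2) := c2.smul cTU
  have kB : Continuous (fun p : ℝ × ℝ => B p.1 p.2) :=
    ((((c2.smul (T.continuous.comp (cW2.add (cc.smul cTW)))).const_smul _).add
      (c1.smul (c2.smul cTU))).const_smul _)
  have kC : Continuous (fun p : ℝ × ℝ => C p.1 p.2) :=
    ((((c2.smul (T.continuous.comp (c2.smul cTW))).const_smul _).add
      (c2.smul cTU)).const_smul _)
  -- derivatives in t
  have dU : ∀ t, HasDerivAt U ((Complex.I * cis t) • (((m + 1 : ℕ) : ℂ) • T (W t))) t := fun t =>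
    HasDerivAt.scomp t (Fn_deriv T y (m + 1) (cis t)) (hasDerivAt_cis t)
  have dTU : ∀ t, HasDerivAt (fun t => T (U t))
      (T ((Complex.I * cis t) • (((m + 1 : ℕ) : ℂ) • T (W t)))) t := fun t =>
    T.hasFDerivAt.restrictScalars ℝ |>.comp_hasDerivAt t (dU t)
  have dA : ∀ s t, HasDerivAt (fun t => A s t) (C s t) t := by
    intro s t
    have h := (hasDerivAt_cis t).smul (dTU t)
    refine h.congr_deriv ?_
    simp only [hC, map_smul]
    module
  have dG' : ∀ s t, HasDerivAt (fun t => G s t) (B s t) t := by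
    intro s t
    have h := (dU t).add (((hasDerivAt_cis t).const_mul (s : ℂ)).smul (dTU t))
    refine h.congr_deriv ?_
    simp only [hB, map_smul, map_add]
    module
  have dG : ∀ s t, HasDerivAt (fun s => G s t) (A s t) s := by
    intro s t
    have h1 : HasDerivAt (fun s : ℝ => (s : ℂ) * cis t) (cis t) s := by
      simpa using (Complex.ofRealCLM.hasDerivAt (x := s)).mul_const (cis t)
    exact (h1.smul_const (T (U t))).const_add (U t)
  have dB : ∀ s t, HasDerivAt (fun s => B s t) (C s t) s := by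
    intro s t
    have h0 : HasDerivAt (fun s : ℝ => (s : ℂ)) 1 s := Complex.ofRealCLM.hasDerivAt (x := s)
    have e1 : (fun s => B s t) = fun s : ℝ => Complex.I • ((((m + 1 : ℕ) : ℂ) • cis t •
        T (W t)) + (s : ℂ) • (((m + 1 : ℕ) : ℂ) • cis t • cis t • T (T (W t)) +
          cis t • T (U t))) := by
      funext s
      simp only [hB, map_smul, map_add]
      module
    rw [e1]
    have h := ((h0.smul_const (((m + 1 : ℕ) : ℂ) • cis t • cis t • T (T (W t)) +
          cis t • T (U t))).const_add (((m + 1 : ℕ) : ℂ) • cis t • T (W t))).const_smul Complex.I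
    refine h.congr_deriv ?_
    simp only [hC, map_smul]
    module
  have hG0 : ∀ s ∈ Icc (0 : ℝ) 1, ∀ t, G s t ≠ 0 := fun s hs t => Gn_ne hT hy m hs t
  have pU : U (2 * Real.pi) = U 0 := by simp only [hU, cis_two_pi, cis_zero]
  have pG : ∀ s, G s (2 * Real.pi) = G s 0 := fun s => by
    simp only [hG, Gn, cis_two_pi, cis_zero]
  have pA : ∀ s, A s (2 * Real.pi) = A s 0 := fun s => by
    simp only [hA, pU, cis_two_pi, cis_zero]
  have key := stokes zero_le_one kG kA kB kC hG0 dG dG' dA dB pG pA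
  have e1 : (∫ t in (0 : ℝ)..2 * Real.pi, alp (G 1 t) (B 1 t)) = In T y (m + 2) := by
    unfold In
    refine intervalIntegral.integral_congr (fun t _ => ?_)
    have a1 : G 1 t = Fn T y (m + 2) (cis t) := by
      simp only [hG, Gn, Complex.ofReal_one, one_mul]
      rfl
    have a2 : B 1 t = (Complex.I * cis t) • Dn T y (m + 2) (cis t) := by
      have : U t = W t + cis t • T (W t) := rfl
      simp only [hB, Dn, Complex.ofReal_one, one_mul, one_smul]
      rw [← this]
      change _ = (Complex.I * cis t) • (((m + 2 : ℕ) : ℂ) • T (U t))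
      push_cast
      module
    simp only [a1, a2]
  have e0 : (∫ t in (0 : ℝ)..2 * Real.pi, alp (G 0 t) (B 0 t)) = In T y (m + 1) := by
    unfold In
    refine intervalIntegral.integral_congr (fun t _ => ?_)
    have a1 : G 0 t = Fn T y (m + 1) (cis t) := by
      simp only [hG, Gn, Complex.ofReal_zero, zero_mul, zero_smul, add_zero]
    have a2 : B 0 t = (Complex.I * cis t) • Dn T y (m + 1) (cis t) := by
      simp only [hB, Dn, Complex.ofReal_zero, zero_mul, zero_smul, add_zero]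
      change _ = (Complex.I * cis t) • (((m + 1 : ℕ) : ℂ) • T (W t))
      module
    simp only [a1, a2]
  rw [e1, e0] at key
  rw [key]
  -- the lower bound
  have hpos : ∀ s ∈ Icc (0 : ℝ) 1, ∀ t,
      (m + 1) * (‖ev T (G s t)‖ ^ 2 / ‖G s t‖ ^ 2) ≤
        2 * (Bf (G s t) (A s t) (B s t)).im / (‖G s t‖ ^ 2) ^ 2 := by
    intro s hs t
    have hg : 0 < ‖G s t‖ := norm_pos_iff.2 (hG0 s hs t)
    have h1 := im_pos hT (G := G s t) (U := U t) (V := W t + ((s : ℂ) * cis t) • T (W t))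
      (τ := s) (w := cis t) hs.1 hs.2 (cis_norm t) rfl (Gn_eq T y m s t) (m + 1)
    rw [le_div_iff₀ (by positivity)]
    refine le_trans (le_of_eq ?_) h1
    push_cast
    field_simp
  have hpos0 : ∀ s ∈ Icc (0 : ℝ) 1, ∀ t,
      0 ≤ 2 * (Bf (G s t) (A s t) (B s t)).im / (‖G s t‖ ^ 2) ^ 2 := fun s hs t =>
    le_trans (by positivity) (hpos s hs t)
  have hpos1 : ∀ s ∈ Icc (0 : ℝ) 1, ∀ t ∈ S,
      (m + 1) * c₁ ≤ 2 * (Bf (G s t) (A s t) (B s t)).im / (‖G s t‖ ^ 2) ^ 2 := by
    intro s hs t ht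
    refine le_trans ?_ (hpos s hs t)
    have hg : 0 < ‖G s t‖ := norm_pos_iff.2 (hG0 s hs t)
    refine mul_le_mul_of_nonneg_left ?_ (by positivity)
    rw [le_div_iff₀ (by positivity)]
    exact hlow t ht s hs
  have hpi : (0 : ℝ) ≤ 2 * Real.pi := by positivity
  set R : ℝ → ℝ → ℝ := fun s t => 2 * (Bf (G s t) (A s t) (B s t)).im / (‖G s t‖ ^ 2) ^ 2 with hR
  have cR : ContinuousOn (fun p : ℝ × ℝ => R p.1 p.2) (Icc 0 1 ×ˢ univ) := by
    refine ContinuousOn.div (Continuous.continuousOn ?_) (Continuous.continuousOn ?_) ?_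
    · refine continuous_const.mul (Complex.continuous_im.comp ?_)
      unfold Bf
      exact ((kA.inner kB).mul ((Complex.continuous_ofReal.comp kG.norm).pow 2)).sub
        ((kA.inner kG).mul (kG.inner kB))
    · exact (kG.norm.pow 2).pow 2
    · exact fun p hp => pow_ne_zero 2 (pow_ne_zero 2 (norm_ne_zero_iff.2 (hG0 p.1 hp.1 p.2)))
  have hi3 : Integrable (fun p : ℝ × ℝ => R p.1 p.2)
      ((volume.restrict (Ioc 0 1)).prod (volume.restrict (Ioc 0 (2 * Real.pi)))) := by
    rw [Measure.prod_restrict]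
    have hc' : ContinuousOn (fun p : ℝ × ℝ => R p.1 p.2) (Icc 0 1 ×ˢ Icc 0 (2 * Real.pi)) :=
      cR.mono (prod_mono le_rfl (subset_univ _))
    have := hc'.integrableOn_compact (isCompact_Icc.prod isCompact_Icc)
      (μ := (volume : Measure (ℝ × ℝ)))
    exact this.mono_set (prod_mono Ioc_subset_Icc_self Ioc_subset_Icc_self)
  have hi4 : IntervalIntegrable (fun s => ∫ t in (0 : ℝ)..2 * Real.pi, R s t) volume 0 1 := by
    rw [intervalIntegrable_iff_integrableOn_Ioc_of_le zero_le_one]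
    have := hi3.integral_prod_left
    exact this.congr (ae_of_all _ (fun r => (intervalIntegral.integral_of_le hpi).symm))
  have hconst : ∫ s in (0 : ℝ)..1, (m + 1) * (c₁ * volume.real (S ∩ Ioc 0 (2 * Real.pi))) =
      (m + 1) * (c₁ * volume.real (S ∩ Ioc 0 (2 * Real.pi))) := by
    rw [intervalIntegral.integral_const, smul_eq_mul]
    norm_num
  rw [← hconst]
  refine intervalIntegral.integral_mono_on zero_le_one intervalIntegrable_const hi4 ?_
  intro s hs
  rw [intervalIntegral.integral_of_le hpi]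
  have hRs : IntegrableOn (R s) (Ioc 0 (2 * Real.pi)) := by
    have : ContinuousOn (R s) (Icc 0 (2 * Real.pi)) :=
      cR.comp (f := fun t => (s, t)) (Continuous.continuousOn (by fun_prop))
        (fun t _ => ⟨hs, mem_univ _⟩)
    exact (this.integrableOn_compact isCompact_Icc).mono_set Ioc_subset_Icc_self
  calc (m + 1) * (c₁ * volume.real (S ∩ Ioc 0 (2 * Real.pi)))
      = ∫ t in S ∩ Ioc 0 (2 * Real.pi), ((m + 1) * c₁ : ℝ) := by
        rw [setIntegral_const, smul_eq_mul]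
        ring
    _ ≤ ∫ t in S ∩ Ioc 0 (2 * Real.pi), R s t := by
        refine setIntegral_mono_on ?_ (hRs.mono_set inter_subset_right)
          (hS.inter measurableSet_Ioc) (fun t ht => hpos1 s hs t ht.1)
        refine integrableOn_const ?_
        exact ((measure_mono inter_subset_right).trans_lt measure_Ioc_lt_top).ne
    _ ≤ ∫ t in Ioc 0 (2 * Real.pi), R s t := by
        refine setIntegral_mono_set hRs ?_ (ae_of_all _ inter_subset_right)
        exact ae_of_all _ (fun t => hpos0 s hs t)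

end Pool.Agent.Work.MP_0d53be_an
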