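import Pool.Agent.Work.MP_0d53be_an.Dim

/-!
Power decay: the Hausdorff dimension.
-/

set_option autoImplicit false

namespace Pool.Agent.Work.MP_0d53be_an

open MeasureTheory Set Filter Topology

variable {X : Type*} [NormedAddCommGroup X] [NormedSpace ℂ X]

theorem pow_bound {m : ℕ → ℝ} (hm1 : m 0 = 1) (hm0 : ∀ n, 0 ≤ m n) {C σ : ℝ} (hC : 0 ≤ C)
    (hσ : 0 < σ) (hM : ∀ n : ℕ, m n ≤ (C / ((n : ℝ) + 1) ^ σ) ^ n) (j : ℕ) :
    1 + Real.log (ES m (4 ^ (j + 1))) ≤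
      (4 * j + (10 + 12 * C)) * ((4 : ℝ) ^ j) ^ (1 / (1 + σ)) := by
  set ρ : ℝ := 1 / (1 + σ) with hρ
  have hρ0 : 0 < ρ := by positivity
  have hρ1 : 1 - ρ * σ = ρ := by
    rw [hρ]
    field_simp
    ring
  set Y : ℝ := (4 : ℝ) ^ j with hY
  have hY1 : 1 ≤ Y := one_le_pow₀ (by norm_num)
  have hY0 : 0 < Y := by linarith
  set Z : ℝ := Y ^ ρ with hZ
  have hZ1 : 1 ≤ Z := Real.one_le_rpow hY1 hρ0.le
  have hZ0 : 0 < Z := by linarith
  set s : ℕ → ℝ := fun n => C / ((n : ℝ) + 1) ^ σ with hs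
  have hs0 : ∀ n, 0 ≤ s n := fun n => by positivity
  have hanti : Antitone s := by
    intro a b hab
    have : ((a : ℝ) + 1) ^ σ ≤ ((b : ℝ) + 1) ^ σ := by
      refine Real.rpow_le_rpow (by positivity) ?_ hσ.le
      have : (a : ℝ) ≤ b := by exact_mod_cast hab
      linarith
    simp only [hs]
    gcongr
  have hs00 : s 0 = C := by simp [hs]
  set K : ℕ := ⌈Z⌉₊ with hK
  have hK1 : (K : ℝ) ≤ 2 * Z := by
    have := (Nat.ceil_lt_add_one hZ0.le).le
    linarith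
  have hK2 : Z ≤ K := Nat.le_ceil Z
  have h1 := log_ES_le hanti hs0 hm1 hm0 hM (4 ^ (j + 1)) K
  have hN : ((4 ^ (j + 1) : ℕ) : ℝ) = 4 * Y := by
    rw [Nat.cast_pow, pow_succ]
    push_cast
    ring
  rw [hN, hs00] at h1
  have hl : Real.log (1 + 2 * (4 * Y) * C) ≤ 2 * (j + 1) + (1 + 2 * C) := by
    have h5 : 1 + 2 * (4 * Y) * C ≤ (4 * Y) * (1 + 2 * C) := by linarith
    have h6 : 0 < 1 + 2 * C := by linarith
    have h7 : (0 : ℝ) < 1 + 2 * (4 * Y) * C := by positivity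
    refine (Real.log_le_log h7 h5).trans ?_
    rw [Real.log_mul (by positivity) h6.ne', Real.log_mul (by norm_num) (by positivity), hY,
      Real.log_pow]
    have h8 : Real.log 4 ≤ 2 := by
      have : (4 : ℝ) = 2 ^ 2 := by norm_num
      rw [this, Real.log_pow]
      have := Real.log_two_lt_d9
      push_cast
      linarith
    have h9 : Real.log (1 + 2 * C) ≤ 1 + 2 * C :=
      (Real.log_le_sub_one_of_pos h6).trans (by linarith)
    have h13 : (j : ℝ) * Real.log 4 ≤ j * 2 :=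
      mul_le_mul_of_nonneg_left h8 (by positivity)
    linarith
  have h2 : (K : ℝ) * Real.log (1 + 2 * (4 * Y) * C) ≤ 2 * Z * (2 * (j + 1) + (1 + 2 * C)) := by
    have h3 : (0 : ℝ) ≤ 2 * (j + 1) + (1 + 2 * C) := by positivity
    calc (K : ℝ) * Real.log (1 + 2 * (4 * Y) * C) ≤ K * (2 * (j + 1) + (1 + 2 * C)) :=
          mul_le_mul_of_nonneg_left hl (Nat.cast_nonneg K)
      _ ≤ 2 * Z * (2 * (j + 1) + (1 + 2 * C)) := by gcongr
  have h3 : 2 * (4 * Y) * s K ≤ 8 * C * Z := by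
    have h4 : Z ^ σ ≤ ((K : ℝ) + 1) ^ σ := Real.rpow_le_rpow hZ0.le (by linarith) hσ.le
    have h5 : s K ≤ C / Z ^ σ := by
      simp only [hs]
      gcongr
    have h6 : Y / Z ^ σ = Z := by
      rw [hZ, ← Real.rpow_mul hY0.le, ← Real.rpow_one_sub' hY0.le (by rw [hρ1]; exact hρ0.ne'),
        hρ1]
    calc 2 * (4 * Y) * s K ≤ 2 * (4 * Y) * (C / Z ^ σ) := by gcongr
      _ = 8 * C * (Y / Z ^ σ) := by ring
      _ = 8 * C * Z := by rw [h6]
  have h4 : (4 * (j : ℝ) + (10 + 12 * C)) * Z =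
      2 * Z + 2 * Z + 2 * Z * (2 * (j + 1) + (1 + 2 * C)) + 8 * C * Z := by ring
  rw [h4]
  linarith

theorem pow_summable {m : ℕ → ℝ} (hm1 : m 0 = 1) (hm0 : ∀ n, 0 ≤ m n) {C σ : ℝ} (hC : 0 ≤ C)
    (hσ : 0 < σ) (hM : ∀ n : ℕ, m n ≤ (C / ((n : ℝ) + 1) ^ σ) ^ n) {d : ℝ}
    (hd : 1 / (1 + σ) < d) :
    Summable (fun j : ℕ => (1 + Real.log (ES m (4 ^ (j + 1)))) / ((4 : ℝ) ^ j) ^ d) := by
  set ρ : ℝ := 1 / (1 + σ) with hρ
  set q : ℝ := (4 : ℝ) ^ (ρ - d) with hq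
  have hq0 : 0 < q := by positivity
  have hq1 : q < 1 := Real.rpow_lt_one_of_one_lt_of_neg (by norm_num) (by linarith)
  have hqn : ‖q‖ < 1 := by
    rw [Real.norm_of_nonneg hq0.le]
    exact hq1
  have hA' : Summable (fun j : ℕ => (j : ℝ) ^ 1 * q ^ j) :=
    summable_pow_mul_geometric_of_norm_lt_one (R := ℝ) 1 (r := q) hqn
  have hA : Summable (fun j : ℕ => 4 * ((j : ℝ) ^ 1 * q ^ j)) := hA'.mul_left 4
  have hB : Summable (fun j : ℕ => (10 + 12 * C) * q ^ j) :=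
    (summable_geometric_of_lt_one hq0.le hq1).mul_left _
  have hT : Summable (fun j : ℕ => 4 * ((j : ℝ) ^ 1 * q ^ j) + (10 + 12 * C) * q ^ j) :=
    hA.add hB
  refine Summable.of_nonneg_of_le (fun j => ?_) (fun j => ?_) hT
  · have := Real.log_nonneg (one_le_ES hm1 hm0 (4 ^ (j + 1)))
    exact div_nonneg (by linarith) (Real.rpow_nonneg (by positivity) d)
  · have h1 := pow_bound hm1 hm0 hC hσ hM j
    have h4 : (0 : ℝ) < (4 : ℝ) ^ j := by positivity
    have h5 : (0 : ℝ) < ((4 : ℝ) ^ j) ^ d := Real.rpow_pos_of_pos h4 d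
    rw [div_le_iff₀ h5]
    refine h1.trans (le_of_eq ?_)
    have e : ((4 : ℝ) ^ j) ^ ρ = q ^ j * ((4 : ℝ) ^ j) ^ d := by
      rw [hq, ← Real.rpow_natCast (4 ^ (ρ - d)) j, ← Real.rpow_natCast 4 j,
        ← Real.rpow_mul (by norm_num), ← Real.rpow_mul (by norm_num), ← Real.rpow_mul (by norm_num),
        ← Real.rpow_add (by norm_num)]
      congr 1
      ring
    rw [← hρ, e]
    ring

/-- **Hausdorff dimension.** -/
theorem dim_bound {M : X →L[ℂ] X} {v : X} {ε : ℝ} {m : ℕ → ℝ} (hcnt : Cnt M v ε m)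
    (hm1 : m 0 = 1) (hm0 : ∀ n, 0 ≤ m n) {C σ : ℝ} (hC : 0 ≤ C) (hσ : 0 < σ)
    (hM : ∀ n : ℕ, m n ≤ (C / ((n : ℝ) + 1) ^ σ) ^ n) :
    dimH {t : ℝ | ∃ᶠ n in atTop, t ∈ Nr M v ε n} ≤ ENNReal.ofReal (1 / (1 + σ)) := by
  set R : Set ℝ := {t : ℝ | ∃ᶠ n in atTop, t ∈ Nr M v ε n} with hR
  have h1 : dimH (R ∩ Ioc 0 (2 * Real.pi)) ≤ ENNReal.ofReal (1 / (1 + σ)) := by
    refine le_of_forall_gt_imp_ge_of_dense (fun b hb => ?_)
    rcases eq_or_ne b ⊤ with htop | htop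
    · rw [htop]
      exact le_top
    · have hb' : 1 / (1 + σ) < b.toReal := by
        rwa [ENNReal.ofReal_lt_iff_lt_toReal (by positivity) htop] at hb
      have h2 := haus hcnt hm1 hm0 (lt_trans (by positivity) hb')
        (pow_summable hm1 hm0 hC hσ hM hb')
      have h3 : dimH (R ∩ Ioc 0 (2 * Real.pi)) ≤ (b.toNNReal : ENNReal) := by
        refine dimH_le_of_hausdorffMeasure_ne_top ?_
        change Measure.hausdorffMeasure b.toReal _ ≠ ⊤
        rw [h2]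
        exact ENNReal.zero_ne_top
      rwa [ENNReal.coe_toNNReal htop] at h3
  have hpi : 0 < 2 * Real.pi := by positivity
  have hper : ∀ (k : ℤ) (t : ℝ), t + k * (2 * Real.pi) ∈ R ↔ t ∈ R := by
    have hB : ∀ t, t + 2 * Real.pi ∈ R ↔ t ∈ R := by
      intro t
      simp only [hR, mem_ofPred_eq, Nr_add]
    intro k
    induction k using Int.induction_on with
    | zero => simp
    | succ k ih =>
      intro t
      rw [← ih t]
      push_cast
      rw [show t + ((k : ℝ) + 1) * (2 * Real.pi) = t + k * (2 * Real.pi) + 2 * Real.pi by ring]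
      exact hB _
    | pred k ih =>
      intro t
      rw [← ih t, ← hB]
      push_cast
      rw [show t + (-(k : ℝ) - 1) * (2 * Real.pi) + 2 * Real.pi = t + -(k : ℝ) * (2 * Real.pi) by
        ring]
  have hcov : R ⊆ ⋃ k : ℤ, (IsometryEquiv.addRight (-((k : ℝ) * (2 * Real.pi)))) ''
      (R ∩ Ioc 0 (2 * Real.pi)) := by
    intro t ht
    obtain ⟨k, hk', _⟩ := existsUnique_add_zsmul_mem_Ioc hpi t 0
    refine mem_iUnion.2 ⟨k, t + k * (2 * Real.pi), ⟨(hper k t).2 ht, ?_⟩, ?_⟩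
    · simpa using hk'
    · rw [IsometryEquiv.addRight_apply]
      ring
  refine (dimH_mono hcov).trans ?_
  rw [dimH_iUnion]
  refine iSup_le (fun k => ?_)
  rw [IsometryEquiv.dimH_image]
  exact h1

/-- The Hausdorff dimension of the set of directions with dense orbits. -/
theorem operator_dim {M : X →L[ℂ] X} (hQ : QN M) {v : X} {φ : X →L[ℂ] ℂ} (hφ : φ ≠ 0)
    {C D σ : ℝ} (hC : 0 ≤ C) (hσ : 0 < σ)
    (hM : ∀ n : ℕ, ‖φ ((M ^ n) v)‖ ≤ D * (C / ((n : ℝ) + 1) ^ σ) ^ n) :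
    dimH {t : ℝ | Dense {y : X | ∃ n : ℕ, 1 ≤ n ∧
      y = (((cis t) • (1 : X →L[ℂ] X) + M) ^ n) v}} ≤ ENNReal.ofReal (1 / (1 + σ)) := by
  have : Nontrivial X := by
    by_contra hcon
    rw [not_nontrivial_iff_subsingleton] at hcon
    exact hφ (by ext x; rw [Subsingleton.elim x 0, map_zero]; rfl)
  by_cases hv : ∀ n : ℕ, φ ((M ^ (n + 1)) v) = 0
  · have he : {t : ℝ | Dense {y : X | ∃ n : ℕ, 1 ≤ n ∧
      y = (((cis t) • (1 : X →L[ℂ] X) + M) ^ n) v}} = ∅ := by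
      refine eq_empty_of_forall_notMem (fun t hd => ?_)
      exact not_dense_of_functional hφ hv t hd
    rw [he, dimH_empty]
    exact bot_le
  · push Not at hv
    obtain ⟨k, hk⟩ := hv
    set s : ℕ → ℝ := fun n => C / ((n : ℝ) + 1) ^ σ with hs
    have hs0 : ∀ n, 0 ≤ s n := fun n => by positivity
    have hanti : Antitone s := by
      intro a b hab
      have : ((a : ℝ) + 1) ^ σ ≤ ((b : ℝ) + 1) ^ σ := by
        refine Real.rpow_le_rpow (by positivity) ?_ hσ.le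
        have : (a : ℝ) ≤ b := by exact_mod_cast hab
        linarith
      simp only [hs]
      gcongr
    have ht : Tendsto s atTop (𝓝 0) := by
      have h1 : Tendsto (fun n : ℕ => ((n : ℝ) + 1) ^ σ) atTop atTop :=
        (tendsto_rpow_atTop hσ).comp
          (tendsto_atTop_add_const_right _ _ tendsto_natCast_atTop_atTop)
      exact h1.const_div_atTop C
    obtain ⟨ε, hε, hcnt⟩ := weak_count hQ hanti hs0 ht hM hk
    have h := dim_bound hcnt (by simp) (fun n => pow_nonneg (hs0 n) n) hC hσ (fun n => le_rfl)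
    set R : Set ℝ := {t : ℝ | ∃ᶠ n in atTop, t ∈ Nr M v ε n} with hR
    have hsub : {t : ℝ | Dense {y : X | ∃ n : ℕ, 1 ≤ n ∧
      y = (((cis t) • (1 : X →L[ℂ] X) + M) ^ n) v}} ⊆ (IsometryEquiv.neg ℝ) '' R := by
      intro t hd
      refine ⟨-t, ?_, by simp⟩
      simp only [hR, mem_ofPred_eq]
      by_contra hcon
      rw [not_frequently] at hcon
      exact not_dense_of_far hε hcon hd
    refine (dimH_mono hsub).trans ?_
    rw [IsometryEquiv.dimH_image]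
    exact h

end Pool.Agent.Work.MP_0d53be_an
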