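import Mathlib

/-!
Stokes' formula for the connection form `Im ⟪G, dG⟫ / ‖G‖ ^ 2` on a cylinder.
-/

set_option autoImplicit false

namespace Pool.Agent.Work.MP_0d53be_an

open MeasureTheory Set Filter Topology

variable {H : Type*} [NormedAddCommGroup H] [InnerProductSpace ℂ H]

/-- The connection form. -/
noncomputable def alp (G K : H) : ℝ := (inner ℂ G K).im / ‖G‖ ^ 2

/-- The sesquilinear form `⟪A, B⟫ ‖G‖² - ⟪A, G⟫ ⟪G, B⟫`. -/
noncomputable def Bf (G A B : H) : ℂ :=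
  inner ℂ A B * (‖G‖ : ℂ) ^ 2 - inner ℂ A G * inner ℂ G B

theorem nsq (G : H) : ((‖G‖ : ℝ) : ℂ) ^ 2 = inner ℂ G G := by
  rw [inner_self_eq_norm_sq_to_K]
  simp

theorem nsq_re (G : H) : ‖G‖ ^ 2 = (inner ℂ G G).re := by
  rw [← nsq]
  norm_cast

/-- The derivative of the square of the norm. -/
theorem hasDerivAt_nsq {f : ℝ → H} {f' : H} {x : ℝ} (hf : HasDerivAt f f' x) :
    HasDerivAt (fun t => ‖f t‖ ^ 2) (2 * (inner ℂ (f x) f').re) x := by
  have h1 := (hf.inner ℂ hf)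
  have h2 : HasDerivAt (fun t => (inner ℂ (f t) (f t)).re)
      ((inner ℂ (f x) f' + inner ℂ f' (f x)).re) x := by
    exact (Complex.reCLM.hasFDerivAt.comp_hasDerivAt x h1)
  have h3 : (fun t => ‖f t‖ ^ 2) = fun t => (inner ℂ (f t) (f t)).re := by
    funext t
    exact nsq_re _
  rw [h3]
  convert h2 using 1
  rw [Complex.add_re, ← inner_conj_symm f' (f x), Complex.conj_re]
  ring

/-- The derivative of the connection form. -/
theorem hasDerivAt_alp {f g : ℝ → H} {f' g' : H} {x : ℝ} (hf : HasDerivAt f f' x)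
    (hg : HasDerivAt g g' x) (h0 : f x ≠ 0) :
    HasDerivAt (fun t => alp (f t) (g t))
      ((((inner ℂ (f x) g').im + (inner ℂ f' (g x)).im) * ‖f x‖ ^ 2 -
        (inner ℂ (f x) (g x)).im * (2 * (inner ℂ (f x) f').re)) / (‖f x‖ ^ 2) ^ 2) x := by
  have h1 := (hf.inner ℂ hg)
  have h2 : HasDerivAt (fun t => (inner ℂ (f t) (g t)).im)
      ((inner ℂ (f x) g' + inner ℂ f' (g x)).im) x := by
    exact (Complex.imCLM.hasFDerivAt.comp_hasDerivAt x h1)
  have h3 := h2.div (hasDerivAt_nsq hf) (pow_ne_zero 2 (norm_ne_zero_iff.2 h0))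
  rw [Complex.add_im] at h3
  exact h3

/-- The curvature. -/
theorem curv (G A B C : H) :
    (((inner ℂ G C).im + (inner ℂ A B).im) * ‖G‖ ^ 2 -
        (inner ℂ G B).im * (2 * (inner ℂ G A).re)) / (‖G‖ ^ 2) ^ 2 -
    (((inner ℂ G C).im + (inner ℂ B A).im) * ‖G‖ ^ 2 -
        (inner ℂ G A).im * (2 * (inner ℂ G B).re)) / (‖G‖ ^ 2) ^ 2 =
      2 * (Bf G A B).im / (‖G‖ ^ 2) ^ 2 := by
  rw [← sub_div]
  congr 1
  have e1 : (inner ℂ B A).im = - (inner ℂ A B).im := by
    rw [← inner_conj_symm B A, Complex.conj_im]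
  have e2 : (Bf G A B).im = (inner ℂ A B).im * ‖G‖ ^ 2 -
      ((inner ℂ G A).re * (inner ℂ G B).im - (inner ℂ G A).im * (inner ℂ G B).re) := by
    unfold Bf
    rw [← inner_conj_symm A G]
    have : ((‖G‖ : ℂ) ^ 2) = ((‖G‖ ^ 2 : ℝ) : ℂ) := by push_cast; rfl
    rw [this]
    simp only [Complex.sub_im, Complex.mul_im, Complex.ofReal_re, Complex.ofReal_im,
      Complex.conj_re, Complex.conj_im]
    ring
  rw [e1, e2]
  ring

variable {s₀ s₁ : ℝ}

/-- **Stokes' formula.** -/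
theorem stokes (hs : s₀ ≤ s₁) {G A B C : ℝ → ℝ → H}
    (hG : Continuous (fun p : ℝ × ℝ => G p.1 p.2)) (hA : Continuous (fun p : ℝ × ℝ => A p.1 p.2))
    (hB : Continuous (fun p : ℝ × ℝ => B p.1 p.2)) (hC : Continuous (fun p : ℝ × ℝ => C p.1 p.2))
    (h0 : ∀ s ∈ Icc s₀ s₁, ∀ t, G s t ≠ 0)
    (dG : ∀ s t, HasDerivAt (fun s => G s t) (A s t) s)
    (dG' : ∀ s t, HasDerivAt (fun t => G s t) (B s t) t)
    (dA : ∀ s t, HasDerivAt (fun t => A s t) (C s t) t)
    (dB : ∀ s t, HasDerivAt (fun s => B s t) (C s t) s)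
    (pG : ∀ s, G s (2 * Real.pi) = G s 0) (pA : ∀ s, A s (2 * Real.pi) = A s 0) :
    (∫ t in (0 : ℝ)..2 * Real.pi, alp (G s₁ t) (B s₁ t)) -
      (∫ t in (0 : ℝ)..2 * Real.pi, alp (G s₀ t) (B s₀ t)) =
    ∫ s in s₀..s₁, ∫ t in (0 : ℝ)..2 * Real.pi,
      2 * (Bf (G s t) (A s t) (B s t)).im / (‖G s t‖ ^ 2) ^ 2 := by
  have hpi : (0 : ℝ) ≤ 2 * Real.pi := by positivity
  have hin : ∀ {u v : ℝ × ℝ → H}, Continuous u → Continuous v →
      Continuous (fun p => inner ℂ (u p) (v p)) := fun hu hv => hu.inner hv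
  -- the derivative of alp (G, B) in s
  set P : ℝ → ℝ → ℝ := fun s t =>
    (((inner ℂ (G s t) (C s t)).im + (inner ℂ (A s t) (B s t)).im) * ‖G s t‖ ^ 2 -
        (inner ℂ (G s t) (B s t)).im * (2 * (inner ℂ (G s t) (A s t)).re)) /
          (‖G s t‖ ^ 2) ^ 2 with hP
  set Q : ℝ → ℝ → ℝ := fun s t =>
    (((inner ℂ (G s t) (C s t)).im + (inner ℂ (B s t) (A s t)).im) * ‖G s t‖ ^ 2 -
        (inner ℂ (G s t) (A s t)).im * (2 * (inner ℂ (G s t) (B s t)).re)) /
          (‖G s t‖ ^ 2) ^ 2 with hQ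
  have hden : ∀ p ∈ Icc s₀ s₁ ×ˢ (univ : Set ℝ), (‖G p.1 p.2‖ ^ 2) ^ 2 ≠ 0 := fun p hp =>
    pow_ne_zero 2 (pow_ne_zero 2 (norm_ne_zero_iff.2 (h0 p.1 hp.1 p.2)))
  have im : ∀ {u v : ℝ × ℝ → H}, Continuous u → Continuous v →
      Continuous (fun p => (inner ℂ (u p) (v p)).im) := fun hu hv =>
    Complex.continuous_im.comp (hin hu hv)
  have re : ∀ {u v : ℝ × ℝ → H}, Continuous u → Continuous v →
      Continuous (fun p => (inner ℂ (u p) (v p)).re) := fun hu hv =>
    Complex.continuous_re.comp (hin hu hv)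
  have cP : ContinuousOn (fun p : ℝ × ℝ => P p.1 p.2) (Icc s₀ s₁ ×ˢ univ) := by
    refine ContinuousOn.div (Continuous.continuousOn ?_) (Continuous.continuousOn ?_) hden
    · exact ((((im hG hC).add (im hA hB)).mul (hG.norm.pow 2)).sub
        ((im hG hB).mul (continuous_const.mul (re hG hA))))
    · exact (hG.norm.pow 2).pow 2
  have cQ : ContinuousOn (fun p : ℝ × ℝ => Q p.1 p.2) (Icc s₀ s₁ ×ˢ univ) := by
    refine ContinuousOn.div (Continuous.continuousOn ?_) (Continuous.continuousOn ?_) hden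
    · exact ((((im hG hC).add (im hB hA)).mul (hG.norm.pow 2)).sub
        ((im hG hA).mul (continuous_const.mul (re hG hB))))
    · exact (hG.norm.pow 2).pow 2
  have dP : ∀ s ∈ Icc s₀ s₁, ∀ t, HasDerivAt (fun s => alp (G s t) (B s t)) (P s t) s :=
    fun s hs' t => hasDerivAt_alp (dG s t) (dB s t) (h0 s hs' t)
  have dQ : ∀ s ∈ Icc s₀ s₁, ∀ t, HasDerivAt (fun t => alp (G s t) (A s t)) (Q s t) t :=
    fun s hs' t => hasDerivAt_alp (dG' s t) (dA s t) (h0 s hs' t)
  have calp : ∀ s ∈ Icc s₀ s₁, Continuous (fun t => alp (G s t) (B s t)) := by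
    intro s hs'
    refine Continuous.div ?_ ?_ (fun t => pow_ne_zero 2 (norm_ne_zero_iff.2 (h0 s hs' t)))
    · exact (im hG hB).comp (Continuous.prodMk_right s)
    · exact ((hG.comp (Continuous.prodMk_right s)).norm).pow 2
  have hmem0 : s₀ ∈ Icc s₀ s₁ := left_mem_Icc.2 hs
  have hmem1 : s₁ ∈ Icc s₀ s₁ := right_mem_Icc.2 hs
  rw [← intervalIntegral.integral_sub ((calp s₁ hmem1).intervalIntegrable _ _)
    ((calp s₀ hmem0).intervalIntegrable _ _)]
  have step1 : ∀ t, alp (G s₁ t) (B s₁ t) - alp (G s₀ t) (B s₀ t) = ∫ s in s₀..s₁, P s t := by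
    intro t
    rw [intervalIntegral.integral_eq_sub_of_hasDerivAt
      (f := fun s => alp (G s t) (B s t))]
    · intro s hs'
      rw [uIcc_of_le hs] at hs'
      exact dP s hs' t
    · refine ContinuousOn.intervalIntegrable ?_
      rw [uIcc_of_le hs]
      exact cP.comp (f := fun s => (s, t)) (Continuous.continuousOn (by fun_prop))
        (fun s hs' => ⟨hs', mem_univ _⟩)
  simp_rw [step1]
  rw [intervalIntegral_intervalIntegral_swap]
  · refine intervalIntegral.integral_congr (fun s hs' => ?_)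
    rw [uIcc_of_le hs] at hs'
    have hz : ∫ t in (0 : ℝ)..2 * Real.pi, Q s t = 0 := by
      rw [intervalIntegral.integral_eq_sub_of_hasDerivAt (f := fun t => alp (G s t) (A s t))]
      · rw [pG, pA, sub_self]
      · exact fun t _ => dQ s hs' t
      · refine ContinuousOn.intervalIntegrable ?_
        exact cQ.comp (f := fun t => (s, t)) (Continuous.continuousOn (by fun_prop))
          (fun t _ => ⟨hs', mem_univ _⟩)
    have iP : IntervalIntegrable (fun t => P s t) volume 0 (2 * Real.pi) := by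
      refine ContinuousOn.intervalIntegrable ?_
      exact cP.comp (f := fun t => (s, t)) (Continuous.continuousOn (by fun_prop))
          (fun t _ => ⟨hs', mem_univ _⟩)
    have iQ : IntervalIntegrable (fun t => Q s t) volume 0 (2 * Real.pi) := by
      refine ContinuousOn.intervalIntegrable ?_
      exact cQ.comp (f := fun t => (s, t)) (Continuous.continuousOn (by fun_prop))
          (fun t _ => ⟨hs', mem_univ _⟩)
    have : ∫ t in (0 : ℝ)..2 * Real.pi, P s t = ∫ t in (0 : ℝ)..2 * Real.pi, (P s t - Q s t) := by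
      rw [intervalIntegral.integral_sub iP iQ, hz, sub_zero]
    refine this.trans ?_
    refine intervalIntegral.integral_congr (fun t _ => ?_)
    exact curv _ _ _ _
  · have hc : ContinuousOn (fun p : ℝ × ℝ => P p.2 p.1) (Icc 0 (2 * Real.pi) ×ˢ Icc s₀ s₁) := by
      refine cP.comp (f := fun p : ℝ × ℝ => (p.2, p.1)) (Continuous.continuousOn (by fun_prop)) ?_
      exact fun p hp => ⟨hp.2, mem_univ _⟩
    have hi := hc.integrableOn_compact (isCompact_Icc.prod isCompact_Icc) (μ := volume)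
    refine IntegrableOn.mono_set hi ?_
    rw [uIoc_of_le hpi, uIoc_of_le hs]
    exact prod_mono Ioc_subset_Icc_self Ioc_subset_Icc_self

end Pool.Agent.Work.MP_0d53be_an
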